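import Pool.Agent.W_MP_d5b253_lc.Reach

set_option autoImplicit false

namespace Pool.Agent.W_MP_d5b253_lc

open Filter

theorem exists_good_subset (f : ℕ → (ℕ ≃. ℕ)) (c : ℕ → ℕ → ℕ → ℕ) (q : ℕ → ℕ)
    (hq : ∀ j a z, c j a z < q j) (blk : ℕ → ℕ) (hblk : ∀ b, {z | blk z ≤ b}.Finite)
    (s : Finset ℕ) (A : Set ℕ) (hA : A.Infinite) :
    ∃ D : Set ℕ, D ⊆ A ∧ D.Infinite ∧ ∀ x : Set ℕ, x.Infinite → x ⊆ ↑s ∪ D →
      ∀ᶠ j in atTop, Good f c blk j x := by
  classical
  have hne : (𝓟 A ⊓ (cofinite : Filter ℕ)).NeBot := by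
    rw [inf_comm, cofinite_inf_principal_neBot_iff]
    exact hA
  set U : Ultrafilter ℕ := Ultrafilter.of (𝓟 A ⊓ (cofinite : Filter ℕ)) with hU
  have hle : (U : Filter ℕ) ≤ 𝓟 A ⊓ (cofinite : Filter ℕ) := Ultrafilter.of_le _
  have hUA : ∀ᶠ a in (U : Filter ℕ), a ∈ A := (hle.trans inf_le_left) (mem_principal_self A)
  have hUcof : (U : Filter ℕ) ≤ cofinite := hle.trans inf_le_right
  have hUc : (U : Filter ℕ) ≤ atTop := by
    rw [← Nat.cofinite_eq_atTop]; exact hUcof
  have hlim : ∀ (N : ℕ) (g : ℕ → ℕ), (∀ z, g z < N) → ∃ κ < N, ∀ᶠ b in (U : Filter ℕ), g b = κ := by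
    intro N g hg
    by_contra hcon
    push Not at hcon
    have h2 : ∀ᶠ b in (U : Filter ℕ), ∀ κ ∈ Finset.range N, g b ≠ κ := by
      rw [eventually_all_finset]
      intro κ hκ
      exact hcon κ (Finset.mem_range.1 hκ)
    obtain ⟨b, hb⟩ := h2.exists
    exact hb (g b) (Finset.mem_range.2 (hg b)) rfl
  choose V hV1 hV2 using fun (j : ℕ) (a : ℕ) => hlim (q j) (c j a) (hq j a)
  choose VV _ hVV using fun (j : ℕ) => hlim (q j) (fun z => V j (blk z)) (fun z => hV1 j (blk z))
  have hW : ∀ w : List (ℕ × Bool), ∀ᶠ y in (U : Filter ℕ),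
      (act f w y = some y ↔ ∀ᶠ z in (U : Filter ℕ), act f w z = some z) := by
    intro w
    by_cases h : ∀ᶠ z in (U : Filter ℕ), act f w z = some z
    · filter_upwards [h] with y hy
      exact ⟨fun _ => h, fun _ => hy⟩
    · have h' := h
      rw [← Ultrafilter.eventually_not] at h'
      filter_upwards [h'] with y hy
      exact ⟨fun h3 => absurd h3 hy, fun h3 => absurd h3 h⟩
  obtain ⟨d, hd1, hd2⟩ := exists_seq_of_forall_finset_exists (fun z => z ∈ A)
    (fun z y => z < y ∧ blk z < blk y ∧ (∀ j ≤ blk z, ∀ a ≤ blk z, c j a y = V j a) ∧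
      (∀ w ∈ words (blk z) (blk z + 3),
        (act f w y = some y ↔ ∀ᶠ z in (U : Filter ℕ), act f w z = some z)) ∧
      ∀ j ≤ blk z, V j (blk y) = VV j) (by
    intro t ht
    have h1 : ∀ᶠ y in (U : Filter ℕ), ∀ z ∈ t, z < y ∧ blk z < blk y ∧
        (∀ j ≤ blk z, ∀ a ≤ blk z, c j a y = V j a) ∧
        (∀ w ∈ words (blk z) (blk z + 3),
          (act f w y = some y ↔ ∀ᶠ z in (U : Filter ℕ), act f w z = some z)) ∧
        ∀ j ≤ blk z, V j (blk y) = VV j := by
      rw [eventually_all_finset]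
      intro z _
      have e1 : ∀ᶠ y in (U : Filter ℕ), z < y := hUc (eventually_gt_atTop z)
      have e2 : ∀ᶠ y in (U : Filter ℕ), blk z < blk y := by
        have := hUcof ((hblk (blk z)).compl_mem_cofinite)
        filter_upwards [this] with y hy
        simpa using hy
      have e3 : ∀ᶠ y in (U : Filter ℕ), ∀ j ≤ blk z, ∀ a ≤ blk z, c j a y = V j a := by
        have : ∀ᶠ y in (U : Filter ℕ), ∀ j ∈ Finset.range (blk z + 1),
            ∀ a ∈ Finset.range (blk z + 1), c j a y = V j a := by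
          rw [eventually_all_finset]
          intro j _
          rw [eventually_all_finset]
          intro a _
          exact hV2 j a
        filter_upwards [this] with y hy j hj a ha
        exact hy j (Finset.mem_range.2 (by omega)) a (Finset.mem_range.2 (by omega))
      have e4 : ∀ᶠ y in (U : Filter ℕ), ∀ w ∈ words (blk z) (blk z + 3),
          (act f w y = some y ↔ ∀ᶠ z in (U : Filter ℕ), act f w z = some z) := by
        rw [eventually_all_finite (finite_words _ _)]
        intro w _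
        exact hW w
      have e5 : ∀ᶠ y in (U : Filter ℕ), ∀ j ≤ blk z, V j (blk y) = VV j := by
        have : ∀ᶠ y in (U : Filter ℕ), ∀ j ∈ Finset.range (blk z + 1), V j (blk y) = VV j := by
          rw [eventually_all_finset]
          intro j _
          exact hVV j
        filter_upwards [this] with y hy j hj
        exact hy j (Finset.mem_range.2 (by omega))
      filter_upwards [e1, e2, e3, e4, e5] with y h1 h2 h3 h4 h5
      exact ⟨h1, h2, h3, h4, h5⟩
    obtain ⟨y, h2, h3⟩ := (hUA.and h1).exists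
    exact ⟨y, h2, h3⟩)
  have hmono : StrictMono d := fun m n h => (hd2 m n h).1
  have hbmono : StrictMono (fun n => blk (d n)) := fun m n h => (hd2 m n h).2.1
  refine ⟨Set.range d, ?_, Set.infinite_range_of_injective hmono.injective, ?_⟩
  · rintro _ ⟨n, rfl⟩; exact hd1 n
  intro x hx hxs
  have hJ : ∀ᶠ j in atTop, ∀ z ∈ s, blk z < j := by
    rw [eventually_all_finset]
    intro z _
    exact eventually_gt_atTop _
  filter_upwards [hJ] with j hj
  -- elements with large label are in the range of `d`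
  have hin : ∀ z ∈ x, j ≤ blk z → ∃ n, d n = z := by
    intro z hz hjz
    rcases hxs hz with h | h
    · exact absurd (hj z h) (by omega)
    · exact h
  have hinf : ∀ N, ∃ n, N < n ∧ d n ∈ x ∧ j ≤ blk (d n) := by
    intro N
    by_contra hcon
    push Not at hcon
    apply hx
    apply ((hblk (blk (d N) + j)).subset)
    intro z hz
    by_contra hbz
    simp only [Set.mem_ofPred_eq, not_le] at hbz
    obtain ⟨n, rfl⟩ := hin z hz (by omega)
    have hNn : N < n := by
      by_contra h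
      have : blk (d n) ≤ blk (d N) := hbmono.monotone (show n ≤ N by omega)
      omega
    have := hcon n hNn hz
    omega
  have hinf0 : ∃ n, d n ∈ x ∧ j ≤ blk (d n) := by
    obtain ⟨n, _, h⟩ := hinf 0; exact ⟨n, h⟩
  set n0 := Nat.find hinf0 with hn0
  have h0 := Nat.find_spec hinf0
  rw [← hn0] at h0
  have h0m : ∀ m, d m ∈ x → j ≤ blk (d m) → n0 ≤ m := fun m h1 h2 => Nat.find_min' hinf0 ⟨h1, h2⟩
  set n1 := Nat.find (hinf n0) with hn1
  have h1 := Nat.find_spec (hinf n0)
  rw [← hn1] at h1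
  have h1m : ∀ m, n0 < m → d m ∈ x → j ≤ blk (d m) → n1 ≤ m :=
    fun m h h1 h2 => Nat.find_min' (hinf n0) ⟨h, h1, h2⟩
  set n2 := Nat.find (hinf n1) with hn2
  have h2 := Nat.find_spec (hinf n1)
  rw [← hn2] at h2
  have h2m : ∀ m, n1 < m → d m ∈ x → j ≤ blk (d m) → n2 ≤ m :=
    fun m h h1 h2 => Nat.find_min' (hinf n1) ⟨h, h1, h2⟩
  clear_value n0 n1 n2
  have hb01 := hbmono h1.1
  have hb12 := hbmono h2.1
  simp only at hb01 hb12
  refine ⟨blk (d n0), blk (d n1), blk (d n2), ⟨h0.2, hb01, hb12, ⟨_, h0.1, rfl⟩,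
    ⟨_, h1.2.1, rfl⟩, ⟨_, h2.2.1, rfl⟩, ?_⟩, ?_, ?_⟩
  · rintro _ ⟨z, hz, rfl⟩ hjz hzb
    obtain ⟨m, rfl⟩ := hin z hz hjz
    have hm2 : m ≤ n2 := by
      by_contra h
      have : blk (d n2) < blk (d m) := hbmono (show n2 < m by omega)
      omega
    rcases Nat.lt_or_ge n0 m with h | h
    · rcases Nat.lt_or_ge n1 m with h' | h'
      · have := h2m m h' hz hjz
        have e : m = n2 := by omega
        right; right; rw [e]
      · have := h1m m h hz hjz
        have e : m = n1 := by omega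
        right; left; rw [e]
    · have := h0m m hz hjz
      have e : m = n0 := by omega
      left; rw [e]
  · rintro z ⟨hz, hbz⟩
    obtain ⟨m, rfl⟩ := hin z hz (by omega)
    have hm : n2 < m := by
      by_contra h
      have : blk (d m) ≤ blk (d n2) := hbmono.monotone (show m ≤ n2 by omega)
      omega
    have g1 := (hd2 n1 m (by omega)).2.2.1 j (by omega) (blk (d n1)) le_rfl
    have g2 := (hd2 n2 m hm).2.2.1 j (by omega) (blk (d n2)) le_rfl
    have g3 := (hd2 n0 n1 h1.1).2.2.2.2 j h0.2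
    have g4 := (hd2 n0 n2 (by omega)).2.2.2.2 j h0.2
    rw [g1, g2, g3, g4]
  · intro w hw1 hw2
    have key : ∀ z ∈ tail blk (blk (d n2)) x, (act f w z = some z ↔
        ∀ᶠ z in (U : Filter ℕ), act f w z = some z) := by
      rintro z ⟨hz, hbz⟩
      obtain ⟨m, rfl⟩ := hin z hz (by omega)
      have hm : n2 < m := by
        by_contra h
        have : blk (d m) ≤ blk (d n2) := hbmono.monotone (show m ≤ n2 by omega)
        omega
      exact (hd2 n2 m hm).2.2.2.1 w ⟨hw1, fun i hi => (hw2 i hi).trans (by omega)⟩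
    by_cases h : ∀ᶠ z in (U : Filter ℕ), act f w z = some z
    · left; intro z hz; exact (key z hz).2 h
    · right; intro z hz h3; exact h ((key z hz).1 h3)

end Pool.Agent.W_MP_d5b253_lc
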