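import Pool.Agent.W_MP_d5b253_lc.Defs

set_option autoImplicit false

namespace Pool.Agent.W_MP_d5b253_lc

/-! ## levels -/

/-- one step of the level function -/
def mStep (f : ℕ → (ℕ ≃. ℕ)) (i x : ℕ) : ℕ :=
  x + 1 + ∑ n ∈ Finset.range (i + 1), ∑ z ∈ Finset.range x,
    ((f n z).getD 0 + ((f n).symm z).getD 0)

/-- the thresholds -/
def mSeq (f : ℕ → (ℕ ≃. ℕ)) : ℕ → ℕ
  | 0 => 0
  | i + 1 => mStep f i (mSeq f i)

theorem mStep_bound (f : ℕ → (ℕ ≃. ℕ)) (i x n z : ℕ) (hn : n ≤ i) (hz : z < x) :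
    (f n z).getD 0 + ((f n).symm z).getD 0 < mStep f i x := by
  unfold mStep
  have h1 : (f n z).getD 0 + ((f n).symm z).getD 0 ≤
      ∑ z ∈ Finset.range x, ((f n z).getD 0 + ((f n).symm z).getD 0) :=
    Finset.single_le_sum (f := fun z => (f n z).getD 0 + ((f n).symm z).getD 0)
      (fun _ _ => Nat.zero_le _) (Finset.mem_range.2 hz)
  have h2 : ∑ z ∈ Finset.range x, ((f n z).getD 0 + ((f n).symm z).getD 0) ≤
      ∑ n ∈ Finset.range (i + 1), ∑ z ∈ Finset.range x,
        ((f n z).getD 0 + ((f n).symm z).getD 0) :=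
    Finset.single_le_sum (f := fun n => ∑ z ∈ Finset.range x,
        ((f n z).getD 0 + ((f n).symm z).getD 0))
      (fun _ _ => Nat.zero_le _) (Finset.mem_range.2 (Nat.lt_succ_of_le hn))
  omega

theorem mSeq_lt (f : ℕ → (ℕ ≃. ℕ)) (i : ℕ) : mSeq f i < mSeq f (i + 1) := by
  show mSeq f i < mStep f i (mSeq f i)
  unfold mStep
  omega

theorem mSeq_strictMono (f : ℕ → (ℕ ≃. ℕ)) : StrictMono (mSeq f) :=
  strictMono_nat_of_lt_succ (mSeq_lt f)

theorem mSeq_fwd (f : ℕ → (ℕ ≃. ℕ)) {i n z z' : ℕ} (hn : n ≤ i) (hz : z < mSeq f i)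
    (h : f n z = some z') : z' < mSeq f (i + 1) := by
  have := mStep_bound f i (mSeq f i) n z hn hz
  rw [h] at this
  simp only [Option.getD_some] at this
  show z' < mStep f i (mSeq f i)
  omega

theorem mSeq_bwd (f : ℕ → (ℕ ≃. ℕ)) {i n z z' : ℕ} (hn : n ≤ i) (hz : z' < mSeq f i)
    (h : f n z = some z') : z < mSeq f (i + 1) := by
  have := mStep_bound f i (mSeq f i) n z' hn hz
  have h' : (f n).symm z' = some z := (PEquiv.eq_some_iff _).2 h
  rw [h'] at this
  simp only [Option.getD_some] at this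
  show z < mStep f i (mSeq f i)
  omega

theorem exists_lev (f : ℕ → (ℕ ≃. ℕ)) (z : ℕ) : ∃ i, z < mSeq f i :=
  ⟨z + 1, lt_of_lt_of_le (Nat.lt_succ_self z) (mSeq_strictMono f).le_apply⟩

open Classical in
/-- the level -/
noncomputable def lev (f : ℕ → (ℕ ≃. ℕ)) (z : ℕ) : ℕ := Nat.find (exists_lev f z)

theorem lev_le_iff (f : ℕ → (ℕ ≃. ℕ)) (z i : ℕ) : lev f z ≤ i ↔ z < mSeq f i := by
  classical
  constructor
  · intro h
    have h1 : z < mSeq f (lev f z) := Nat.find_spec (exists_lev f z)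
    exact lt_of_lt_of_le h1 ((mSeq_strictMono f).monotone h)
  · intro h
    exact Nat.find_min' (exists_lev f z) h

theorem lev_finite (f : ℕ → (ℕ ≃. ℕ)) (i : ℕ) : {z | lev f z ≤ i}.Finite := by
  refine (Set.finite_lt_nat (mSeq f i)).subset ?_
  intro z hz
  exact (lev_le_iff f z i).1 hz

/-- `p` moves the level by at most one, up to finitely many exceptions -/
def LevStep (f : ℕ → (ℕ ≃. ℕ)) (p : ℕ ≃. ℕ) : Prop :=
  {z | ∃ z', p z = some z' ∧ ¬ (lev f z' ≤ lev f z + 1 ∧ lev f z ≤ lev f z' + 1)}.Finite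

theorem finite_image (p : ℕ ≃. ℕ) {S : Set ℕ} (hS : S.Finite) :
    {z' | ∃ z ∈ S, p z = some z'}.Finite := by
  have : {z' | ∃ z ∈ S, p z = some z'} ⊆ (fun z => (p z).getD 0) '' S := by
    rintro z' ⟨z, hz, h⟩
    exact ⟨z, hz, by simp [h]⟩
  exact (hS.image _).subset this

theorem levStep (f : ℕ → (ℕ ≃. ℕ)) (n : ℕ) : LevStep f (f n) := by
  have h1 := lev_finite f n
  have h2 := finite_image (f n).symm h1
  refine (h1.union h2).subset ?_
  rintro z ⟨z', h, hne⟩
  by_cases ha : lev f z ≤ n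
  · exact Or.inl ha
  by_cases hb : lev f z' ≤ n
  · exact Or.inr ⟨z', hb, (PEquiv.eq_some_iff _).2 h⟩
  exfalso
  apply hne
  constructor
  · rw [lev_le_iff]
    exact mSeq_fwd f (by omega) ((lev_le_iff f z _).1 le_rfl) h
  · rw [lev_le_iff]
    exact mSeq_bwd f (by omega) ((lev_le_iff f z' _).1 le_rfl) h

theorem LevStep.symm {f : ℕ → (ℕ ≃. ℕ)} {p : ℕ ≃. ℕ} (h : LevStep f p) : LevStep f p.symm := by
  have h2 := finite_image p h
  refine h2.subset ?_
  rintro z' ⟨z, hz, hne⟩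
  have hz' : p z = some z' := (PEquiv.eq_some_iff _).1 hz
  refine ⟨z, ⟨z', hz', fun hc => hne ⟨hc.2, hc.1⟩⟩, hz'⟩

theorem AlmostMaps.symm {p : ℕ ≃. ℕ} {x y : Set ℕ} (h : AlmostMaps p x y) :
    AlmostMaps p.symm y x := by
  refine ⟨?_, ?_⟩
  · refine h.2.subset ?_
    rintro z' ⟨hz', hn⟩
    exact ⟨hz', fun z hz hc => hn z hz ((PEquiv.eq_some_iff _).2 hc)⟩
  · refine h.1.subset ?_
    rintro z ⟨hz, hn⟩
    exact ⟨hz, fun z' hz' hc => hn z' hz' ((PEquiv.eq_some_iff _).2 hc)⟩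

/-! ## the two labellings -/

/-- the two coarse logarithms -/
def gg (e : Bool) (l : ℕ) : ℕ := if e = true then (Nat.log 2 l + 1) / 2 else Nat.log 2 l / 2

/-- the block label -/
noncomputable def bl (f : ℕ → (ℕ ≃. ℕ)) (e : Bool) (z : ℕ) : ℕ := gg e (lev f z)

/-- no block boundary within distance `r` of the level of `z` -/
def Safe (f : ℕ → (ℕ ≃. ℕ)) (e : Bool) (r z : ℕ) : Prop :=
  ∀ l, l ≤ lev f z + r → lev f z ≤ l + r → gg e l = gg e (lev f z)

/-- the type `e` -/
def Ty (f : ℕ → (ℕ ≃. ℕ)) (e : Bool) (x : Set ℕ) : Prop :=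
  ∀ r, {z | z ∈ x ∧ ¬ Safe f e r z}.Finite

theorem Safe.mono {f : ℕ → (ℕ ≃. ℕ)} {e : Bool} {r r' z : ℕ} (h : Safe f e r z) (hr : r' ≤ r) :
    Safe f e r' z := fun l h1 h2 => h l (by omega) (by omega)

theorem Safe.step {f : ℕ → (ℕ ≃. ℕ)} {e : Bool} {r z z' : ℕ} (h : Safe f e (r + 1) z)
    (h1 : lev f z' ≤ lev f z + 1) (h2 : lev f z ≤ lev f z' + 1) : Safe f e r z' := by
  intro l h3 h4
  rw [h l (by omega) (by omega), h (lev f z') (by omega) (by omega)]

theorem Ty.of_almost {f : ℕ → (ℕ ≃. ℕ)} {e : Bool} {p : ℕ ≃. ℕ} (hp : LevStep f p)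
    {x y : Set ℕ} (hxy : AlmostMaps p x y) (h : Ty f e x) : Ty f e y := by
  intro r
  have h1 := finite_image p ((h (r + 1)).union hp)
  refine (hxy.2.union h1).subset ?_
  rintro z' ⟨hz', hns⟩
  by_cases hc : ∀ z ∈ x, p z ≠ some z'
  · exact Or.inl ⟨hz', hc⟩
  · push Not at hc
    obtain ⟨z, hz, hpz⟩ := hc
    refine Or.inr ⟨z, ?_, hpz⟩
    by_cases hd : lev f z' ≤ lev f z + 1 ∧ lev f z ≤ lev f z' + 1
    · exact Or.inl ⟨hz, fun hs => hns (hs.step hd.1 hd.2)⟩
    · exact Or.inr ⟨z', hpz, hd⟩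

theorem gg_dichotomy (l0 : ℕ) :
    (∀ l, l ≤ l0 + l0 / 8 → l0 ≤ l + l0 / 8 → gg false l = gg false l0) ∨
      (∀ l, l ≤ l0 + l0 / 8 → l0 ≤ l + l0 / 8 → gg true l = gg true l0) := by
  rcases Nat.eq_zero_or_pos l0 with h0 | h0
  · left
    intro l h1 h2
    have : l = l0 := by omega
    rw [this]
  · set a := Nat.log 2 (l0 - l0 / 8) with ha
    have key : ∀ l, l ≤ l0 + l0 / 8 → l0 ≤ l + l0 / 8 → Nat.log 2 l = a ∨ Nat.log 2 l = a + 1 := by
      intro l h1 h2
      have h3 : a ≤ Nat.log 2 l := Nat.log_mono_right (by omega)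
      have h4 : Nat.log 2 l ≤ Nat.log 2 ((l0 - l0 / 8) * 2) := Nat.log_mono_right (by omega)
      rw [Nat.log_mul_base (by norm_num) (by omega)] at h4
      omega
    have h00 := key l0 (by omega) (by omega)
    rcases Nat.even_or_odd' a with ⟨k, hk | hk⟩
    · left
      intro l h1 h2
      have h5 := key l h1 h2
      simp only [gg]
      simp only [Bool.false_eq_true, if_false]
      omega
    · right
      intro l h1 h2
      have h5 := key l h1 h2
      simp only [gg]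
      simp only [if_true]
      omega

/-- Two block labellings and two types of sets. -/
theorem exists_types (f : ℕ → (ℕ ≃. ℕ)) :
    ∃ blk : Bool → ℕ → ℕ, ∃ T : Bool → Set ℕ → Prop,
      (∀ e b, {z | blk e z ≤ b}.Finite) ∧
      (∀ e x y n, AlmostMaps (f n) x y → (T e x ↔ T e y)) ∧
      (∀ e x n, T e x → {z | z ∈ x ∧ ∃ z', f n z = some z' ∧ blk e z' ≠ blk e z}.Finite) ∧
      (∀ e, MeasurableSet {x : Om | T e (el x)}) ∧
      ∀ (s : Finset ℕ) (A : Set ℕ), A.Infinite → ∃ D : Set ℕ, D ⊆ A ∧ D.Infinite ∧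
        ∃ e, ∀ x : Set ℕ, x ⊆ ↑s ∪ D → T e x := by
  classical
  refine ⟨bl f, Ty f, ?_, ?_, ?_, ?_, ?_⟩
  · intro e b
    refine (lev_finite f (2 ^ (2 * b + 2))).subset ?_
    intro z hz
    have hz' : gg e (lev f z) ≤ b := hz
    have h1 : Nat.log 2 (lev f z) < 2 * b + 2 := by
      unfold gg at hz'
      split_ifs at hz' <;> omega
    have h2 := Nat.lt_pow_of_log_lt (by norm_num) h1
    exact le_of_lt h2
  · intro e x y n h
    refine ⟨fun hx => hx.of_almost (levStep f n) h, fun hy => ?_⟩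
    exact hy.of_almost (levStep f n).symm h.symm
  · intro e x n hx
    refine ((hx 1).union (levStep f n)).subset ?_
    rintro z ⟨hz, z', h, hne⟩
    by_cases hd : lev f z' ≤ lev f z + 1 ∧ lev f z ≤ lev f z' + 1
    · exact Or.inl ⟨hz, fun hs => hne (hs (lev f z') hd.1 hd.2)⟩
    · exact Or.inr ⟨z', h, hd⟩
  · intro e
    have e1 : {x : Om | Ty f e (el x)} = ⋂ r : ℕ, ⋃ N : ℕ, ⋂ z : ℕ,
        {x : Om | N ≤ z → ¬ Safe f e r z → x.1 z = false} := by
      ext x
      simp only [Set.mem_ofPred_eq, Set.mem_iInter, Set.mem_iUnion]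
      constructor
      · intro h r
        obtain ⟨N, hN⟩ := (h r).bddAbove
        refine ⟨N + 1, fun z hz hs => ?_⟩
        by_contra hc
        have hx : x.1 z = true := by simpa using hc
        have := hN (show z ∈ {z | z ∈ el x ∧ ¬ Safe f e r z} from ⟨hx, hs⟩)
        omega
      · intro h r
        obtain ⟨N, hN⟩ := h r
        refine (Set.finite_lt_nat N).subset ?_
        rintro z ⟨hz, hs⟩
        by_contra hc
        have h1 := hN z (not_lt.1 hc) hs
        have h2 : x.1 z = true := hz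
        rw [h1] at h2
        exact Bool.false_ne_true h2
    rw [e1]
    refine MeasurableSet.iInter fun r => MeasurableSet.iUnion fun N => MeasurableSet.iInter fun z => ?_
    by_cases h1 : N ≤ z ∧ ¬ Safe f e r z
    · have e2 : {x : Om | N ≤ z → ¬ Safe f e r z → x.1 z = false} =
          (fun x : Om => x.1 z) ⁻¹' {false} := by
        ext x
        simp only [Set.mem_ofPred_eq, Set.mem_preimage, Set.mem_singleton_iff]
        exact ⟨fun h => h h1.1 h1.2, fun h _ _ => h⟩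
      rw [e2]
      exact ((measurable_pi_apply z).comp measurable_subtype_coe) (MeasurableSet.of_discrete)
    · have e2 : {x : Om | N ≤ z → ¬ Safe f e r z → x.1 z = false} = Set.univ := by
        ext x
        simp only [Set.mem_ofPred_eq, Set.mem_univ, iff_true]
        intro ha hb
        exact absurd ⟨ha, hb⟩ h1
      rw [e2]
      exact MeasurableSet.univ
  · intro s A hA
    have hcov : A ⊆ {z | z ∈ A ∧ Safe f false (lev f z / 8) z} ∪
        {z | z ∈ A ∧ Safe f true (lev f z / 8) z} := by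
      intro z hz
      rcases gg_dichotomy (lev f z) with h | h
      · exact Or.inl ⟨hz, h⟩
      · exact Or.inr ⟨hz, h⟩
    have hinf : {z | z ∈ A ∧ Safe f false (lev f z / 8) z}.Infinite ∨
        {z | z ∈ A ∧ Safe f true (lev f z / 8) z}.Infinite := by
      by_contra hc
      push Not at hc
      exact hA ((hc.1.union hc.2).subset hcov)
    have main : ∀ e, {z | z ∈ A ∧ Safe f e (lev f z / 8) z}.Infinite →
        ∃ D : Set ℕ, D ⊆ A ∧ D.Infinite ∧ ∃ e, ∀ x : Set ℕ, x ⊆ ↑s ∪ D → Ty f e x := by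
      intro e he
      refine ⟨_, fun z hz => hz.1, he, e, ?_⟩
      intro x hx r
      refine (s.finite_toSet.union (lev_finite f (8 * r))).subset ?_
      rintro z ⟨hz, hs⟩
      rcases hx hz with h | h
      · exact Or.inl h
      · right
        show lev f z ≤ 8 * r
        by_contra hc
        exact hs (h.2.mono (by omega))
    rcases hinf with h | h
    · exact main _ h
    · exact main _ h

end Pool.Agent.W_MP_d5b253_lc
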