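import Pool.Agent.W_MP_d5b253_lc.Defs

set_option autoImplicit false

namespace Pool.Agent.W_MP_d5b253_lc

namespace MeasAux

variable {α : Type*} [MeasurableSpace α]

/-- A measurable family of subsets of `ℕ`. -/
def MZ (Z : α → Set ℕ) : Prop := ∀ n, Measurable fun x => n ∈ Z x

/-- Image under a generator. -/
def img (f : ℕ → (ℕ ≃. ℕ)) (i : ℕ × Bool) (Z : Set ℕ) : Set ℕ :=
  {z' | ∃ z ∈ Z, gen f i z = some z'}

theorem MZ.img {Z : α → Set ℕ} (hZ : MZ Z) (f : ℕ → (ℕ ≃. ℕ)) (i : ℕ × Bool) :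
    MZ fun x => img f i (Z x) := by
  intro n
  exact Measurable.exists fun z => (hZ z).and measurable_const

theorem MZ.cond {Z : α → Set ℕ} (hZ : MZ Z) (f : ℕ → (ℕ ≃. ℕ)) (c : ℕ → ℕ → ℕ → ℕ)
    (j a b : ℕ) : Measurable fun x => Cond f c j a b (Z x) := by
  unfold Cond
  refine Measurable.and ?_ ?_
  · exact Measurable.forall fun z => (hZ z).imp measurable_const
  · refine Measurable.forall fun w => measurable_const.imp (measurable_const.imp ?_)
    exact (Measurable.forall fun z => (hZ z).imp measurable_const).or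
      (Measurable.forall fun z => (hZ z).imp measurable_const)

theorem MZ.eq {Z Z' : α → Set ℕ} (hZ : MZ Z) (hZ' : MZ Z') :
    Measurable fun x => Z x = Z' x := by
  have : (fun x => Z x = Z' x) = fun x => ∀ n, (n ∈ Z x ↔ n ∈ Z' x) := by
    funext x
    exact propext Set.ext_iff
  rw [this]
  exact Measurable.forall fun n => (hZ n).iff (hZ' n)

/-- Reachability along a given word. -/
def Via (f : ℕ → (ℕ ≃. ℕ)) (c : ℕ → ℕ → ℕ → ℕ) (j a b : ℕ) :
    List (ℕ × Bool) → Set ℕ → Set ℕ → Prop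
  | [], Z, Z' => Z = Z'
  | i :: l, Z, Z' => (i.1 ≤ j ∧ (∀ z ∈ Z, ∃ z', gen f i z = some z') ∧
      Cond f c j a b Z ∧ Cond f c j a b (img f i Z)) ∧ Via f c j a b l (img f i Z) Z'

theorem conn_iff (f : ℕ → (ℕ ≃. ℕ)) (c : ℕ → ℕ → ℕ → ℕ) (j a b : ℕ) (Z Z' : Set ℕ) :
    Conn f c j a b Z Z' ↔ Cond f c j a b Z ∧ ∃ l, Via f c j a b l Z Z' := by
  unfold Conn
  have key : Relation.ReflTransGen (Step f c j a b) Z Z' ↔ ∃ l, Via f c j a b l Z Z' := by
    refine ⟨fun h => ?_, fun ⟨l, hl⟩ => ?_⟩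
    · induction h using Relation.ReflTransGen.head_induction_on with
      | refl => exact ⟨[], rfl⟩
      | head hstep _ ih =>
        obtain ⟨l, hl⟩ := ih
        obtain ⟨i, hi, hdef, himg, hc1, hc2⟩ := hstep
        refine ⟨i :: l, ?_⟩
        subst himg
        exact ⟨⟨hi, hdef, hc1, hc2⟩, hl⟩
    · induction l generalizing Z with
      | nil =>
        have : Z = Z' := hl
        subst this
        exact Relation.ReflTransGen.refl
      | cons i l ih =>
        obtain ⟨⟨hi, hdef, hc1, hc2⟩, hl⟩ := hl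
        refine Relation.ReflTransGen.head ?_ (ih (img f i Z) ⟨l, hl⟩ hl)
        exact ⟨i, hi, hdef, rfl, hc1, hc2⟩
  rw [key]

theorem MZ.via {Z Z' : α → Set ℕ} (hZ : MZ Z) (hZ' : MZ Z') (f : ℕ → (ℕ ≃. ℕ))
    (c : ℕ → ℕ → ℕ → ℕ) (j a b : ℕ) (l : List (ℕ × Bool)) :
    Measurable fun x => Via f c j a b l (Z x) (Z' x) := by
  induction l generalizing Z with
  | nil => exact hZ.eq hZ'
  | cons i l ih =>
    refine Measurable.and ?_ (ih (hZ.img f i))
    refine measurable_const.and (Measurable.and ?_ ((hZ.cond f c j a b).and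
      ((hZ.img f i).cond f c j a b)))
    exact Measurable.forall fun z => (hZ z).imp measurable_const

theorem MZ.conn {Z Z' : α → Set ℕ} (hZ : MZ Z) (hZ' : MZ Z') (f : ℕ → (ℕ ≃. ℕ))
    (c : ℕ → ℕ → ℕ → ℕ) (j a b : ℕ) :
    Measurable fun x => Conn f c j a b (Z x) (Z' x) := by
  have : (fun x => Conn f c j a b (Z x) (Z' x)) =
      fun x => Cond f c j a b (Z x) ∧ ∃ l, Via f c j a b l (Z x) (Z' x) := by
    funext x
    exact propext (conn_iff f c j a b (Z x) (Z' x))
  rw [this]
  exact (hZ.cond f c j a b).and (Measurable.exists fun l => hZ.via hZ' f c j a b l)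

theorem MZ.tail {Z : α → Set ℕ} (hZ : MZ Z) (blk : ℕ → ℕ) (b : ℕ) :
    MZ fun x => tail blk b (Z x) := fun n => (hZ n).and measurable_const

theorem MZ.image {Z : α → Set ℕ} (hZ : MZ Z) (blk : ℕ → ℕ) :
    MZ fun x => blk '' (Z x) := fun _ => Measurable.exists fun z => (hZ z).and measurable_const

theorem MZ.lab {Z : α → Set ℕ} (hZ : MZ Z) (blk : ℕ → ℕ) (j k a b : ℕ) :
    Measurable fun x => Lab blk j k a b (Z x) := by
  unfold Lab
  have h := hZ.image blk
  refine measurable_const.and (measurable_const.and (measurable_const.and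
    ((h k).and ((h a).and ((h b).and ?_)))))
  exact Measurable.forall fun n => (h n).imp measurable_const

theorem mz_el : MZ (fun x : Om => el x) := by
  intro n
  have h1 : Measurable fun x : Om => x.1 n := (measurable_pi_apply n).comp measurable_subtype_coe
  exact measurableSet_setOfPred.1 (measurableSet_eq_fun h1 measurable_const)

end MeasAux

open MeasAux

theorem measurable_Good (f : ℕ → (ℕ ≃. ℕ)) (c : ℕ → ℕ → ℕ → ℕ) (blk : ℕ → ℕ) (j : ℕ) :
    MeasurableSet {x : Om | Good f c blk j (el x)} := by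
  refine measurableSet_setOfPred.2 ?_
  unfold Good
  exact Measurable.exists fun k => Measurable.exists fun a => Measurable.exists fun b =>
    (mz_el.lab blk j k a b).and ((mz_el.tail blk b).cond f c j a b)

theorem measurable_F (f : ℕ → (ℕ ≃. ℕ)) (c : ℕ → ℕ → ℕ → ℕ) (blk : ℕ → ℕ) (j : ℕ) :
    MeasurableSet {p : Om × Om | F f c blk j (el p.1) (el p.2)} := by
  refine measurableSet_setOfPred.2 ?_
  have h1 : MZ (fun p : Om × Om => el p.1) := fun n => (mz_el n).comp measurable_fst
  have h2 : MZ (fun p : Om × Om => el p.2) := fun n => (mz_el n).comp measurable_snd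
  unfold F
  refine (h1.eq h2).or ?_
  exact Measurable.exists fun k => Measurable.exists fun a => Measurable.exists fun b =>
    (h1.lab blk j k a b).and ((h2.lab blk j k a b).and
      ((h1.tail blk b).conn (h2.tail blk b) f c j a b))

end Pool.Agent.W_MP_d5b253_lc
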