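import Pool.Agent.W_MP_d5b253_lc.Defs

set_option autoImplicit false

namespace Pool.Agent.W_MP_d5b253_lc

open Relation

/-- Words of bounded length with letters bounded by `j`. -/
def words (j L : ℕ) : Set (List (ℕ × Bool)) := {u | u.length ≤ L ∧ ∀ i ∈ u, i.1 ≤ j}

theorem finite_words (j L : ℕ) : (words j L).Finite := by
  induction L with
  | zero =>
    apply (Set.finite_singleton ([] : List (ℕ × Bool))).subset
    rintro u ⟨h1, _⟩
    simpa using h1
  | succ L ih =>
    have h1 : (Set.Iic j ×ˢ Set.univ : Set (ℕ × Bool)).Finite :=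
      (Set.finite_Iic j).prod Set.finite_univ
    apply ((Set.finite_singleton ([] : List (ℕ × Bool))).union (h1.image2 List.cons ih)).subset
    rintro u ⟨h2, h3⟩
    rcases u with _ | ⟨p, u⟩
    · left; rfl
    · right
      refine ⟨p, ?_, u, ?_, rfl⟩
      · exact ⟨h3 p List.mem_cons_self, trivial⟩
      · exact ⟨by simpa using h2, fun q hq => h3 q (List.mem_cons_of_mem _ hq)⟩

/-- The word of the letters `w t, w (t+1), ..., w (t+d-1)`. -/
def sub (w : ℕ → ℕ × Bool) : ℕ → ℕ → List (ℕ × Bool)
  | _, 0 => []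
  | t, d + 1 => w t :: sub w (t + 1) d

theorem length_sub (w : ℕ → ℕ × Bool) (t d : ℕ) : (sub w t d).length = d := by
  induction d generalizing t with
  | zero => rfl
  | succ d ih => rw [sub, List.length_cons, ih]

theorem mem_sub {w : ℕ → ℕ × Bool} {t d : ℕ} {i : ℕ × Bool} (h : i ∈ sub w t d) :
    ∃ s, t ≤ s ∧ s < t + d ∧ i = w s := by
  induction d generalizing t with
  | zero => simp [sub] at h
  | succ d ih =>
    rw [sub, List.mem_cons] at h
    rcases h with rfl | h
    · exact ⟨t, le_rfl, by omega, rfl⟩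
    · obtain ⟨s, h1, h2, h3⟩ := ih h
      exact ⟨s, by omega, by omega, h3⟩

section path

variable (f : ℕ → (ℕ ≃. ℕ)) (c : ℕ → ℕ → ℕ → ℕ) (j a b : ℕ)

/-- A path of length `n`. -/
def RPath (n : ℕ) (P : ℕ → Set ℕ) (w : ℕ → ℕ × Bool) : Prop :=
  ∀ t < n, (w t).1 ≤ j ∧ (∀ z ∈ P t, ∃ z', gen f (w t) z = some z') ∧
    P (t + 1) = {z' | ∃ z ∈ P t, gen f (w t) z = some z'} ∧
    Cond f c j a b (P t) ∧ Cond f c j a b (P (t + 1))

variable {f c j a b}

theorem exists_rpath {Z Z' : Set ℕ} (h : ReflTransGen (Step f c j a b) Z Z') :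
    ∃ n P w, P 0 = Z ∧ P n = Z' ∧ RPath f c j a b n P w := by
  induction h with
  | refl => exact ⟨0, fun _ => Z, fun _ => (0, true), rfl, rfl, fun t ht => absurd ht (by omega)⟩
  | @tail Z' Z'' _ hs ih =>
    obtain ⟨n, P, w, h0, hn, hp⟩ := ih
    obtain ⟨i, h1, h2, h3, h4, h5⟩ := hs
    refine ⟨n + 1, fun t => if t ≤ n then P t else Z'', fun t => if t < n then w t else i,
      by simp [h0], by simp, ?_⟩
    intro t ht
    rcases Nat.lt_or_ge t n with h | h
    · have e1 : t ≤ n := by omega
      have e2 : t + 1 ≤ n := by omega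
      simp only [e1, e2, h, if_true]
      exact hp t h
    · have e : t = n := by omega
      subst e
      simp only [le_refl, if_true, lt_irrefl, if_false, show ¬ (t + 1 ≤ t) by omega]
      rw [hn]
      exact ⟨h1, h2, h3, h4, h5⟩

theorem rpath_image {n : ℕ} {P : ℕ → Set ℕ} {w : ℕ → ℕ × Bool} (h : RPath f c j a b n P w)
    (t d : ℕ) (htd : t + d ≤ n) :
    P (t + d) = {z' | ∃ z ∈ P t, act f (sub w t d) z = some z'} := by
  induction d generalizing t with
  | zero =>
    ext z'
    simp [sub, act]
  | succ d ih =>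
    have h1 := ih (t + 1) (by omega)
    have h2 := (h t (by omega)).2.2.1
    rw [show t + (d + 1) = t + 1 + d by omega, h1, h2]
    ext z'
    simp only [Set.mem_ofPred_eq, sub, act, Option.bind_eq_some_iff]
    constructor
    · rintro ⟨z, ⟨y, hy, hyz⟩, hz⟩
      exact ⟨y, hy, z, hyz, hz⟩
    · rintro ⟨y, hy, z, hyz, hz⟩
      exact ⟨z, ⟨y, hy, hyz⟩, hz⟩

theorem rpath_follow {n : ℕ} {p : ℕ → ℕ} {w : ℕ → ℕ × Bool}
    (h : ∀ t < n, gen f (w t) (p t) = some (p (t + 1))) (t d : ℕ) (htd : t + d ≤ n) :
    act f (sub w t d) (p t) = some (p (t + d)) := by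
  induction d generalizing t with
  | zero => rfl
  | succ d ih =>
    rw [sub, act, h t (by omega), Option.bind_some, ih (t + 1) (by omega)]
    congr 2; omega

theorem short_rpath (hc : NoAgree f c) (hab : a < b) {Z Z' : Set ℕ} (hZ : Z.Nonempty)
    (h : ReflTransGen (Step f c j a b) Z Z') :
    ∃ u ∈ words j (b + 3), Z' = {z' | ∃ z ∈ Z, act f u z = some z'} := by
  classical
  have hex := exists_rpath h
  set n := Nat.find hex with hn
  obtain ⟨P, w, h0, h1, hp⟩ : ∃ P w, P 0 = Z ∧ P n = Z' ∧ RPath f c j a b n P w :=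
    Nat.find_spec hex
  have hmin : ∀ m < n, ¬ ∃ P w, P 0 = Z ∧ P m = Z' ∧ RPath f c j a b m P w :=
    fun m hm => Nat.find_min hex hm
  -- the sets are distinct
  have hdist : ∀ t t', t < t' → t' ≤ n → P t ≠ P t' := by
    intro t t' htt' ht' he
    apply hmin (n - (t' - t)) (by omega)
    refine ⟨fun s => if s ≤ t then P s else P (s + (t' - t)),
      fun s => if s < t then w s else w (s + (t' - t)), by simp [h0], ?_, ?_⟩
    · by_cases hc : n - (t' - t) ≤ t
      · have e1 : t' = n := by omega
        simp only [hc, if_true]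
        have e2 : n - (t' - t) = t := by omega
        rw [e2, he, e1, h1]
      · simp only [hc, if_false]
        rw [show n - (t' - t) + (t' - t) = n by omega, h1]
    · intro s hs
      rcases Nat.lt_trichotomy s t with h | h | h
      · simp only [show s ≤ t by omega, show s + 1 ≤ t by omega, h, if_true]
        exact hp s (by omega)
      · subst h
        simp only [le_refl, if_true, show ¬ (s + 1 ≤ s) by omega, if_false, lt_irrefl]
        have := hp t' (by omega)
        rw [← he] at this
        rw [show s + (t' - s) = t' by omega, show s + 1 + (t' - s) = t' + 1 by omega]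
        exact this
      · simp only [show ¬ s ≤ t by omega, show ¬ s + 1 ≤ t by omega, show ¬ s < t by omega,
          if_false]
        have := hp (s + (t' - t)) (by omega)
        rw [show s + 1 + (t' - t) = s + (t' - t) + 1 by omega]
        exact this
  by_cases hlen : n < b + 3
  · refine ⟨sub w 0 n, ⟨by rw [length_sub]; omega, ?_⟩, ?_⟩
    · intro i hi
      obtain ⟨s, _, hs, rfl⟩ := mem_sub hi
      exact (hp s (by omega)).1
    · rw [← h1, ← h0]
      have := rpath_image hp 0 n (by omega)
      rw [zero_add] at this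
      exact this
  · exfalso
    push Not at hlen
    obtain ⟨z0, hz0⟩ := hZ
    let p : ℕ → ℕ := fun t => Nat.rec z0 (fun s x => (gen f (w s) x).getD 0) t
    have hps : ∀ t, p (t + 1) = (gen f (w t) (p t)).getD 0 := fun t => rfl
    have hpP : ∀ t, t ≤ n → p t ∈ P t := by
      intro t
      induction t with
      | zero => intro _; rw [h0]; exact hz0
      | succ t ih =>
        intro ht
        obtain ⟨z', hz'⟩ := (hp t (by omega)).2.1 (p t) (ih (by omega))
        rw [(hp t (by omega)).2.2.1, hps, hz']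
        exact ⟨p t, ih (by omega), hz'⟩
    have hgen : ∀ t < n, gen f (w t) (p t) = some (p (t + 1)) := by
      intro t ht
      obtain ⟨z', hz'⟩ := (hp t ht).2.1 (p t) (hpP t (by omega))
      rw [hps, hz']; rfl
    have hinj : ∀ t t', t < t' → t' ≤ b + 3 → p t ≠ p t' := by
      intro t t' htt' ht' he
      have h2 := rpath_follow hgen t (t' - t) (by omega)
      rw [show t + (t' - t) = t' by omega, ← he] at h2
      have h3 := (hp t (by omega)).2.2.2.1.2 (sub w t (t' - t)) (by rw [length_sub]; omega) (by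
        intro i hi
        obtain ⟨s, _, hs, rfl⟩ := mem_sub hi
        exact (hp s (by omega)).1)
      rcases h3 with h3 | h3
      · apply hdist t t' htt' (by omega)
        have h4 := rpath_image hp t (t' - t) (by omega)
        rw [show t + (t' - t) = t' by omega] at h4
        rw [h4]
        ext z
        constructor
        · intro hz; exact ⟨z, hz, h3 z hz⟩
        · rintro ⟨y, hy, hyz⟩
          rw [h3 y hy, Option.some_inj] at hyz
          rw [← hyz]; exact hy
      · exact h3 (p t) (hpP t (by omega)) h2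
    refine hc j a b hab p w ?_ ?_ ?_
    · intro t ht
      exact ⟨(hp t (by omega)).1, hgen t (by omega)⟩
    · intro t t' ht ht' he
      rcases Nat.lt_trichotomy t t' with h | h | h
      · exact absurd he (hinj t t' h ht')
      · exact h
      · exact absurd he.symm (hinj t' t h ht)
    · intro t ht
      rcases Nat.lt_or_ge t n with h | h
      · exact (hp t h).2.2.2.1.1 _ (hpP t (by omega))
      · have h2 := (hp (t - 1) (by omega)).2.2.2.2.1 (p t)
        rw [show t - 1 + 1 = t by omega] at h2
        exact h2 (hpP t (by omega))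

end path

theorem reach_finite {f : ℕ → (ℕ ≃. ℕ)} {c : ℕ → ℕ → ℕ → ℕ} (hc : NoAgree f c)
    {j a b : ℕ} (hab : a < b) {Z : Set ℕ} (hZ : Z.Nonempty) :
    {Z' | Conn f c j a b Z Z'}.Finite := by
  apply ((finite_words j (b + 3)).image
    (fun u => {z' | ∃ z ∈ Z, act f u z = some z'})).subset
  rintro Z' ⟨_, h⟩
  obtain ⟨u, hu, hZ'⟩ := short_rpath hc hab hZ h
  exact ⟨u, hu, hZ'.symm⟩

end Pool.Agent.W_MP_d5b253_lc
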