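import Pool.Agent.W_MP_d5b253_lc.Col
import Pool.Agent.W_MP_d5b253_lc.Reach
import Pool.Agent.W_MP_d5b253_lc.Meas
import Pool.Agent.W_MP_d5b253_lc.Fus
import Pool.Agent.W_MP_d5b253_lc.Lev

set_option autoImplicit false

namespace Pool.Agent.W_MP_d5b253_lc

open Set Filter

theorem lab_unique {blk : ℕ → ℕ} {j k a b k' a' b' : ℕ} {x : Set ℕ}
    (h : Lab blk j k a b x) (h' : Lab blk j k' a' b' x) : k = k' ∧ a = a' ∧ b = b' := by
  obtain ⟨h1, h2, h3, h4, h5, h6, h7⟩ := h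
  obtain ⟨g1, g2, g3, g4, g5, g6, g7⟩ := h'
  rcases le_total b b' with hb | hb
  · have e1 := g7 k h4 h1 (by omega)
    have e2 := g7 a h5 (by omega) (by omega)
    have e3 := g7 b h6 (by omega) hb
    omega
  · have e1 := h7 k' g4 g1 (by omega)
    have e2 := h7 a' g5 (by omega) (by omega)
    have e3 := h7 b' g6 (by omega) hb
    omega

theorem step_symm {f : ℕ → (ℕ ≃. ℕ)} {c : ℕ → ℕ → ℕ → ℕ} {j a b : ℕ} {Z Z' : Set ℕ}
    (h : Step f c j a b Z Z') : Step f c j a b Z' Z := by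
  obtain ⟨i, hi, hdef, rfl, hc, hc'⟩ := h
  refine ⟨ginv i, hi, ?_, ?_, hc', hc⟩
  · rintro z' ⟨z, hz, hzz⟩
    exact ⟨z, (gen_inv f i z z').1 hzz⟩
  · ext z
    constructor
    · intro hz
      obtain ⟨z', hz'⟩ := hdef z hz
      exact ⟨z', ⟨z, hz, hz'⟩, (gen_inv f i z z').1 hz'⟩
    · rintro ⟨z', ⟨z0, hz0, h0⟩, h1⟩
      have h2 := (gen_inv f i z0 z').1 h0
      rw [h1] at h2
      have : z = z0 := by simpa using h2
      rw [this]
      exact hz0

theorem conn_cond {f : ℕ → (ℕ ≃. ℕ)} {c : ℕ → ℕ → ℕ → ℕ} {j a b : ℕ} {Z Z' : Set ℕ}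
    (h : Conn f c j a b Z Z') : Cond f c j a b Z' := by
  obtain ⟨h1, h2⟩ := h
  induction h2 with
  | refl => exact h1
  | tail _ hs _ =>
    obtain ⟨_, _, _, _, _, hc'⟩ := hs
    exact hc'

theorem conn_symm {f : ℕ → (ℕ ≃. ℕ)} {c : ℕ → ℕ → ℕ → ℕ} {j a b : ℕ} {Z Z' : Set ℕ}
    (h : Conn f c j a b Z Z') : Conn f c j a b Z' Z := by
  refine ⟨conn_cond h, ?_⟩
  obtain ⟨h1, h2⟩ := h
  clear h1
  induction h2 with
  | refl => exact Relation.ReflTransGen.refl
  | tail _ hs ih => exact Relation.ReflTransGen.head (step_symm hs) ih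

theorem conn_trans {f : ℕ → (ℕ ≃. ℕ)} {c : ℕ → ℕ → ℕ → ℕ} {j a b : ℕ} {Z Z' Z'' : Set ℕ}
    (h : Conn f c j a b Z Z') (h' : Conn f c j a b Z' Z'') : Conn f c j a b Z Z'' :=
  ⟨h.1, h.2.trans h'.2⟩

theorem F_refl (f : ℕ → (ℕ ≃. ℕ)) (c : ℕ → ℕ → ℕ → ℕ) (blk : ℕ → ℕ) (j : ℕ) (x : Set ℕ) :
    F f c blk j x x := Or.inl rfl

theorem F_symm {f : ℕ → (ℕ ≃. ℕ)} {c : ℕ → ℕ → ℕ → ℕ} {blk : ℕ → ℕ} {j : ℕ} {x y : Set ℕ}
    (h : F f c blk j x y) : F f c blk j y x := by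
  rcases h with rfl | ⟨k, a, b, h1, h2, h3⟩
  · exact Or.inl rfl
  · exact Or.inr ⟨k, a, b, h2, h1, conn_symm h3⟩

theorem F_trans {f : ℕ → (ℕ ≃. ℕ)} {c : ℕ → ℕ → ℕ → ℕ} {blk : ℕ → ℕ} {j : ℕ} {x y z : Set ℕ}
    (h : F f c blk j x y) (h' : F f c blk j y z) : F f c blk j x z := by
  rcases h with rfl | ⟨k, a, b, h1, h2, h3⟩
  · exact h'
  rcases h' with rfl | ⟨k', a', b', g1, g2, g3⟩
  · exact Or.inr ⟨k, a, b, h1, h2, h3⟩
  obtain ⟨rfl, rfl, rfl⟩ := lab_unique h2 g1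
  exact Or.inr ⟨k, a, b, h1, g2, conn_trans h3 g3⟩

theorem F_finite {f : ℕ → (ℕ ≃. ℕ)} {c : ℕ → ℕ → ℕ → ℕ} (hc : NoAgree f c) {blk : ℕ → ℕ}
    (hblk : ∀ b, {z | blk z ≤ b}.Finite) (j : ℕ) {x : Set ℕ} (hx : x.Infinite) :
    {y | F f c blk j x y}.Finite := by
  by_cases hL : ∃ k a b, Lab blk j k a b x
  · obtain ⟨k, a, b, hL⟩ := hL
    have hab : a < b := hL.2.2.1
    have hne : (tail blk b x).Nonempty := by
      by_contra hcon
      rw [Set.not_nonempty_iff_eq_empty] at hcon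
      apply hx
      refine (hblk b).subset ?_
      intro z hz
      by_contra h
      have : z ∈ tail blk b x := ⟨hz, not_le.1 h⟩
      rw [hcon] at this
      exact this
    have h1 := reach_finite (f := f) (c := c) hc (j := j) hab hne
    have h2 : {s | s ⊆ {z | blk z ≤ b}}.Finite := (hblk b).finite_subsets
    have h3 : ((fun p : Set ℕ × Set ℕ => p.1 ∪ p.2) ''
        ({Z' | Conn f c j a b (tail blk b x) Z'} ×ˢ {s | s ⊆ {z | blk z ≤ b}})).Finite :=
      (h1.prod h2).image _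
    refine (h3.union (Set.finite_singleton x)).subset ?_
    rintro y (rfl | ⟨k', a', b', g1, g2, g3⟩)
    · exact Or.inr rfl
    · obtain ⟨rfl, rfl, rfl⟩ := lab_unique hL g1
      left
      refine ⟨(tail blk b y, {z | z ∈ y ∧ blk z ≤ b}), ⟨g3, ?_⟩, ?_⟩
      · exact fun z hz => hz.2
      · ext z
        simp only [Set.mem_union, tail, Set.mem_ofPred_eq]
        constructor
        · rintro (h | h)
          · exact h.1
          · exact h.1
        · intro h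
          rcases lt_or_ge b (blk z) with h' | h'
          · exact Or.inl ⟨h, h'⟩
          · exact Or.inr ⟨h, h'⟩
  · refine (Set.finite_singleton x).subset ?_
    rintro y (rfl | ⟨k', a', b', g1, g2, g3⟩)
    · rfl
    · exact absurd ⟨k', a', b', g1⟩ hL

theorem exists_bound {blk : ℕ → ℕ} {S : Set ℕ} (hS : S.Finite) : ∃ N, ∀ z ∈ S, blk z < N := by
  obtain ⟨N, hN⟩ := (hS.image blk).bddAbove
  exact ⟨N + 1, fun z hz => Nat.lt_succ_of_le (hN (Set.mem_image_of_mem _ hz))⟩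

theorem one_step {f : ℕ → (ℕ ≃. ℕ)} {c : ℕ → ℕ → ℕ → ℕ} {blk : ℕ → ℕ}
    {n : ℕ} {x y : Set ℕ} (hxy : AlmostMaps (f n) x y)
    (hpres : {z | z ∈ x ∧ ∃ z', f n z = some z' ∧ blk z' ≠ blk z}.Finite)
    (hx : ∀ᶠ j in atTop, Good f c blk j x) (hy : ∀ᶠ j in atTop, Good f c blk j y) :
    ∀ᶠ j in atTop, F f c blk j x y := by
  obtain ⟨hS1, hS3⟩ := hxy
  have hS4 : {z' | ∃ z ∈ {z | z ∈ x ∧ ∃ z', f n z = some z' ∧ blk z' ≠ blk z},
      f n z = some z'}.Finite := by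
    refine (hpres.image (fun z => (f n z).getD 0)).subset ?_
    rintro z' ⟨z, hz, hzz⟩
    exact ⟨z, hz, by simp [hzz]⟩
  obtain ⟨N1, hN1⟩ := exists_bound (blk := blk) hS1
  obtain ⟨N2, hN2⟩ := exists_bound (blk := blk) hpres
  obtain ⟨N3, hN3⟩ := exists_bound (blk := blk) hS3
  obtain ⟨N4, hN4⟩ := exists_bound (blk := blk) hS4
  set N := N1 + N2 + N3 + N4 with hN
  have P1 : ∀ z ∈ x, N ≤ blk z → ∃ z' ∈ y, f n z = some z' ∧ blk z' = blk z := by
    intro z hz hzN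
    have h1 : ∃ z' ∈ y, f n z = some z' := by
      by_contra hcon
      have := hN1 z ⟨hz, fun z' hz' h => hcon ⟨z', hz', h⟩⟩
      omega
    obtain ⟨z', hz', hzz⟩ := h1
    refine ⟨z', hz', hzz, ?_⟩
    by_contra hne
    have := hN2 z ⟨hz, z', hzz, hne⟩
    omega
  have P2 : ∀ z' ∈ y, N ≤ blk z' → ∃ z ∈ x, f n z = some z' ∧ blk z = blk z' := by
    intro z' hz' hzN
    have h1 : ∃ z ∈ x, f n z = some z' := by
      by_contra hcon
      have := hN3 z' ⟨hz', fun z hz h => hcon ⟨z, hz, h⟩⟩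
      omega
    obtain ⟨z, hz, hzz⟩ := h1
    refine ⟨z, hz, hzz, ?_⟩
    by_contra hne
    have := hN4 z' ⟨z, ⟨hz, z', hzz, fun h => hne h.symm⟩, hzz⟩
    omega
  filter_upwards [hx, hy, eventually_ge_atTop (N + n)] with j hjx hjy hj
  obtain ⟨k, a, b, hLx, hCx⟩ := hjx
  obtain ⟨k', a', b', hLy, hCy⟩ := hjy
  have hlab : Lab blk j k a b y := by
    obtain ⟨h1, h2, h3, h4, h5, h6, h7⟩ := hLx
    have tr : ∀ m, N ≤ m → m ∈ blk '' x → m ∈ blk '' y := by
      rintro m hm ⟨z, hz, rfl⟩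
      obtain ⟨z', hz', _, he⟩ := P1 z hz hm
      exact ⟨z', hz', he⟩
    have tr' : ∀ m, N ≤ m → m ∈ blk '' y → m ∈ blk '' x := by
      rintro m hm ⟨z, hz, rfl⟩
      obtain ⟨z', hz', _, he⟩ := P2 z hz hm
      exact ⟨z', hz', he⟩
    refine ⟨h1, h2, h3, tr k (by omega) h4, tr a (by omega) h5, tr b (by omega) h6, ?_⟩
    intro m hm hjm hmb
    exact h7 m (tr' m (by omega) hm) hjm hmb
  obtain ⟨rfl, rfl, rfl⟩ := lab_unique hlab hLy
  have hjb : j ≤ b := by
    obtain ⟨h1, h2, h3, _⟩ := hLx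
    omega
  right
  refine ⟨k, a, b, hLx, hLy, hCx, Relation.ReflTransGen.single ?_⟩
  refine ⟨(n, true), by simp; omega, ?_, ?_, hCx, hCy⟩
  · rintro z ⟨hz, hzb⟩
    obtain ⟨z', _, hzz, _⟩ := P1 z hz (by omega)
    exact ⟨z', by simpa [gen] using hzz⟩
  · ext z'
    constructor
    · rintro ⟨hz', hzb⟩
      obtain ⟨z, hz, hzz, he⟩ := P2 z' hz' (by omega)
      exact ⟨z, ⟨hz, by omega⟩, by simpa [gen] using hzz⟩
    · rintro ⟨z, ⟨hz, hzb⟩, hzz⟩
      have hzz' : f n z = some z' := by simpa [gen] using hzz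
      obtain ⟨z'', hz'', h1, he⟩ := P1 z hz (by omega)
      rw [hzz'] at h1
      obtain rfl : z' = z'' := by simpa using h1
      exact ⟨hz'', by omega⟩

theorem el_inj {x y : Om} (h : el x = el y) : x = y := by
  apply Subtype.ext
  funext n
  have h1 : (x.1 n = true) ↔ (y.1 n = true) := by
    have : n ∈ el x ↔ n ∈ el y := by rw [h]
    exact this
  cases hx : x.1 n <;> cases hy : y.1 n <;> simp_all

/-- The combined finite relations. -/
def Fc (f : ℕ → (ℕ ≃. ℕ)) (c : ℕ → ℕ → ℕ → ℕ) (blk : Bool → ℕ → ℕ) (T : Bool → Set ℕ → Prop)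
    (j : ℕ) (x y : Set ℕ) : Prop :=
  (T false x ∧ T false y ∧ F f c (blk false) j x y) ∨
    (¬ T false x ∧ ¬ T false y ∧ F f c (blk true) j x y)

theorem partialInjections_main (f : ℕ → (ℕ ≃. ℕ)) (E : Om → Om → Prop) (hE : Equivalence E)
    (hEm : MeasurableSet {p : Om × Om | E p.1 p.2})
    (hEf : ∀ x y, E x y → ∃ n, AlmostMaps (f n) (el x) (el y)) :
    ∃ B : Set Om, MeasurableSet B ∧ RamseyConull B ∧
      ∃ R : ℕ → Om → Om → Prop,
        (∀ n, Equivalence (R n)) ∧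
        (∀ n, MeasurableSet {p : Om × Om | R n p.1 p.2}) ∧
        (∀ n x, {y | R n x y}.Finite) ∧
        (∀ n x y, R n x y → R (n + 1) x y) ∧
        (∀ x ∈ B, ∀ y ∈ B, (E x y ↔ ∃ n, R n x y)) := by
  obtain ⟨c, hcq, hc⟩ := exists_colouring f
  obtain ⟨blk, T, hfib, hinv, hpres, hTm, hT⟩ := exists_types f
  have hTm' : MeasurableSet {x : Om | ¬ T false (el x)} := (hTm false).compl
  -- good sets
  have hGm : ∀ e, MeasurableSet {x : Om | ∀ᶠ j in atTop, Good f c (blk e) j (el x)} := by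
    intro e
    have : {x : Om | ∀ᶠ j in atTop, Good f c (blk e) j (el x)} =
        ⋃ N : ℕ, ⋂ j : ℕ, ⋂ _ : N ≤ j, {x : Om | Good f c (blk e) j (el x)} := by
      ext x
      simp only [Set.mem_ofPred_eq, eventually_atTop, Set.mem_iUnion, Set.mem_iInter]
    rw [this]
    refine MeasurableSet.iUnion fun N => MeasurableSet.iInter fun j =>
      MeasurableSet.iInter fun _ => measurable_Good f c (blk e) j
  refine ⟨{x : Om | (T false (el x) ∧ ∀ᶠ j in atTop, Good f c (blk false) j (el x)) ∨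
      (¬ T false (el x) ∧ T true (el x) ∧ ∀ᶠ j in atTop, Good f c (blk true) j (el x))},
    ?_, ?_, fun n x y => E x y ∧ ∀ j, n ≤ j → Fc f c blk T j (el x) (el y), ?_, ?_, ?_, ?_, ?_⟩
  · exact ((hTm false).inter (hGm false)).union (hTm'.inter ((hTm true).inter (hGm true)))
  · intro s A hA hAs
    obtain ⟨D1, hD1A, hD1, e, he⟩ := hT s A hA
    obtain ⟨D2, hD2, hD2i, hg2⟩ := exists_good_subset f c (fun j => 4 * j + 5) hcq (blk false)
      (hfib false) s D1 hD1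
    obtain ⟨D3, hD3, hD3i, hg3⟩ := exists_good_subset f c (fun j => 4 * j + 5) hcq (blk true)
      (hfib true) s D2 hD2i
    refine ⟨D3, fun z hz => hD1A (hD2 (hD3 hz)), hD3i, ?_⟩
    rintro x ⟨_, hx⟩
    have hx1 : el x ⊆ ↑s ∪ D1 := fun z hz => (hx hz).imp id (fun h => hD2 (hD3 h))
    have hx2 : el x ⊆ ↑s ∪ D2 := fun z hz => (hx hz).imp id (fun h => hD3 h)
    have h0 := hg2 (el x) x.2 hx2
    have h1 := hg3 (el x) x.2 hx
    have hTe := he (el x) hx1
    by_cases hT0 : T false (el x)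
    · exact Or.inl ⟨hT0, h0⟩
    · right
      refine ⟨hT0, ?_, h1⟩
      cases e with
      | false => exact absurd hTe hT0
      | true => exact hTe
  · intro n
    refine ⟨?_, ?_, ?_⟩
    · intro x
      refine ⟨hE.refl x, fun j _ => ?_⟩
      by_cases h : T false (el x)
      · exact Or.inl ⟨h, h, F_refl _ _ _ _ _⟩
      · exact Or.inr ⟨h, h, F_refl _ _ _ _ _⟩
    · rintro x y ⟨h1, h2⟩
      refine ⟨hE.symm h1, fun j hj => ?_⟩
      rcases h2 j hj with ⟨a1, a2, a3⟩ | ⟨a1, a2, a3⟩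
      · exact Or.inl ⟨a2, a1, F_symm a3⟩
      · exact Or.inr ⟨a2, a1, F_symm a3⟩
    · rintro x y z ⟨h1, h2⟩ ⟨g1, g2⟩
      refine ⟨hE.trans h1 g1, fun j hj => ?_⟩
      rcases h2 j hj with ⟨a1, a2, a3⟩ | ⟨a1, a2, a3⟩ <;>
        rcases g2 j hj with ⟨b1, b2, b3⟩ | ⟨b1, b2, b3⟩
      · exact Or.inl ⟨a1, b2, F_trans a3 b3⟩
      · exact absurd a2 b1
      · exact absurd b1 a2
      · exact Or.inr ⟨a1, b2, F_trans a3 b3⟩
  · intro n
    have hFm : ∀ j, MeasurableSet {p : Om × Om | Fc f c blk T j (el p.1) (el p.2)} := by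
      intro j
      have e1 : MeasurableSet {p : Om × Om | T false (el p.1)} := measurable_fst (hTm false)
      have e2 : MeasurableSet {p : Om × Om | T false (el p.2)} := measurable_snd (hTm false)
      have e3 : MeasurableSet {p : Om × Om | ¬ T false (el p.1)} := e1.compl
      have e4 : MeasurableSet {p : Om × Om | ¬ T false (el p.2)} := e2.compl
      exact (e1.inter (e2.inter (measurable_F f c (blk false) j))).union
        (e3.inter (e4.inter (measurable_F f c (blk true) j)))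
    have : {p : Om × Om | E p.1 p.2 ∧ ∀ j, n ≤ j → Fc f c blk T j (el p.1) (el p.2)} =
        {p : Om × Om | E p.1 p.2} ∩
          ⋂ j : ℕ, ⋂ _ : n ≤ j, {p : Om × Om | Fc f c blk T j (el p.1) (el p.2)} := by
      ext p
      simp only [Set.mem_ofPred_eq, Set.mem_inter_iff, Set.mem_iInter]
    rw [this]
    exact hEm.inter (MeasurableSet.iInter fun j => MeasurableSet.iInter fun _ => hFm j)
  · intro n x
    have h0 := F_finite (f := f) (c := c) hc (hfib false) n x.2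
    have h1 := F_finite (f := f) (c := c) hc (hfib true) n x.2
    refine ((h0.union h1).preimage (f := el) (fun a _ b _ h => el_inj h)).subset ?_
    rintro y ⟨_, hy⟩
    rcases hy n le_rfl with ⟨_, _, h⟩ | ⟨_, _, h⟩
    · exact Or.inl h
    · exact Or.inr h
  · rintro n x y ⟨h1, h2⟩
    exact ⟨h1, fun j hj => h2 j (by omega)⟩
  · intro x hx y hy
    constructor
    · intro hxy
      obtain ⟨n, hn⟩ := hEf x y hxy
      rcases hx with ⟨hx1, hx2⟩ | ⟨hx1, hx2, hx3⟩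
      · have hy1 : T false (el y) := (hinv false _ _ n hn).1 hx1
        have hy2 : ∀ᶠ j in atTop, Good f c (blk false) j (el y) := by
          rcases hy with ⟨_, h⟩ | ⟨h, _⟩
          · exact h
          · exact absurd hy1 h
        have := one_step hn (hpres false (el x) n hx1) hx2 hy2
        obtain ⟨N, hN⟩ := eventually_atTop.1 this
        exact ⟨N, hxy, fun j hj => Or.inl ⟨hx1, hy1, hN j hj⟩⟩
      · have hy1 : ¬ T false (el y) := fun h => hx1 ((hinv false _ _ n hn).2 h)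
        have hy2 : ∀ᶠ j in atTop, Good f c (blk true) j (el y) := by
          rcases hy with ⟨h, _⟩ | ⟨_, _, h⟩
          · exact absurd h hy1
          · exact h
        have := one_step hn (hpres true (el x) n hx2) hx3 hy2
        obtain ⟨N, hN⟩ := eventually_atTop.1 this
        exact ⟨N, hxy, fun j hj => Or.inr ⟨hx1, hy1, hN j hj⟩⟩
    · rintro ⟨n, h, _⟩
      exact h

end Pool.Agent.W_MP_d5b253_lc
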