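import Mathlib

/-!
# Avoiding patterns on `ℕ` (counting argument in place of the local lemma)
-/

set_option autoImplicit false

namespace Pool.Agent.W_MP_d5b253_lc.Avoid

open Set

/-- The domain of a pattern. -/
def dom (G : Finset (ℕ × ℕ)) : Finset ℕ := G.image Prod.fst

/-- Colourings with `q` colours supported in `V` which avoid all patterns living inside `V`. -/
def Val (Gs : Set (Finset (ℕ × ℕ))) (q : ℕ) (V : Finset ℕ) : Set (ℕ → ℕ) :=
  {c | (∀ z, z ∉ V → c z = 0) ∧ (∀ z, c z < q) ∧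
    ∀ G ∈ Gs, dom G ⊆ V → ∃ p ∈ G, c p.1 ≠ p.2}

theorem finite_supp (q : ℕ) (V : Finset ℕ) :
    {c : ℕ → ℕ | (∀ z, z ∉ V → c z = 0) ∧ (∀ z, c z < q)}.Finite := by
  classical
  refine Set.Finite.subset (Set.finite_range
    (fun h : V → Fin q => fun z => if hz : z ∈ V then ((h ⟨z, hz⟩ : Fin q) : ℕ) else 0)) ?_
  rintro c ⟨h1, h2⟩
  refine ⟨fun z => ⟨c z.1, h2 z.1⟩, ?_⟩
  funext z
  by_cases hz : z ∈ V
  · simp [hz]
  · simp [hz, h1 z hz]

theorem finite_Val (Gs : Set (Finset (ℕ × ℕ))) (q : ℕ) (V : Finset ℕ) : (Val Gs q V).Finite :=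
  (finite_supp q V).subset (fun _ hc => ⟨hc.1, hc.2.1⟩)

/-- Number of valid colourings. -/
noncomputable def N (Gs : Set (Finset (ℕ × ℕ))) (q : ℕ) (V : Finset ℕ) : ℕ := (Val Gs q V).ncard

theorem N_chain (Gs : Set (Finset (ℕ × ℕ))) (q β n : ℕ)
    (ih : ∀ W : Finset ℕ, W.card < n → ∀ v, v ∉ W → β * N Gs q W ≤ N Gs q (insert v W))
    (U : Finset ℕ) : ∀ T : Finset ℕ, Disjoint U T → (U ∪ T).card ≤ n →
      β ^ T.card * N Gs q U ≤ N Gs q (U ∪ T) := by
  classical
  intro T
  induction T using Finset.induction_on with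
  | empty => intro _ _; simp
  | insert a T ha IH =>
    intro hd hn
    have hd' : Disjoint U T := by
      refine Finset.disjoint_of_subset_right (Finset.subset_insert a T) hd
    have haU : a ∉ U := by
      intro h
      exact (Finset.disjoint_left.1 hd h) (Finset.mem_insert_self a T)
    have ha' : a ∉ U ∪ T := by
      simp [haU, ha]
    have hun : U ∪ insert a T = insert a (U ∪ T) := by
      simp [Finset.union_insert]
    rw [hun] at hn ⊢
    rw [Finset.card_insert_of_notMem ha'] at hn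
    have h1 := IH hd' (by omega)
    have h2 := ih (U ∪ T) (by omega) a ha'
    rw [Finset.card_insert_of_notMem ha]
    calc β ^ (T.card + 1) * N Gs q U = β * (β ^ T.card * N Gs q U) := by ring
      _ ≤ β * N Gs q (U ∪ T) := Nat.mul_le_mul_left _ h1
      _ ≤ _ := h2

theorem N_step (Gs : Set (Finset (ℕ × ℕ))) (g β : ℕ) (hβ : 0 < β)
    (hcard : ∀ G ∈ Gs, (dom G).card = g + 1)
    (hfin : ∀ v, {G | G ∈ Gs ∧ v ∈ dom G}.Finite)
    (hcnt : ∀ v, {G | G ∈ Gs ∧ v ∈ dom G}.ncard ≤ β ^ g) :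
    ∀ n, ∀ V : Finset ℕ, V.card = n → ∀ v, v ∉ V →
      β * N Gs (β + 1) V ≤ N Gs (β + 1) (insert v V) := by
  classical
  intro n
  induction n using Nat.strong_induction_on with
  | _ n IH =>
  intro V hV v hv
  have ih : ∀ W : Finset ℕ, W.card < n → ∀ v, v ∉ W →
      β * N Gs (β + 1) W ≤ N Gs (β + 1) (insert v W) :=
    fun W hW => IH W.card hW W rfl
  set q := β + 1 with hq
  set V' := insert v V with hV'
  -- extensions
  set Ext : Set (ℕ → ℕ) :=
    (fun p : (ℕ → ℕ) × ℕ => Function.update p.1 v p.2) '' (Val Gs q V ×ˢ Set.Iio q) with hExt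
  have hExtcard : Ext.ncard = N Gs q V * q := by
    rw [hExt, Set.InjOn.ncard_image, Set.ncard_prod]
    · congr 1
      rw [Set.ncard_eq_toFinset_card']
      simp
    · rintro ⟨c, k⟩ ⟨hc, _⟩ ⟨c', k'⟩ ⟨hc', _⟩ h
      simp only at h hc hc'
      have hk : k = k' := by
        have := congrFun h v
        simpa using this
      have hcc : c = c' := by
        funext z
        by_cases hz : z = v
        · subst hz
          rw [hc.1 z hv, hc'.1 z hv]
        · have := congrFun h z
          simpa [Function.update_of_ne hz] using this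
      rw [hk, hcc]
  -- the relevant patterns
  have hSfin : {G | G ∈ Gs ∧ v ∈ dom G ∧ dom G ⊆ V'}.Finite :=
    (hfin v).subset (fun G hG => ⟨hG.1, hG.2.1⟩)
  set S : Finset (Finset (ℕ × ℕ)) := hSfin.toFinset with hS
  have hScard : S.card ≤ β ^ g := by
    rw [hS, ← Set.ncard_eq_toFinset_card _ hSfin]
    have hsub : {G | G ∈ Gs ∧ v ∈ dom G ∧ dom G ⊆ V'} ⊆ {G | G ∈ Gs ∧ v ∈ dom G} :=
      fun G hG => ⟨hG.1, hG.2.1⟩
    exact le_trans (Set.ncard_le_ncard hsub (hfin v)) (hcnt v)
  have hExtfin : Ext.Finite := by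
    refine Set.Finite.image _ ?_
    exact (finite_Val Gs q V).prod (Set.finite_Iio q)
  have hcover : Ext ⊆ Val Gs q V' ∪ ⋃ G ∈ S, {c | c ∈ Ext ∧ ∀ p ∈ G, c p.1 = p.2} := by
    rintro c hc
    by_cases hcV : c ∈ Val Gs q V'
    · exact Or.inl hcV
    right
    have hc0 := hc
    obtain ⟨⟨c0, k⟩, ⟨hc0V, hk⟩, rfl⟩ := hc0
    simp only at hc0V hk hcV hc ⊢
    have h1 : ∀ z, z ∉ V' → Function.update c0 v k z = 0 := by
      intro z hz
      have hzv : z ≠ v := by
        rintro rfl
        exact hz (Finset.mem_insert_self _ _)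
      rw [Function.update_of_ne hzv]
      exact hc0V.1 z (fun h => hz (Finset.mem_insert_of_mem h))
    have h2 : ∀ z, Function.update c0 v k z < q := by
      intro z
      by_cases hz : z = v
      · subst hz; simpa using hk
      · rw [Function.update_of_ne hz]; exact hc0V.2.1 z
    have h3 : ∃ G ∈ Gs, dom G ⊆ V' ∧ ∀ p ∈ G, Function.update c0 v k p.1 = p.2 := by
      by_contra hcon
      apply hcV
      refine ⟨h1, h2, ?_⟩
      intro G hG hGV
      by_contra h4
      apply hcon
      refine ⟨G, hG, hGV, ?_⟩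
      intro p hp
      by_contra h5
      exact h4 ⟨p, hp, h5⟩
    obtain ⟨G, hG, hGV, hGp⟩ := h3
    have hvG : v ∈ dom G := by
      by_contra hvG
      have hGV2 : dom G ⊆ V := by
        intro z hz
        rcases Finset.mem_insert.1 (hGV hz) with h | h
        · exact absurd (h ▸ hz) hvG
        · exact h
      obtain ⟨p, hp, hne⟩ := hc0V.2.2 G hG hGV2
      apply hne
      have hpv : p.1 ≠ v := by
        intro h
        apply hvG
        rw [← h]
        exact Finset.mem_image_of_mem _ hp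
      have := hGp p hp
      rwa [Function.update_of_ne hpv] at this
    refine Set.mem_iUnion₂.2 ⟨G, ?_, hc, hGp⟩
    rw [hS]
    simp only [Set.Finite.mem_toFinset, Set.mem_ofPred_eq]
    exact ⟨hG, hvG, hGV⟩
  -- bad sets
  have hbad : ∀ G ∈ S, {c | c ∈ Ext ∧ ∀ p ∈ G, c p.1 = p.2}.ncard ≤ N Gs q (V' \ dom G) := by
    intro G hG
    rw [hS] at hG
    simp only [Set.Finite.mem_toFinset, Set.mem_ofPred_eq] at hG
    obtain ⟨hG, hvG, hGV⟩ := hG
    refine Set.ncard_le_ncard_of_injOn (fun c z => if z ∈ dom G then 0 else c z) ?_ ?_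
      (finite_Val Gs q _)
    · rintro c ⟨⟨⟨c0, k⟩, ⟨hc0V, hk⟩, rfl⟩, hc⟩
      simp only at hc0V hk hc ⊢
      refine ⟨?_, ?_, ?_⟩
      · intro z hz
        by_cases hzG : z ∈ dom G
        · simp [hzG]
        · simp only [hzG, if_false]
          have hzV' : z ∉ V' := fun h => hz (by simp [h, hzG])
          have hzv : z ≠ v := by
            rintro rfl
            exact hzG hvG
          rw [Function.update_of_ne hzv]
          exact hc0V.1 z (fun h => hzV' (Finset.mem_insert_of_mem h))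
      · intro z
        by_cases hzG : z ∈ dom G
        · simp [hzG, hq]
        · simp only [hzG, if_false]
          have hzv : z ≠ v := by
            rintro rfl
            exact hzG hvG
          rw [Function.update_of_ne hzv]
          exact hc0V.2.1 z
      · intro G' hG' hG'V
        have hsub : dom G' ⊆ V := by
          intro z hz
          have h1 := hG'V hz
          rw [Finset.mem_sdiff] at h1
          rcases Finset.mem_insert.1 h1.1 with h | h
          · exact absurd (h ▸ hvG) h1.2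
          · exact h
        obtain ⟨p, hp, hne⟩ := hc0V.2.2 G' hG' hsub
        refine ⟨p, hp, ?_⟩
        have hpd : p.1 ∈ dom G' := Finset.mem_image_of_mem _ hp
        have hpG : p.1 ∉ dom G := by
          have h1 := hG'V hpd
          rw [Finset.mem_sdiff] at h1
          exact h1.2
        have hpv : p.1 ≠ v := by
          intro h
          rw [h] at hpG
          exact hpG hvG
        simp only [hpG, if_false]
        rw [Function.update_of_ne hpv]
        exact hne
    · rintro c ⟨_, hc⟩ c' ⟨_, hc'⟩ h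
      funext z
      by_cases hz : z ∈ dom G
      · obtain ⟨p, hp, rfl⟩ := Finset.mem_image.1 hz
        rw [hc p hp, hc' p hp]
      · have := congrFun h z
        simpa [hz] using this
  have hbad2 : ∀ G ∈ S, β ^ g * N Gs q (V' \ dom G) ≤ N Gs q V := by
    intro G hG
    rw [hS] at hG
    simp only [Set.Finite.mem_toFinset, Set.mem_ofPred_eq] at hG
    obtain ⟨hG, hvG, hGV⟩ := hG
    set T := (dom G).erase v with hT
    have hTcard : T.card = g := by
      rw [hT, Finset.card_erase_of_mem hvG, hcard G hG]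
      simp
    have hTV : T ⊆ V := by
      intro z hz
      rw [hT, Finset.mem_erase] at hz
      rcases Finset.mem_insert.1 (hGV hz.2) with h | h
      · exact absurd h hz.1
      · exact h
    have hU : V' \ dom G = V \ T := by
      ext z
      simp only [Finset.mem_sdiff, hV', Finset.mem_insert, hT, Finset.mem_erase, not_and]
      constructor
      · rintro ⟨h1, h2⟩
        have hzv : z ≠ v := by
          rintro rfl
          exact h2 hvG
        exact ⟨h1.resolve_left hzv, fun _ => h2⟩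
      · rintro ⟨h1, h2⟩
        have hzv : z ≠ v := by
          rintro rfl
          exact hv h1
        exact ⟨Or.inr h1, h2 hzv⟩
    have hd : Disjoint (V \ T) T := Finset.sdiff_disjoint
    have hun : (V \ T) ∪ T = V := Finset.sdiff_union_of_subset hTV
    have := N_chain Gs q β n ih (V \ T) T hd (by rw [hun]; omega)
    rw [hun, hTcard] at this
    rw [hU]
    exact this
  have hsum : ∑ G ∈ S, N Gs q (V' \ dom G) ≤ N Gs q V := by
    have hpos : 0 < β ^ g := pow_pos hβ g
    have h1 : β ^ g * ∑ G ∈ S, N Gs q (V' \ dom G) ≤ β ^ g * N Gs q V := by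
      rw [Finset.mul_sum]
      calc ∑ G ∈ S, β ^ g * N Gs q (V' \ dom G) ≤ ∑ _G ∈ S, N Gs q V :=
            Finset.sum_le_sum hbad2
        _ = S.card * N Gs q V := by simp
        _ ≤ β ^ g * N Gs q V := Nat.mul_le_mul_right _ hScard
    exact Nat.le_of_mul_le_mul_left h1 hpos
  have hfinU : (Val Gs q V' ∪ ⋃ G ∈ S, {c | c ∈ Ext ∧ ∀ p ∈ G, c p.1 = p.2}).Finite := by
    refine (finite_Val Gs q V').union ?_
    refine Set.Finite.biUnion S.finite_toSet ?_
    intro G _
    exact hExtfin.subset (fun c hc => hc.1)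
  have h1 : N Gs q V * q ≤ N Gs q V' + ∑ G ∈ S, N Gs q (V' \ dom G) := by
    rw [← hExtcard]
    calc Ext.ncard ≤ (Val Gs q V' ∪ ⋃ G ∈ S, {c | c ∈ Ext ∧ ∀ p ∈ G, c p.1 = p.2}).ncard :=
          Set.ncard_le_ncard hcover hfinU
      _ ≤ (Val Gs q V').ncard + (⋃ G ∈ S, {c | c ∈ Ext ∧ ∀ p ∈ G, c p.1 = p.2}).ncard :=
          Set.ncard_union_le _ _
      _ ≤ (Val Gs q V').ncard + ∑ G ∈ S, {c | c ∈ Ext ∧ ∀ p ∈ G, c p.1 = p.2}.ncard := by
          have := Finset.set_ncard_biUnion_le S (fun G => {c | c ∈ Ext ∧ ∀ p ∈ G, c p.1 = p.2})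
          omega
      _ ≤ _ := by
          have := Finset.sum_le_sum hbad
          unfold N at *
          omega
  have h2 : N Gs q V * q = β * N Gs q V + N Gs q V := by
    rw [hq]; ring
  omega

theorem exists_valid (Gs : Set (Finset (ℕ × ℕ))) (g β : ℕ) (hβ : 0 < β)
    (hcard : ∀ G ∈ Gs, (dom G).card = g + 1)
    (hfin : ∀ v, {G | G ∈ Gs ∧ v ∈ dom G}.Finite)
    (hcnt : ∀ v, {G | G ∈ Gs ∧ v ∈ dom G}.ncard ≤ β ^ g) (V : Finset ℕ) :
    (Val Gs (β + 1) V).Nonempty := by
  classical
  have h0 : 0 < N Gs (β + 1) ∅ := by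
    unfold N
    rw [Set.ncard_pos (finite_Val Gs _ _)]
    refine ⟨fun _ => 0, fun _ _ => rfl, fun _ => Nat.succ_pos _, ?_⟩
    intro G hG hGe
    have := hcard G hG
    rw [Finset.subset_empty.1 hGe] at this
    simp at this
  have := N_chain Gs (β + 1) β V.card
    (fun W _ v hv => N_step Gs g β hβ hcard hfin hcnt W.card W rfl v hv) ∅ V
    (Finset.disjoint_empty_left V) (by simp)
  rw [Finset.empty_union] at this
  have hpos : 0 < N Gs (β + 1) V :=
    lt_of_lt_of_le (Nat.mul_pos (pow_pos hβ _) h0) this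
  unfold N at hpos
  exact (Set.ncard_pos (finite_Val Gs _ _)).1 hpos

/-- The avoidance lemma. -/
theorem exists_avoid (Gs : Set (Finset (ℕ × ℕ))) (g β : ℕ) (hβ : 0 < β)
    (hcard : ∀ G ∈ Gs, (dom G).card = g + 1)
    (hfin : ∀ v, {G | G ∈ Gs ∧ v ∈ dom G}.Finite)
    (hcnt : ∀ v, {G | G ∈ Gs ∧ v ∈ dom G}.ncard ≤ β ^ g) :
    ∃ c : ℕ → ℕ, (∀ z, c z < β + 1) ∧ ∀ G ∈ Gs, ∃ p ∈ G, c p.1 ≠ p.2 := by
  classical
  let K : ℕ → Set (ℕ → Fin (β + 1)) := fun n =>
    {c | ∀ G ∈ Gs, dom G ⊆ Finset.range n → ∃ p ∈ G, ((c p.1 : Fin (β + 1)) : ℕ) ≠ p.2}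
  have hne : (⋂ n, K n).Nonempty := by
    refine IsCompact.nonempty_iInter_of_sequence_nonempty_isCompact_isClosed K ?_ ?_ ?_ ?_
    · intro n c hc G hG hGn
      exact hc G hG (hGn.trans (Finset.range_mono (Nat.le_succ n)))
    · intro n
      obtain ⟨c, hc⟩ := exists_valid Gs g β hβ hcard hfin hcnt (Finset.range n)
      refine ⟨fun z => ⟨c z, hc.2.1 z⟩, ?_⟩
      intro G hG hGn
      exact hc.2.2 G hG hGn
    · exact IsClosed.isCompact (by
        have : K 0 = {c | ∀ G ∈ Gs, dom G ⊆ Finset.range 0 →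
          ∃ p ∈ G, ((c p.1 : Fin (β + 1)) : ℕ) ≠ p.2} := rfl
        rw [this]
        simp only [Set.ofPred_forall]
        refine isClosed_iInter fun G => isClosed_iInter fun hG => isClosed_iInter fun hGn => ?_
        have h2 : {c : ℕ → Fin (β + 1) | ∃ p ∈ G, ((c p.1 : Fin (β + 1)) : ℕ) ≠ p.2} =
            ⋃ p ∈ G, {c | ((c p.1 : Fin (β + 1)) : ℕ) ≠ p.2} := by
          ext c; simp
        rw [h2]
        refine Set.Finite.isClosed_biUnion G.finite_toSet ?_
        intro p _
        exact IsClosed.preimage (f := fun c : ℕ → Fin (β + 1) => c p.1)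
          (continuous_apply p.1) (isClosed_discrete {x : Fin (β + 1) | (x : ℕ) ≠ p.2}))
    · intro n
      have : K n = {c | ∀ G ∈ Gs, dom G ⊆ Finset.range n →
        ∃ p ∈ G, ((c p.1 : Fin (β + 1)) : ℕ) ≠ p.2} := rfl
      rw [this]
      simp only [Set.ofPred_forall]
      refine isClosed_iInter fun G => isClosed_iInter fun hG => isClosed_iInter fun hGn => ?_
      have h2 : {c : ℕ → Fin (β + 1) | ∃ p ∈ G, ((c p.1 : Fin (β + 1)) : ℕ) ≠ p.2} =
          ⋃ p ∈ G, {c | ((c p.1 : Fin (β + 1)) : ℕ) ≠ p.2} := by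
        ext c; simp
      rw [h2]
      refine Set.Finite.isClosed_biUnion G.finite_toSet ?_
      intro p _
      exact IsClosed.preimage (f := fun c : ℕ → Fin (β + 1) => c p.1)
        (continuous_apply p.1) (isClosed_discrete {x : Fin (β + 1) | (x : ℕ) ≠ p.2})
  obtain ⟨c, hc⟩ := hne
  refine ⟨fun z => (c z : ℕ), fun z => (c z).2, ?_⟩
  intro G hG
  obtain ⟨n, hn⟩ : ∃ n, dom G ⊆ Finset.range n := by
    refine ⟨(dom G).sup id + 1, ?_⟩
    intro z hz
    have : z ≤ (dom G).sup id := Finset.le_sup (f := id) hz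
    simp; omega
  exact (Set.mem_iInter.1 hc n) G hG hn

end Pool.Agent.W_MP_d5b253_lc.Avoid
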