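import Pool.Agent.W_MP_d5b253_lc.Match

/-!
Measurability, and the assembly.
-/

set_option autoImplicit false

open Finset

namespace Pool.Agent.W_MP_d5b253_lc

/-- The space of infinite subsets of `ℕ`. -/
abbrev XX : Type := {x : ℕ → Bool // {n | x n = true}.Infinite}

theorem meas1 (a : ℕ) (P : ℕ → Prop) : MeasurableSet {Z : ℕ → ℕ | P (Z a)} :=
  (measurable_pi_apply a) (MeasurableSet.of_discrete (s := {n | P n}))

theorem meas2 (a b : ℕ) (P : ℕ → ℕ → Prop) : MeasurableSet {Z : ℕ → ℕ | P (Z a) (Z b)} :=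
  ((measurable_pi_apply a).prodMk (measurable_pi_apply b) :
    Measurable (fun Z : ℕ → ℕ => (Z a, Z b)))
    (MeasurableSet.of_discrete (s := {p : ℕ × ℕ | P p.1 p.2}))

theorem meas3 (a b c : ℕ) (P : ℕ → ℕ → ℕ → Prop) :
    MeasurableSet {Z : ℕ → ℕ | P (Z a) (Z b) (Z c)} :=
  ((measurable_pi_apply a).prodMk ((measurable_pi_apply b).prodMk (measurable_pi_apply c)) :
    Measurable (fun Z : ℕ → ℕ => (Z a, Z b, Z c)))
    (MeasurableSet.of_discrete (s := {p : ℕ × ℕ × ℕ | P p.1 p.2.1 p.2.2}))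

theorem meas_all {α ι : Type*} [MeasurableSpace α] [Countable ι] {P : ι → α → Prop}
    (h : ∀ i, MeasurableSet {x | P i x}) : MeasurableSet {x | ∀ i, P i x} := by
  have : {x | ∀ i, P i x} = ⋂ i, {x | P i x} := by ext x; simp
  rw [this]
  exact MeasurableSet.iInter h

theorem meas_ex {α ι : Type*} [MeasurableSpace α] [Countable ι] {P : ι → α → Prop}
    (h : ∀ i, MeasurableSet {x | P i x}) : MeasurableSet {x | ∃ i, P i x} := by
  have : {x | ∃ i, P i x} = ⋃ i, {x | P i x} := by ext x; simp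
  rw [this]
  exact MeasurableSet.iUnion h

theorem meas_and {α : Type*} [MeasurableSpace α] {P Q : α → Prop}
    (h : MeasurableSet {x | P x}) (h' : MeasurableSet {x | Q x}) :
    MeasurableSet {x | P x ∧ Q x} := h.inter h'

theorem meas_or {α : Type*} [MeasurableSpace α] {P Q : α → Prop}
    (h : MeasurableSet {x | P x}) (h' : MeasurableSet {x | Q x}) :
    MeasurableSet {x | P x ∨ Q x} := h.union h'

theorem meas_imp {α : Type*} [MeasurableSpace α] {P Q : α → Prop}
    (h : MeasurableSet {x | P x}) (h' : MeasurableSet {x | Q x}) :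
    MeasurableSet {x | P x → Q x} := by
  have : {x | P x → Q x} = {x | P x}ᶜ ∪ {x | Q x} := by
    ext x; simp only [Set.mem_ofPred_eq, Set.mem_union, Set.mem_compl_iff]; tauto
  rw [this]
  exact h.compl.union h'

theorem meas_not {α : Type*} [MeasurableSpace α] {P : α → Prop}
    (h : MeasurableSet {x | P x}) : MeasurableSet {x | ¬ P x} := h.compl

theorem good_meas (φ : ℕ → ℕ → ℕ) (m : ℕ) : MeasurableSet {Z | Good φ m Z} := by
  have h : ∀ Z, Good φ m Z ↔ (∀ i, Z i < Z (i + 1)) ∧ (m ≤ Z 0 ∧ gg φ m (Z 0) ≤ Z 1) ∧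
      gg φ m (Z 1) ≤ Z 2 ∧ (∀ j, ∀ w ∈ wordsLe (Z 0) (Z 0), ∀ w' ∈ wordsLe (Z 0) (Z 0), 1 ≤ j →
      (ev φ w (Z 1) = ev φ w' (Z 1) ↔ ev φ w (Z j) = ev φ w' (Z j))) ∧
      chi φ m (Z 0) (Z 1) = chi φ m (Z 1) (Z 2) := by
    intro Z
    constructor
    · rintro ⟨h1, h2, h3, h4, h5, h6⟩
      exact ⟨fun i => h1 (by omega), ⟨h2, h3⟩, h4, fun j w hw w' hw' hj => h5 w hw w' hw' j hj, h6⟩
    · rintro ⟨h1, ⟨h2, h3⟩, h4, h5, h6⟩
      exact ⟨strictMono_nat_of_lt_succ h1, h2, h3, h4, fun w hw w' hw' j hj =>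
        h5 j w hw w' hw' hj, h6⟩
  simp only [h]
  apply meas_and
  · exact meas_all (fun i => meas2 i (i + 1) (fun a b => a < b))
  apply meas_and
  · exact meas2 0 1 (fun a b => m ≤ a ∧ gg φ m a ≤ b)
  apply meas_and
  · exact meas2 1 2 (fun a b => gg φ m a ≤ b)
  apply meas_and
  · exact meas_all (fun j => meas3 0 1 j (fun a b c => ∀ w ∈ wordsLe a a, ∀ w' ∈ wordsLe a a,
      1 ≤ j → (ev φ w b = ev φ w' b ↔ ev φ w c = ev φ w' c)))
  · exact meas3 0 1 2 (fun a b c => chi φ m a b = chi φ m b c)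

theorem nice_meas (φ : ℕ → ℕ → ℕ) (i : ℕ) : MeasurableSet {x | Nice φ x i} := by
  unfold Nice
  apply meas_and
  · apply meas_all
    intro m
    apply meas_imp
    · exact meas1 i (fun a => m ≤ a)
    · have hm : Measurable (fun x : ℕ → ℕ => fun k => x (i + 1 + k)) :=
        measurable_pi_lambda _ (fun k => measurable_pi_apply _)
      exact hm (good_meas φ m)
  apply meas_and
  · have h : ∀ x : ℕ → ℕ, (∀ k ≤ x i, ∀ l ≤ x i, ∀ j, i < j → ∀ j', i < j' →
        (φ l (φ k (x j)) = x i ↔ φ l (φ k (x j')) = x i)) ↔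
        ∀ j j', (i < j → i < j' → ∀ k ≤ x i, ∀ l ≤ x i,
        (φ l (φ k (x j)) = x i ↔ φ l (φ k (x j')) = x i)) := by
      intro x
      constructor
      · intro h j j' hj hj' k hk l hl
        exact h k hk l hl j hj j' hj'
      · intro h k hk l hl j hj j' hj'
        exact h j j' hj hj' k hk l hl
    simp only [h]
    exact meas_all (fun j => meas_all (fun j' => meas3 i j j' (fun a b c => i < j → i < j' →
      ∀ k ≤ a, ∀ l ≤ a, (φ l (φ k b) = a ↔ φ l (φ k c) = a))))
  apply meas_and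
  · have h : ∀ x : ℕ → ℕ, (∀ k ≤ x i, ∀ l ≤ x i, ∀ j, i < j → ∀ j', i < j' →
        (Cr φ k l (x j) ↔ Cr φ k l (x j'))) ↔
        ∀ j j', (i < j → i < j' → ∀ k ≤ x i, ∀ l ≤ x i,
        (Cr φ k l (x j) ↔ Cr φ k l (x j'))) := by
      intro x
      constructor
      · intro h j j' hj hj' k hk l hl
        exact h k hk l hl j hj j' hj'
      · intro h k hk l hl j hj j' hj'
        exact h j j' hj hj' k hk l hl
    simp only [h]
    exact meas_all (fun j => meas_all (fun j' => meas3 i j j' (fun a b c => i < j → i < j' →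
      ∀ k ≤ a, ∀ l ≤ a, (Cr φ k l b ↔ Cr φ k l c))))
  · exact meas2 i (i + 1) (fun a b => grow φ a (grow φ a a) ≤ b)

theorem evNice_meas (φ : ℕ → ℕ → ℕ) : MeasurableSet {x | EvNice φ x} := by
  unfold EvNice
  apply meas_ex
  intro i0
  apply meas_all
  intro i
  by_cases h : i0 ≤ i
  · simp only [h, forall_const]
    exact nice_meas φ i
  · simp [h]

theorem CC_meas (φ : ℕ → ℕ → ℕ) (ε : ℕ) : MeasurableSet {x | CC φ ε x} := by
  unfold CC
  exact meas_all (fun k => meas_all (fun l => meas_ex (fun I => meas_all (fun i =>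
    meas1 i (fun a => I ≤ i → φ l (φ k a) = a → ¬ Sep φ ε a (φ k a))))))

theorem eps_meas (φ : ℕ → ℕ → ℕ) : Measurable (eps φ) := by
  classical
  unfold eps
  exact Measurable.ite (CC_meas φ 0) measurable_const measurable_const

theorem meas_dep {α β : Type*} [MeasurableSpace α] [MeasurableSpace β] (a : α → ℕ)
    (ha : Measurable a) (f : ℕ → α → β) (hf : ∀ n, Measurable (f n)) :
    Measurable (fun x => f (a x) x) := by
  intro s hs
  have : (fun x => f (a x) x) ⁻¹' s = ⋃ n, (a ⁻¹' {n} ∩ (f n) ⁻¹' s) := by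
    ext x; simp
  rw [this]
  exact MeasurableSet.iUnion (fun n => (ha (measurableSet_singleton n)).inter (hf n hs))

theorem anch_meas (b : ℕ) : Measurable (fun x : ℕ → ℕ => anch x b) := by
  apply measurable_to_countable'
  intro i
  have h : (fun x : ℕ → ℕ => anch x b) ⁻¹' {i} =
      {x | (b ≤ x i ∧ ∀ j, j < i → ¬ b ≤ x j) ∨ (i = 0 ∧ ∀ j, ¬ b ≤ x j)} := by
    ext x
    simp only [Set.mem_preimage, Set.mem_singleton_iff, Set.mem_ofPred_eq, anch]
    constructor
    · intro h
      by_cases hne : {i | b ≤ x i}.Nonempty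
      · left
        rw [← h]
        exact ⟨Nat.sInf_mem hne, fun j hj h' => Nat.notMem_of_lt_sInf hj h'⟩
      · right
        rw [Set.not_nonempty_iff_eq_empty] at hne
        rw [hne, Nat.sInf_empty] at h
        refine ⟨h.symm, fun j hj => ?_⟩
        have : j ∈ ({i | b ≤ x i} : Set ℕ) := hj
        rw [hne] at this
        exact this
    · rintro (⟨h1, h2⟩ | ⟨rfl, h2⟩)
      · apply le_antisymm
        · exact Nat.sInf_le h1
        · apply le_csInf ⟨i, h1⟩
          intro j hj
          by_contra hcon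
          exact h2 j (by omega) hj
      · have : {i | b ≤ x i} = ∅ := by
          ext j
          simp only [Set.mem_ofPred_eq, Set.mem_empty_iff_false, iff_false]
          exact h2 j
        rw [this, Nat.sInf_empty]
  rw [h]
  apply meas_or
  · apply meas_and
    · exact meas1 i (fun a => b ≤ a)
    · exact meas_all (fun j => meas1 j (fun a => j < i → ¬ b ≤ a))
  · apply meas_and
    · exact MeasurableSet.const _
    · exact meas_all (fun j => meas1 j (fun a => ¬ b ≤ a))

theorem TT_meas (φ : ℕ → ℕ → ℕ) (n : ℕ) : Measurable (TT φ n) := by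
  apply measurable_pi_lambda
  intro t
  unfold TT
  have h1 : Measurable (fun x : ℕ → ℕ => anch x (ab φ (2 * n + eps φ x))) :=
    meas_dep (fun x => ab φ (2 * n + eps φ x))
      ((measurable_from_nat (f := fun e => ab φ (2 * n + e))).comp (eps_meas φ))
      (fun b x => anch x b) anch_meas
  exact meas_dep _ h1 (fun a x => x (a + 1 + t)) (fun a => measurable_pi_apply _)

theorem WOK_meas (φ : ℕ → ℕ → ℕ) (m : ℕ) (w : List ℕ) : MeasurableSet {Z | WOK φ m w Z} := by
  induction w with
  | nil => exact good_meas φ m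
  | cons s w ih =>
    simp only [WOK]
    apply meas_and (good_meas φ m)
    apply meas_and (MeasurableSet.const _)
    apply meas_and
    · apply meas_ex
      intro r
      apply meas_and (MeasurableSet.const _)
      exact meas_all (fun j => meas1 j (fun a => φ r (φ s a) = a))
    · have hm : Measurable (fun Z : ℕ → ℕ => fun j => φ s (Z j)) :=
        measurable_pi_lambda _ (fun j => measurable_from_nat.comp (measurable_pi_apply j))
      exact hm ih

theorem rel_meas (φ : ℕ → ℕ → ℕ) (m : ℕ) :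
    MeasurableSet {p : (ℕ → ℕ) × (ℕ → ℕ) | Rel φ m p.1 p.2} := by
  simp only [rel_iff_word]
  apply meas_ex
  intro w
  apply meas_and
  · exact measurable_fst (WOK_meas φ m w)
  · apply meas_all
    intro j
    have hm : Measurable (fun p : (ℕ → ℕ) × (ℕ → ℕ) => (p.1 j, p.2 j)) :=
      ((measurable_pi_apply j).comp measurable_fst).prodMk
        ((measurable_pi_apply j).comp measurable_snd)
    exact hm (MeasurableSet.of_discrete (s := {q : ℕ × ℕ | ev φ w q.1 = q.2}))

/-- The increasing enumeration. -/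
noncomputable def en (X : XX) : ℕ → ℕ := Nat.nth (fun n => X.1 n = true)

theorem en_strictMono (X : XX) : StrictMono (en X) := Nat.nth_strictMono X.2

theorem en_range (X : XX) : Set.range (en X) = {n | X.1 n = true} :=
  Nat.range_nth_of_infinite X.2

theorem en_meas : Measurable en := by
  apply measurable_pi_lambda
  intro i
  have hcount : ∀ k, Measurable (fun X : XX => Nat.count (fun n => X.1 n = true) k) := by
    intro k
    induction k with
    | zero => simp only [Nat.count_zero]; exact measurable_const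
    | succ k ih =>
      simp only [Nat.count_succ]
      apply ih.add
      have h1 : Measurable (fun X : XX => X.1 k) :=
        (measurable_pi_apply k).comp measurable_subtype_coe
      exact (Measurable.of_discrete (f := fun b : Bool => if b = true then 1 else 0)).comp h1
  apply measurable_to_countable'
  intro k
  have h : (fun X : XX => en X i) ⁻¹' {k} =
      {X : XX | X.1 k = true ∧ Nat.count (fun n => X.1 n = true) k = i} := by
    ext X
    simp only [Set.mem_preimage, Set.mem_singleton_iff, Set.mem_ofPred_eq]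
    constructor
    · intro h
      rw [← h]
      refine ⟨Nat.nth_mem_of_infinite X.2 i, ?_⟩
      exact Nat.count_nth_of_infinite X.2 i
    · rintro ⟨h1, h2⟩
      rw [← h2]
      exact Nat.nth_count h1
  rw [h]
  apply meas_and
  · have h1 : Measurable (fun X : XX => X.1 k) :=
      (measurable_pi_apply k).comp measurable_subtype_coe
    exact h1 (measurableSet_singleton true)
  · exact hcount k (measurableSet_singleton i)

/-- The approximating relations. -/
def FF (φ : ℕ → ℕ → ℕ) (n : ℕ) (X Y : XX) : Prop :=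
  X = Y ∨ Rel φ n (TT φ n (en X)) (TT φ n (en Y))

theorem FF_equiv (φ : ℕ → ℕ → ℕ) (n : ℕ) : Equivalence (FF φ n) where
  refl _ := Or.inl rfl
  symm := by
    rintro X Y (rfl | h)
    · exact Or.inl rfl
    · exact Or.inr h.symm
  trans := by
    rintro X Y Z (rfl | h) (rfl | h')
    · exact Or.inl rfl
    · exact Or.inr h'
    · exact Or.inr h
    · exact Or.inr (h.trans h')

theorem FF_meas (φ : ℕ → ℕ → ℕ) (n : ℕ) : MeasurableSet {p : XX × XX | FF φ n p.1 p.2} := by
  unfold FF
  apply meas_or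
  · have h : {p : XX × XX | p.1 = p.2} = {p : XX × XX | ∀ k, p.1.1 k = p.2.1 k} := by
      ext p
      simp only [Set.mem_ofPred_eq]
      constructor
      · intro h k; rw [h]
      · intro h; exact Subtype.ext (funext h)
    rw [h]
    apply meas_all
    intro k
    have h1 : Measurable (fun p : XX × XX => p.1.1 k) :=
      (measurable_pi_apply k).comp (measurable_subtype_coe.comp measurable_fst)
    have h2 : Measurable (fun p : XX × XX => p.2.1 k) :=
      (measurable_pi_apply k).comp (measurable_subtype_coe.comp measurable_snd)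
    exact (h1.prodMk h2) (MeasurableSet.of_discrete (s := {q : Bool × Bool | q.1 = q.2}))
  · have h1 : Measurable (fun p : XX × XX => (TT φ n (en p.1), TT φ n (en p.2))) :=
      ((TT_meas φ n).comp (en_meas.comp measurable_fst)).prodMk
        ((TT_meas φ n).comp (en_meas.comp measurable_snd))
    exact h1 (rel_meas φ n)

theorem tail_finite (Z : ℕ → ℕ) :
    {Y : XX | ∃ a, ∀ t, en Y (a + t) = Z t}.Finite := by
  have hkey : ∀ Y : XX, (∃ a, ∀ t, en Y (a + t) = Z t) →
      ∀ m, Z 0 ≤ m → (Y.1 m = true ↔ m ∈ Set.range Z) := by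
    rintro Y ⟨a, ha⟩ m hm
    have h1 : Y.1 m = true ↔ m ∈ Set.range (en Y) := by rw [en_range]; rfl
    rw [h1]
    constructor
    · rintro ⟨p, hp⟩
      have h2 : a ≤ p := by
        rw [← (en_strictMono Y).le_iff_le, hp]
        have := ha 0
        rw [add_zero] at this
        omega
      obtain ⟨t, rfl⟩ := Nat.exists_eq_add_of_le h2
      exact ⟨t, by rw [← ha t, hp]⟩
    · rintro ⟨t, ht⟩
      exact ⟨a + t, by rw [ha t, ht]⟩
  apply Set.Finite.of_finite_image (f := fun Y : XX => fun m : Fin (Z 0) => Y.1 m)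
    (Set.toFinite _)
  intro Y hY Y' hY' heq
  apply Subtype.ext
  funext m
  by_cases hm : m < Z 0
  · exact congrFun heq ⟨m, hm⟩
  · have h1 := hkey Y hY m (by omega)
    have h2 := hkey Y' hY' m (by omega)
    rw [Bool.eq_iff_iff, h1, h2]

theorem FF_finite (φ : ℕ → ℕ → ℕ) (n : ℕ) (X : XX) : {Y | FF φ n X Y}.Finite := by
  have h1 : (⋃ Z ∈ {Z | Rel φ n (TT φ n (en X)) Z},
      {Y : XX | ∃ a, ∀ t, en Y (a + t) = Z t}).Finite :=
    (rel_finite φ n _).biUnion (fun Z _ => tail_finite Z)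
  apply ((Set.finite_singleton X).union h1).subset
  rintro Y (rfl | h)
  · exact Or.inl rfl
  · right
    simp only [Set.mem_iUnion]
    exact ⟨_, h, _, fun t => rfl⟩

/-- The co-null set. -/
def BB (φ : ℕ → ℕ → ℕ) : Set XX := {X | EvNice φ (en X)}

theorem BB_meas (φ : ℕ → ℕ → ℕ) : MeasurableSet (BB φ) := en_meas (evNice_meas φ)

theorem BB_conull (φ : ℕ → ℕ → ℕ) (s : Finset ℕ) (A : Set ℕ) (hA : A.Infinite)
    (_ : ∀ a ∈ A, ∀ m ∈ s, m < a) :
    ∃ A' : Set ℕ, A' ⊆ A ∧ A'.Infinite ∧ ∀ X : XX,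
      ((↑s : Set ℕ) ⊆ {n | X.1 n = true} ∧ {n | X.1 n = true} ⊆ (↑s : Set ℕ) ∪ A') →
        X ∈ BB φ := by
  obtain ⟨D, hDA, hD, hnice⟩ := exists_nice φ A hA
  refine ⟨D, hDA, hD, ?_⟩
  rintro X ⟨h1, h2⟩
  obtain ⟨M, hM⟩ := s.finite_toSet.bddAbove
  refine ⟨M + 1, ?_⟩
  apply hnice (en X) (en_strictMono X)
  intro i hi
  have h3 : en X i ∈ {n | X.1 n = true} := by rw [← en_range]; exact ⟨i, rfl⟩
  rcases h2 h3 with h4 | h4
  · have h5 := hM h4
    have h6 : i ≤ en X i := (en_strictMono X).id_le i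
    omega
  · exact h4

/-- **Main theorem.** -/
theorem main (ψ : ℕ → ℕ → ℕ) :
    ∃ B : Set XX, MeasurableSet B ∧
      (∀ s : Finset ℕ, ∀ A : Set ℕ, A.Infinite → (∀ a ∈ A, ∀ m ∈ s, m < a) →
        ∃ A' : Set ℕ, A' ⊆ A ∧ A'.Infinite ∧ ∀ x : XX,
            ((↑s : Set ℕ) ⊆ {n | x.1 n = true} ∧ {n | x.1 n = true} ⊆ (↑s : Set ℕ) ∪ A') →
              x ∈ B) ∧
      ∀ E : XX → XX → Prop, Equivalence E → MeasurableSet {p : XX × XX | E p.1 p.2} →
      (∀ x y, E x y → ∃ k,
        (symmDiff (ψ k '' {n | x.1 n = true}) {n | y.1 n = true}).Finite) →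
      ∃ F : ℕ → XX → XX → Prop,
        (∀ n, Equivalence (F n)) ∧
        (∀ n, MeasurableSet {p : XX × XX | F n p.1 p.2}) ∧
        (∀ n, ∀ x : XX, {y : XX | F n x y}.Finite) ∧
        (∀ n, ∀ x y : XX, F n x y → F (n + 1) x y) ∧
        (∀ x ∈ B, ∀ y ∈ B, (E x y ↔ ∃ n, F n x y)) := by
  -- close the family under composition
  let φ : ℕ → ℕ → ℕ := fun n z => ev ψ (Denumerable.ofNat (List ℕ) n) z
  have hcomp : ∀ k l, ∃ m, ∀ z, φ m z = φ k (φ l z) := by
    intro k l
    refine ⟨Encodable.encode (Denumerable.ofNat (List ℕ) l ++ Denumerable.ofNat (List ℕ) k), ?_⟩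
    intro z
    simp only [φ, Denumerable.ofNat_encode, ev_append]
  refine ⟨BB φ, BB_meas φ, BB_conull φ, ?_⟩
  intro E hE hEm hψ
  have hφ : ∀ x y, E x y → ∃ k,
      (symmDiff (φ k '' {n | x.1 n = true}) {n | y.1 n = true}).Finite := by
    intro x y hxy
    obtain ⟨k, hk⟩ := hψ x y hxy
    refine ⟨Encodable.encode [k], ?_⟩
    have : φ (Encodable.encode [k]) = ψ k := by
      funext z
      simp [φ]
    rw [this]
    exact hk
  refine ⟨fun n x y => E x y ∧ ∀ m, n ≤ m → FF φ m x y, ?_, ?_, ?_, ?_, ?_⟩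
  · intro n
    exact ⟨fun x => ⟨hE.refl x, fun m _ => (FF_equiv φ m).refl x⟩,
      fun h => ⟨hE.symm h.1, fun m hm => (FF_equiv φ m).symm (h.2 m hm)⟩,
      fun h h' => ⟨hE.trans h.1 h'.1, fun m hm => (FF_equiv φ m).trans (h.2 m hm) (h'.2 m hm)⟩⟩
  · intro n
    apply meas_and hEm
    apply meas_all
    intro m
    apply meas_imp (MeasurableSet.const _)
    exact FF_meas φ m
  · intro n x
    exact (FF_finite φ n x).subset (fun y hy => hy.2 n le_rfl)
  · intro n x y h
    exact ⟨h.1, fun m hm => h.2 m (by omega)⟩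
  · intro x hx y hy
    constructor
    · intro hxy
      obtain ⟨k, hk⟩ := hφ x y hxy
      obtain ⟨l, hl⟩ := hφ y x (hE.symm hxy)
      rw [← en_range, ← en_range] at hk hl
      obtain ⟨N, hN⟩ := eventually_rel φ hcomp (en x) (en y) (en_strictMono x) (en_strictMono y)
        hx hy k l hk hl
      exact ⟨N, hxy, fun m hm => Or.inr (hN m hm)⟩
    · rintro ⟨n, h, _⟩
      exact h

end Pool.Agent.W_MP_d5b253_lc
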