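import Pool.Agent.W_MP_d5b253_lc.Defs
import Pool.Agent.W_MP_d5b253_lc.Avoid

set_option autoImplicit false

namespace Pool.Agent.W_MP_d5b253_lc

open Set

namespace Col

/-- Path conditions. -/
def IsPath (f : ℕ → (ℕ ≃. ℕ)) (j b : ℕ) (p : ℕ → ℕ) (w : ℕ → ℕ × Bool) : Prop :=
  (∀ t, t < b + 3 → (w t).1 ≤ j ∧ gen f (w t) (p t) = some (p (t + 1))) ∧
    (∀ t t', t ≤ b + 3 → t' ≤ b + 3 → p t = p t' → t = t')

/-- The pattern of a path. -/
def pat (b : ℕ) (h : ℕ → ℕ) (p : ℕ → ℕ) : Finset (ℕ × ℕ) :=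
  (Finset.range (b + 4)).image (fun t => (p t, h (p t)))

/-- All the patterns at stage `b`. -/
def Pats (f : ℕ → (ℕ ≃. ℕ)) (j b : ℕ) (h : ℕ → ℕ → ℕ) : Set (Finset (ℕ × ℕ)) :=
  {G | ∃ a, a < b ∧ ∃ p w, IsPath f j b p w ∧ G = pat b (h a) p}

theorem dom_pat (b : ℕ) (h : ℕ → ℕ) (p : ℕ → ℕ) :
    Avoid.dom (pat b h p) = (Finset.range (b + 4)).image p := by
  unfold Avoid.dom pat
  rw [Finset.image_image]
  rfl

/-- words as functions -/
def ext (j b : ℕ) (w : Fin (b + 3) → Fin (j + 1) × Bool) (s : ℕ) : ℕ × Bool :=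
  if h : s < b + 3 then (((w ⟨s, h⟩).1 : ℕ), (w ⟨s, h⟩).2) else (0, true)

/-- backward path -/
def back (f : ℕ → (ℕ ≃. ℕ)) (W : ℕ → ℕ × Bool) (t v : ℕ) : ℕ → ℕ
  | 0 => v
  | k + 1 => (gen f (ginv (W (t - 1 - k))) (back f W t v k)).getD 0

/-- forward path -/
def fwd (f : ℕ → (ℕ ≃. ℕ)) (W : ℕ → ℕ × Bool) (t v : ℕ) : ℕ → ℕ
  | 0 => v
  | k + 1 => (gen f (W (t + k)) (fwd f W t v k)).getD 0

/-- the path through `v` at position `t` -/
def two (f : ℕ → (ℕ ≃. ℕ)) (W : ℕ → ℕ × Bool) (t v s : ℕ) : ℕ :=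
  if s ≤ t then back f W t v (t - s) else fwd f W t v (s - t)

theorem two_eq {f : ℕ → (ℕ ≃. ℕ)} {j b : ℕ} {p : ℕ → ℕ} {w W : ℕ → ℕ × Bool}
    (hp : IsPath f j b p w) (hW : ∀ s, s < b + 3 → W s = w s) {t v : ℕ} (ht : t ≤ b + 3)
    (hv : p t = v) {s : ℕ} (hs : s ≤ b + 3) : two f W t v s = p s := by
  have hback : ∀ k, k ≤ t → back f W t v k = p (t - k) := by
    intro k
    induction k with
    | zero => intro _; simp [back, hv]
    | succ k ih =>
      intro hk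
      have h1 := ih (by omega)
      have h2 := (hp.1 (t - 1 - k) (by omega)).2
      have h3 : t - 1 - k + 1 = t - k := by omega
      rw [h3, gen_inv] at h2
      have h4 : t - (k + 1) = t - 1 - k := by omega
      rw [back, h1, hW _ (by omega), h2, h4]
      rfl
  have hfwd : ∀ k, t + k ≤ b + 3 → fwd f W t v k = p (t + k) := by
    intro k
    induction k with
    | zero => intro _; simp [fwd, hv]
    | succ k ih =>
      intro hk
      have h1 := ih (by omega)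
      have h2 := (hp.1 (t + k) (by omega)).2
      rw [fwd, h1, hW _ (by omega), h2]
      rfl
  unfold two
  split_ifs with h
  · rw [hback _ (by omega)]
    congr 1
    omega
  · rw [hfwd _ (by omega)]
    congr 1
    omega

theorem pats_sub (f : ℕ → (ℕ ≃. ℕ)) (j b : ℕ) (h : ℕ → ℕ → ℕ) (v : ℕ) :
    {G | G ∈ Pats f j b h ∧ v ∈ Avoid.dom G} ⊆
      Set.range (fun x : Fin b × Fin (b + 4) × (Fin (b + 3) → Fin (j + 1) × Bool) =>
        pat b (h x.1) (two f (ext j b x.2.2) x.2.1 v)) := by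
  rintro G ⟨⟨a, hab, p, w, hp, rfl⟩, hv⟩
  rw [dom_pat, Finset.mem_image] at hv
  obtain ⟨t, ht, hv⟩ := hv
  rw [Finset.mem_range] at ht
  let w' : Fin (b + 3) → Fin (j + 1) × Bool := fun s =>
    (⟨(w s).1, Nat.lt_succ_of_le (hp.1 s s.2).1⟩, (w s).2)
  refine ⟨(⟨a, hab⟩, ⟨t, ht⟩, w'), ?_⟩
  simp only
  unfold pat
  apply Finset.image_congr
  intro s hs
  have hs' : s < b + 4 := by simpa using hs
  have hW : ∀ s, s < b + 3 → ext j b w' s = w s := by
    intro s hs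
    simp [ext, hs, w']
  have := two_eq hp hW (by omega : t ≤ b + 3) hv (by omega : s ≤ b + 3)
  simp only [this]

theorem count_le (j b : ℕ) :
    Fintype.card (Fin b × Fin (b + 4) × (Fin (b + 3) → Fin (j + 1) × Bool)) ≤
      (4 * j + 4) ^ (b + 3) := by
  have h1 : Fintype.card (Fin b × Fin (b + 4) × (Fin (b + 3) → Fin (j + 1) × Bool)) =
      b * ((b + 4) * ((j + 1) * 2) ^ (b + 3)) := by
    simp
  have h2 : b * (b + 4) ≤ 2 ^ (b + 3) := by
    clear h1
    induction b with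
    | zero => simp
    | succ n ih =>
      have : 2 ^ (n + 1 + 3) = 2 * 2 ^ (n + 3) := by ring
      rw [this]
      rcases Nat.lt_or_ge n 3 with h | h
      · interval_cases n <;> norm_num
      · nlinarith [ih, h]
  rw [h1]
  calc b * ((b + 4) * ((j + 1) * 2) ^ (b + 3)) = (b * (b + 4)) * ((j + 1) * 2) ^ (b + 3) := by ring
    _ ≤ 2 ^ (b + 3) * ((j + 1) * 2) ^ (b + 3) := Nat.mul_le_mul_right _ h2
    _ = (4 * j + 4) ^ (b + 3) := by rw [← mul_pow]; congr 1; ring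

theorem exists_next (f : ℕ → (ℕ ≃. ℕ)) (j b : ℕ) (h : ℕ → ℕ → ℕ) :
    ∃ c : ℕ → ℕ, (∀ z, c z < 4 * j + 5) ∧ ∀ G ∈ Pats f j b h, ∃ p ∈ G, c p.1 ≠ p.2 := by
  classical
  have hfin : ∀ v, {G | G ∈ Pats f j b h ∧ v ∈ Avoid.dom G}.Finite :=
    fun v => (Set.finite_range _).subset (pats_sub f j b h v)
  refine Avoid.exists_avoid (Pats f j b h) (b + 3) (4 * j + 4) (by omega) ?_ hfin ?_
  · rintro G ⟨a, hab, p, w, hp, rfl⟩
    rw [dom_pat, Finset.card_image_of_injOn, Finset.card_range]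
    intro t ht t' ht' hpt
    have h1 : t < b + 4 := by simpa using ht
    have h2 : t' < b + 4 := by simpa using ht'
    exact hp.2 t t' (by omega) (by omega) hpt
  · intro v
    refine le_trans (Set.ncard_le_ncard (pats_sub f j b h v) (Set.finite_range _)) ?_
    refine le_trans ?_ (count_le j b)
    rw [← Set.image_univ]
    refine le_trans (Set.ncard_image_le Set.finite_univ) ?_
    rw [Set.ncard_univ, Nat.card_eq_fintype_card]

/-- The successive choice of the colourings. -/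
noncomputable def build (f : ℕ → (ℕ ≃. ℕ)) (j : ℕ) : ℕ → ℕ → ℕ :=
  WellFounded.fix (C := fun _ => ℕ → ℕ) Nat.lt_wfRel.wf
    (fun b ih => Classical.choose
      (exists_next f j b (fun a => if h : a < b then ih a h else fun _ => 0)))

theorem build_spec (f : ℕ → (ℕ ≃. ℕ)) (j b : ℕ) :
    (∀ z, build f j b z < 4 * j + 5) ∧ ∀ a, a < b → ∀ p w, IsPath f j b p w →
      ∃ t, t < b + 4 ∧ build f j b (p t) ≠ build f j a (p t) := by
  have h0 : build f j b = Classical.choose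
      (exists_next f j b (fun a => if _h : a < b then build f j a else fun _ => 0)) := by
    unfold build
    rw [WellFounded.fix_eq]
  have h1 := Classical.choose_spec
      (exists_next f j b (fun a => if _h : a < b then build f j a else fun _ => 0))
  rw [← h0] at h1
  refine ⟨h1.1, ?_⟩
  intro a hab p w hp
  obtain ⟨q, hq, hne⟩ := h1.2 _ ⟨a, hab, p, w, hp, rfl⟩
  unfold pat at hq
  obtain ⟨t, ht, rfl⟩ := Finset.mem_image.1 hq
  refine ⟨t, by simpa using ht, ?_⟩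
  simpa [hab] using hne

end Col

theorem exists_colouring (f : ℕ → (ℕ ≃. ℕ)) :
    ∃ c : ℕ → ℕ → ℕ → ℕ, (∀ j a z, c j a z < 4 * j + 5) ∧ NoAgree f c := by
  refine ⟨fun j => Col.build f j, fun j a z => (Col.build_spec f j a).1 z, ?_⟩
  intro j a b hab p w hp hinj hag
  obtain ⟨t, ht, hne⟩ := (Col.build_spec f j b).2 a hab p w ⟨hp, hinj⟩
  exact hne (hag t (by omega)).symm

end Pool.Agent.W_MP_d5b253_lc
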