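import Pool.Agent.W_MP_d5b253_lc.Stage

/-!
Construction of the colouring of pairs.
-/

set_option autoImplicit false

open Finset

namespace Pool.Agent.W_MP_d5b253_lc

/-- A bound for one step from `[0, x]` with letters `≤ m`. -/
def grow (φ : ℕ → ℕ → ℕ) (m x : ℕ) : ℕ :=
  (range (x + 1)).sup (fun y => (range (m + 1)).sup (fun s => φ s y)) + x + 1

theorem step_lt_grow (φ : ℕ → ℕ → ℕ) (m s x y : ℕ) (hs : s ≤ m) (hy : y ≤ x) :
    φ s y < grow φ m x := by
  have h1 : φ s y ≤ (range (m + 1)).sup (fun s => φ s y) :=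
    Finset.le_sup (f := fun s => φ s y) (Finset.mem_range.2 (by omega))
  have h2 : (range (m + 1)).sup (fun s => φ s y) ≤
      (range (x + 1)).sup (fun y => (range (m + 1)).sup (fun s => φ s y)) :=
    Finset.le_sup (f := fun y => (range (m + 1)).sup (fun s => φ s y))
      (Finset.mem_range.2 (by omega))
  unfold grow
  omega

theorem lt_grow (φ : ℕ → ℕ → ℕ) (m x : ℕ) : x < grow φ m x := by
  unfold grow; omega

theorem grow_mono (φ : ℕ → ℕ → ℕ) (m : ℕ) : Monotone (grow φ m) := by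
  intro x y hxy
  unfold grow
  have h : (range (x + 1)).sup (fun y => (range (m + 1)).sup (fun s => φ s y)) ≤
      (range (y + 1)).sup (fun y => (range (m + 1)).sup (fun s => φ s y)) := by
    apply Finset.sup_mono
    apply Finset.range_subset_range.2
    omega
  omega

theorem grow_mono_left (φ : ℕ → ℕ → ℕ) {m m' : ℕ} (h : m ≤ m') (x : ℕ) :
    grow φ m x ≤ grow φ m' x := by
  unfold grow
  have h2 : (range (x + 1)).sup (fun y => (range (m + 1)).sup (fun s => φ s y)) ≤
      (range (x + 1)).sup (fun y => (range (m' + 1)).sup (fun s => φ s y)) := by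
    apply Finset.sup_mono_fun
    intro y _
    apply Finset.sup_mono
    apply Finset.range_subset_range.2
    omega
  omega

theorem iter_mono (φ : ℕ → ℕ → ℕ) (m k : ℕ) : Monotone ((grow φ m)^[k]) :=
  (grow_mono φ m).iterate k

theorem iter_mono_left (φ : ℕ → ℕ → ℕ) (m : ℕ) {k k' : ℕ} (h : k ≤ k') (x : ℕ) :
    (grow φ m)^[k] x ≤ (grow φ m)^[k'] x := by
  obtain ⟨d, rfl⟩ := Nat.exists_eq_add_of_le h
  induction d with
  | zero => simp
  | succ d ih =>
    refine (ih (by omega)).trans ?_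
    rw [← add_assoc, Function.iterate_succ_apply']
    exact (lt_grow φ m _).le

theorem le_iter (φ : ℕ → ℕ → ℕ) (m k x : ℕ) : x ≤ (grow φ m)^[k] x :=
  iter_mono_left φ m (Nat.zero_le k) x

/-- The block boundaries. -/
def bd (φ : ℕ → ℕ → ℕ) (m : ℕ) : ℕ → ℕ
  | 0 => 0
  | l + 1 => (grow φ m)^[l + 1] (bd φ m l) + 1

theorem bd_strictMono (φ : ℕ → ℕ → ℕ) (m : ℕ) : StrictMono (bd φ m) := by
  apply strictMono_nat_of_lt_succ
  intro l
  rw [bd]
  exact Nat.lt_succ_of_le (le_iter φ m _ _)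

theorem le_bd (φ : ℕ → ℕ → ℕ) (m l : ℕ) : l ≤ bd φ m l := (bd_strictMono φ m).id_le l

/-- Walk condition for one coordinate. -/
def Walk1 (φ : ℕ → ℕ → ℕ) (m a : ℕ) (c : ℕ → ℕ) : Prop :=
  ∀ k < a, (∃ s ≤ m, φ s (c k) = c (k + 1)) ∧ ∃ r ≤ m, φ r (c (k + 1)) = c k

theorem walk_bound (φ : ℕ → ℕ → ℕ) (m a : ℕ) (c : ℕ → ℕ) (h : Walk1 φ m a c) (d : ℕ) :
    ∀ k, k + d ≤ a → c (k + d) ≤ (grow φ m)^[d] (c k) ∧ c k ≤ (grow φ m)^[d] (c (k + d)) := by
  induction d with
  | zero => intro k _; simp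
  | succ d ih =>
    intro k hk
    constructor
    · obtain ⟨h1, _⟩ := ih k (by omega)
      obtain ⟨⟨s, hs, h2⟩, _⟩ := h (k + d) (by omega)
      rw [← add_assoc, ← h2, Function.iterate_succ_apply']
      exact (step_lt_grow φ m s _ _ hs h1).le
    · obtain ⟨_, h1⟩ := ih (k + 1) (by omega)
      obtain ⟨_, r, hr, h2⟩ := h k (by omega)
      rw [← h2, Function.iterate_succ_apply']
      have h3 : k + 1 + d = k + (d + 1) := by omega
      rw [h3] at h1
      exact (step_lt_grow φ m r _ _ hr h1).le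

theorem walk_bound' (φ : ℕ → ℕ → ℕ) (m a : ℕ) (c : ℕ → ℕ) (h : Walk1 φ m a c) (k k' : ℕ)
    (hk : k ≤ a) (hk' : k' ≤ a) : c k' ≤ (grow φ m)^[a] (c k) := by
  rcases le_total k k' with h1 | h1
  · obtain ⟨d, rfl⟩ := Nat.exists_eq_add_of_le h1
    exact (walk_bound φ m a c h d k hk').1.trans (iter_mono_left φ m (by omega) _)
  · obtain ⟨d, rfl⟩ := Nat.exists_eq_add_of_le h1
    exact (walk_bound φ m a c h d k' hk).2.trans (iter_mono_left φ m (by omega) _)

/-- A long walk started far out stays in two consecutive blocks. -/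
theorem locate (φ : ℕ → ℕ → ℕ) (m a x : ℕ) (c : ℕ → ℕ) (h : Walk1 φ m a c) (hax : a ≤ x + 1)
    (h0 : bd φ m (x + 4) ≤ c 0) :
    ∃ l, x + 3 ≤ l ∧ ∀ k ≤ a, bd φ m l ≤ c k ∧ c k < bd φ m (l + 2) := by
  obtain ⟨k0, hk0, hmin⟩ := Finset.exists_min_image (range (a + 1)) c ⟨0, by simp⟩
  have hk0' : k0 ≤ a := by simpa [Nat.lt_succ_iff] using hk0
  -- the block of the minimum
  have hex : ∃ l, c k0 < bd φ m (l + 1) := ⟨c k0, by
    have := le_bd φ m (c k0 + 1); omega⟩
  classical
  obtain ⟨l, hl⟩ : ∃ l, l = Nat.find hex := ⟨_, rfl⟩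
  have h1 : c k0 < bd φ m (l + 1) := by rw [hl]; exact Nat.find_spec hex
  have h2 : bd φ m l ≤ c k0 := by
    cases l with
    | zero => simp [bd]
    | succ l' =>
      have h3 := Nat.find_min hex (m := l') (by omega)
      omega
  have h4 : x + 3 ≤ l := by
    by_contra hlt
    have h5 : c k0 ≤ bd φ m (x + 3) := by
      have : bd φ m (l + 1) ≤ bd φ m (x + 3) := (bd_strictMono φ m).monotone (by omega)
      omega
    have h6 := walk_bound' φ m a c h k0 0 hk0' (by omega)
    have h7 : (grow φ m)^[a] (c k0) ≤ (grow φ m)^[x + 3 + 1] (bd φ m (x + 3)) :=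
      (iter_mono φ m a h5).trans (iter_mono_left φ m (by omega) _)
    have h8 : bd φ m (x + 4) = (grow φ m)^[x + 3 + 1] (bd φ m (x + 3)) + 1 := rfl
    omega
  refine ⟨l, h4, ?_⟩
  intro k hk
  constructor
  · exact h2.trans (hmin k (by simpa [Nat.lt_succ_iff] using hk))
  · have h6 := walk_bound' φ m a c h k0 k hk0' hk
    have h7 : (grow φ m)^[a] (c k0) ≤ (grow φ m)^[l + 1 + 1] (bd φ m (l + 1)) :=
      (iter_mono φ m a h1.le).trans (iter_mono_left φ m (by omega) _)
    have h8 : bd φ m (l + 2) = (grow φ m)^[l + 1 + 1] (bd φ m (l + 1)) + 1 := rfl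
    omega

/-- The stage colouring chosen by the stage lemma. -/
noncomputable def stf (φ : ℕ → ℕ → ℕ) (m l : ℕ) (F : ℕ → ℕ → Fin (KK m)) :
    ℕ × ℕ → Fin (KK m) :=
  (stage φ m (bd φ m (l + 2)) F).choose

theorem stf_spec (φ : ℕ → ℕ → ℕ) (m l : ℕ) (F : ℕ → ℕ → Fin (KK m)) :
    ∀ b a p q w, Valid φ m (bd φ m (l + 2)) b a p q w →
      ¬ BadEv φ F b a p q w (stf φ m l F) :=
  (stage φ m (bd φ m (l + 2)) F).choose_spec

/-- The successive approximations of the colouring of system `ε`. -/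
noncomputable def HH (φ : ℕ → ℕ → ℕ) (m ε : ℕ) : ℕ → ℕ → ℕ → Fin (KK m)
  | 0 => fun _ _ => ⟨0, KK_pos m⟩
  | j + 1 => fun a b =>
      if b < bd φ m (2 * j + ε) then HH φ m ε j a b else stf φ m (2 * j + ε) (HH φ m ε j) (a, b)

theorem HH_succ (φ : ℕ → ℕ → ℕ) (m ε j a b : ℕ) : HH φ m ε (j + 1) a b =
    if b < bd φ m (2 * j + ε) then HH φ m ε j a b
    else stf φ m (2 * j + ε) (HH φ m ε j) (a, b) := rfl

theorem HH_stable (φ : ℕ → ℕ → ℕ) (m ε j d a b : ℕ) (hb : b < bd φ m (2 * j + ε)) :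
    HH φ m ε (j + d) a b = HH φ m ε j a b := by
  induction d with
  | zero => rfl
  | succ d ih =>
    rw [← add_assoc, HH_succ]
    rw [if_pos]
    · exact ih
    · exact lt_of_lt_of_le hb ((bd_strictMono φ m).monotone (by omega))

/-- The colouring of system `ε`. -/
noncomputable def ch (φ : ℕ → ℕ → ℕ) (m ε a b : ℕ) : Fin (KK m) := HH φ m ε (b + 1) a b

theorem ch_eq (φ : ℕ → ℕ → ℕ) (m ε j a b : ℕ) (hb : b < bd φ m (2 * j + ε)) :
    ch φ m ε a b = HH φ m ε j a b := by
  unfold ch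
  rcases le_total j (b + 1) with h | h
  · obtain ⟨d, hd⟩ := Nat.exists_eq_add_of_le h
    rw [hd, HH_stable φ m ε j d a b hb]
  · obtain ⟨d, hd⟩ := Nat.exists_eq_add_of_le h
    rw [hd, HH_stable φ m ε (b + 1) d a b]
    have := le_bd φ m (2 * (b + 1) + ε)
    omega

/-- The colouring of pairs. -/
noncomputable def chi (φ : ℕ → ℕ → ℕ) (m a b : ℕ) : ℕ :=
  Nat.pair (ch φ m 0 a b : ℕ) (ch φ m 1 a b : ℕ)

theorem chi_lt (φ : ℕ → ℕ → ℕ) (m a b : ℕ) : chi φ m a b < (KK m) ^ 2 := by
  unfold chi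
  refine lt_of_lt_of_le (Nat.pair_lt_max_add_one_sq _ _) ?_
  apply Nat.pow_le_pow_left
  have h1 := (ch φ m 0 a b).2
  have h2 := (ch φ m 1 a b).2
  rcases max_cases (ch φ m 0 a b : ℕ) (ch φ m 1 a b : ℕ) with h | h <;> omega

theorem ch_eq_of_chi (φ : ℕ → ℕ → ℕ) (m a b a' b' ε : ℕ) (hε : ε < 2)
    (h : chi φ m a b = chi φ m a' b') : ch φ m ε a b = ch φ m ε a' b' := by
  unfold chi at h
  rw [Nat.pair_eq_pair] at h
  have : ε = 0 ∨ ε = 1 := by omega
  rcases this with rfl | rfl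
  · exact Fin.ext h.1
  · exact Fin.ext h.2

/-- The sparseness function. -/
def gg (φ : ℕ → ℕ → ℕ) (m x : ℕ) : ℕ := bd φ m (x + 4)

theorem walk_of_pos (φ : ℕ → ℕ → ℕ) (m a x : ℕ) (w : List ℕ) (hw : w ∈ words m a)
    (h : ∀ k < a, ∃ r ≤ m, φ r (pos φ w (k + 1) x) = pos φ w k x) :
    Walk1 φ m a (fun k => pos φ w k x) := by
  intro k hk
  refine ⟨?_, h k hk⟩
  rw [mem_words] at hw
  have hk' : k < w.length := by omega
  refine ⟨w[k], hw.2 _ (List.getElem_mem hk'), ?_⟩
  simp only [pos]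
  rw [List.take_succ_eq_append_getElem hk', ev_append]
  simp

/-- **The main property of the colouring.** -/
theorem chi_spec (φ : ℕ → ℕ → ℕ) (m a b c : ℕ) (w : List ℕ) (hw : w ∈ words m a)
    (h2w : ∀ k < a, ∃ r ≤ m, φ r (pos φ w (k + 1) a) = pos φ w k a ∧
      φ r (pos φ w (k + 1) b) = pos φ w k b ∧ φ r (pos φ w (k + 1) c) = pos φ w k c)
    (hab : gg φ m a ≤ b) (hbc : gg φ m b ≤ c)
    (hlt : ∀ k ≤ a, pos φ w k a < pos φ w k b ∧ pos φ w k b < pos φ w k c)
    (hinj : ∀ k ≤ a, ∀ k' ≤ a, pos φ w k a = pos φ w k' a → pos φ w k b = pos φ w k' b → k = k')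
    (hdet : ∀ k ≤ a, ∀ k' ≤ a, pos φ w k b = pos φ w k' b → pos φ w k c = pos φ w k' c) :
    ∃ k ≤ a, chi φ m (pos φ w k a) (pos φ w k b) ≠ chi φ m (pos φ w k b) (pos φ w k c) := by
  by_contra hcon
  push Not at hcon
  have hlen : w.length = a := ((mem_words _ _ _).1 hw).1
  have hWb : Walk1 φ m a (fun k => pos φ w k b) :=
    walk_of_pos φ m a b w hw (fun k hk => by
      obtain ⟨r, hr, _, h, _⟩ := h2w k hk; exact ⟨r, hr, h⟩)
  have hWc : Walk1 φ m a (fun k => pos φ w k c) :=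
    walk_of_pos φ m a c w hw (fun k hk => by
      obtain ⟨r, hr, _, _, h⟩ := h2w k hk; exact ⟨r, hr, h⟩)
  have hab' : a < b := by
    have := hlt 0 (by omega); simpa using this.1
  by_cases hcase : a + 1 ≤ 2 * ((range (a + 1)).image (fun k => pos φ w k b)).card
  · -- type I
    obtain ⟨l, hl, hblock⟩ := locate φ m a b (fun k => pos φ w k c) hWc (by omega)
      (by simpa [gg] using hbc)
    have hPl : ∀ k ≤ a, pos φ w k b < bd φ m l := by
      intro k hk
      have h1 := walk_bound' φ m a (fun k => pos φ w k b) hWb 0 k (by omega) hk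
      simp only [pos_zero] at h1
      have h2 : b ≤ bd φ m (b + 2) := le_trans (by omega) (le_bd φ m (b + 2))
      have h3 : (grow φ m)^[a] b ≤ (grow φ m)^[b + 2 + 1] (bd φ m (b + 2)) :=
        (iter_mono φ m a h2).trans (iter_mono_left φ m (by omega) _)
      have h4 : bd φ m (b + 3) = (grow φ m)^[b + 2 + 1] (bd φ m (b + 2)) + 1 := rfl
      have h5 : bd φ m (b + 3) ≤ bd φ m l := (bd_strictMono φ m).monotone hl
      omega
    obtain ⟨j, ε, hε, rfl⟩ : ∃ j ε, ε < 2 ∧ l = 2 * j + ε :=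
      ⟨l / 2, l % 2, Nat.mod_lt _ (by norm_num), by omega⟩
    have hvalid : Valid φ m (bd φ m (2 * j + ε + 2)) true a b c w := by
      have hmono : bd φ m (2 * j + ε) ≤ bd φ m (2 * j + ε + 2) :=
        (bd_strictMono φ m).monotone (by omega)
      refine ⟨hw, ?_, ?_, ?_, ?_, by simp⟩
      · intro k hk
        obtain ⟨r, hr, _, h3, h4⟩ := h2w k (by omega)
        exact ⟨r, hr, h3, h4⟩
      · have := hPl 0 (by omega)
        simp only [pos_zero] at this
        omega
      · intro k hk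
        exact ⟨by have := hPl k hk; omega, (hblock k hk).2⟩
      · intro _
        refine hcase.trans ?_
        apply Nat.mul_le_mul_left
        have h6 : (range (a + 1)).image (fun k => pos φ w k b) =
            (supp φ a b c w).image Prod.fst := by
          unfold supp
          rw [Finset.image_image]
          rfl
        rw [h6]
        exact Finset.card_image_le
    have hbad := stf_spec φ m (2 * j + ε) (HH φ m ε j) true a b c w hvalid
    apply hbad
    unfold BadEv
    simp only [if_true]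
    intro k hk
    have h1 : ch φ m ε (pos φ w k b) (pos φ w k c) =
        stf φ m (2 * j + ε) (HH φ m ε j) (pos φ w k b, pos φ w k c) := by
      rw [ch_eq φ m ε (j + 1)]
      · rw [HH_succ, if_neg]
        have := (hblock k hk).1
        omega
      · have := (hblock k hk).2
        have h7 : 2 * (j + 1) + ε = 2 * j + ε + 2 := by ring
        rw [h7]; exact this
    have h2 : ch φ m ε (pos φ w k a) (pos φ w k b) = HH φ m ε j (pos φ w k a) (pos φ w k b) :=
      ch_eq φ m ε j _ _ (hPl k hk)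
    rw [← h1, ← h2]
    exact (ch_eq_of_chi φ m _ _ _ _ ε hε (hcon k hk)).symm
  · -- type II
    obtain ⟨l, hl, hblock⟩ := locate φ m a a (fun k => pos φ w k b) hWb (by omega)
      (by simpa [gg] using hab)
    obtain ⟨j, ε, hε, rfl⟩ : ∃ j ε, ε < 2 ∧ l = 2 * j + ε :=
      ⟨l / 2, l % 2, Nat.mod_lt _ (by norm_num), by omega⟩
    have hch : ∀ k ≤ a, ch φ m ε (pos φ w k a) (pos φ w k b) =
        stf φ m (2 * j + ε) (HH φ m ε j) (pos φ w k a, pos φ w k b) := by
      intro k hk
      rw [ch_eq φ m ε (j + 1)]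
      · rw [HH_succ, if_neg]
        have := (hblock k hk).1
        omega
      · have := (hblock k hk).2
        have h7 : 2 * (j + 1) + ε = 2 * j + ε + 2 := by ring
        rw [h7]; exact this
    have hvalid : Valid φ m (bd φ m (2 * j + ε + 2)) false a a b w := by
      refine ⟨hw, ?_, ?_, ?_, by simp, ?_⟩
      · intro k hk
        obtain ⟨r, hr, h3, h4, _⟩ := h2w k (by omega)
        exact ⟨r, hr, h3, h4⟩
      · have := (hblock 0 (by omega)).2
        simp only [pos_zero] at this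
        omega
      · intro k hk
        have h8 := (hblock k hk).2
        have h9 := (hlt k hk).1
        exact ⟨h9.trans h8, h8⟩
      · intro _
        refine ⟨rfl, ?_, ?_⟩
        · unfold supp
          rw [Finset.card_image_of_injOn, Finset.card_range]
          intro k hk k' hk' heq
          simp only [Finset.coe_range, Set.mem_Iio] at hk hk'
          simp only [Prod.mk.injEq] at heq
          exact hinj k (by omega) k' (by omega) heq.1 heq.2
        · have h6 : (range (a + 1)).image (fun k => pos φ w k b) =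
              (supp φ a a b w).image Prod.snd := by
            unfold supp
            rw [Finset.image_image]
            rfl
          rw [← h6]
          omega
    have hbad := stf_spec φ m (2 * j + ε) (HH φ m ε j) false a a b w hvalid
    apply hbad
    unfold BadEv
    simp only [Bool.false_eq_true, if_false]
    intro v hv v' hv' hvv'
    obtain ⟨k, hk, rfl⟩ := (mem_supp _ _ _ _ _ _).1 hv
    obtain ⟨k', hk', rfl⟩ := (mem_supp _ _ _ _ _ _).1 hv'
    simp only at hvv'
    rw [← hch k hk, ← hch k' hk']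
    have h1 := ch_eq_of_chi φ m _ _ _ _ ε hε (hcon k hk)
    have h2 := ch_eq_of_chi φ m _ _ _ _ ε hε (hcon k' hk')
    rw [h1, h2, hvv', hdet k hk k' hk' hvv']

end Pool.Agent.W_MP_d5b253_lc
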