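import Pool.Agent.W_MP_d5b253_lc.Color

/-!
# The finite equivalence relations
-/

set_option autoImplicit false

namespace Pool.Agent.W_MP_d5b253_lc

open Finset

variable {G : Type*} [Group G] [MulAction G ℕ]

/-- products of at most `r` elements of `S` -/
def Wd (S : Finset G) (r : ℕ) : Set G :=
  {γ | ∃ l : List G, (∀ s ∈ l, s ∈ S) ∧ l.length ≤ r ∧ l.prod = γ}

omit [MulAction G ℕ] in
theorem Wd_mono {S : Finset G} {r r' : ℕ} (h : r ≤ r') : Wd S r ⊆ Wd S r' := by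
  rintro γ ⟨l, h1, h2, h3⟩
  exact ⟨l, h1, h2.trans h, h3⟩

omit [Group G] [MulAction G ℕ] in
theorem lists_finite (S : Finset G) (r : ℕ) :
    {l : List G | (∀ s ∈ l, s ∈ S) ∧ l.length ≤ r}.Finite := by
  have h := (List.finite_length_le S r).image (List.map (Subtype.val : S → G))
  apply h.subset
  rintro l ⟨h1, h2⟩
  refine ⟨l.attachWith (· ∈ S) h1, ?_, ?_⟩
  · simpa using h2
  · simp

omit [MulAction G ℕ] in
theorem Wd_finite (S : Finset G) (r : ℕ) : (Wd S r).Finite := by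
  apply ((lists_finite S r).image List.prod).subset
  rintro γ ⟨l, h1, h2, h3⟩
  exact ⟨l, ⟨h1, h2⟩, h3⟩

omit [MulAction G ℕ] in
theorem Wd_inv_mul {S : Finset G} (hS : ∀ s ∈ S, s⁻¹ ∈ S) {l l' : List G}
    (h : ∀ s ∈ l, s ∈ S) (h' : ∀ s ∈ l', s ∈ S) :
    l.prod⁻¹ * l'.prod ∈ Wd S (l.length + l'.length) := by
  refine ⟨(l.map fun x => x⁻¹).reverse ++ l', ?_, ?_, ?_⟩
  · intro s hs
    rw [List.mem_append, List.mem_reverse, List.mem_map] at hs
    rcases hs with ⟨t, ht, rfl⟩ | hs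
    · exact hS _ (h t ht)
    · exact h' s hs
  · simp
  · rw [List.prod_append, List.prod_inv_reverse]

/-- The condition on four consecutive elements. -/
def Gd (S : Finset G) (f : ℕ → ℕ → ℕ) (x y z z' : ℕ) : Prop :=
  x < y ∧ f x z = f y z ∧ (∀ γ ∈ Wd S (2 * y), γ • z = z ↔ γ • z' = z') ∧
    ∀ γ ∈ Wd S (2 * y), γ • z = z → γ • x = x ∧ γ • y = y

/-- The domain of the `n`-th relation. -/
def Dm (S : ℕ → Finset G) (f : ℕ → ℕ → ℕ → ℕ) (n : ℕ) (x : ℕ → ℕ) : Prop :=
  ∀ k ≥ n, ∀ m ≥ n, m ≤ k → Gd (S m) (f m) (x k) (x (k + 1)) (x (k + 2)) (x (k + 3))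

theorem Dm.mono {S : ℕ → Finset G} {f : ℕ → ℕ → ℕ → ℕ} {n n' : ℕ} {x : ℕ → ℕ}
    (h : Dm S f n x) (hn : n ≤ n') : Dm S f n' x :=
  fun k hk m hm hmk => h k (hn.trans hk) m (hn.trans hm) hmk

theorem Dm.lt {S : ℕ → Finset G} {f : ℕ → ℕ → ℕ → ℕ} {n : ℕ} {x : ℕ → ℕ}
    (h : Dm S f n x) {k : ℕ} (hk : n ≤ k) : x k < x (k + 1) :=
  (h k hk k hk le_rfl).1

theorem Dm.le {S : ℕ → Finset G} {f : ℕ → ℕ → ℕ → ℕ} {n : ℕ} {x : ℕ → ℕ}
    (h : Dm S f n x) {k l : ℕ} (hk : n ≤ k) (hl : k ≤ l) : x k ≤ x l := by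
  induction l, hl using Nat.le_induction with
  | base => exact le_rfl
  | succ l hl ih => exact ih.trans (h.lt (hk.trans hl)).le

/-- equality of tails -/
def TEq (n : ℕ) (x y : ℕ → ℕ) : Prop := ∀ k ≥ n, x k = y k

theorem TEq.refl (n : ℕ) (x : ℕ → ℕ) : TEq n x x := fun _ _ => rfl
theorem TEq.symm {n : ℕ} {x y : ℕ → ℕ} (h : TEq n x y) : TEq n y x := fun k hk => (h k hk).symm
theorem TEq.trans {n : ℕ} {x y z : ℕ → ℕ} (h : TEq n x y) (h' : TEq n y z) : TEq n x z :=
  fun k hk => (h k hk).trans (h' k hk)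
theorem TEq.smul {n : ℕ} {x y : ℕ → ℕ} (h : TEq n x y) (g : G) : TEq n (g • x) (g • y) := by
  intro k hk
  rw [Pi.smul_apply, Pi.smul_apply, h k hk]
theorem TEq.mono {n n' : ℕ} {x y : ℕ → ℕ} (h : TEq n x y) (hn : n ≤ n') : TEq n' x y :=
  fun k hk => h k (hn.trans hk)

theorem TEq.dm {S : ℕ → Finset G} {f : ℕ → ℕ → ℕ → ℕ} {n : ℕ} {x y : ℕ → ℕ}
    (h : TEq n x y) (hx : Dm S f n x) : Dm S f n y := by
  intro k hk m hm hmk
  rw [← h k hk, ← h (k + 1) (by omega), ← h (k + 2) (by omega), ← h (k + 3) (by omega)]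
  exact hx k hk m hm hmk

/-- one move -/
def Stp (S : ℕ → Finset G) (f : ℕ → ℕ → ℕ → ℕ) (n : ℕ) (x y : ℕ → ℕ) : Prop :=
  Dm S f n x ∧ Dm S f n y ∧ ∃ s ∈ S n, TEq n y (s • x)

/-- the `n`-th relation on sequences -/
def Fs (S : ℕ → Finset G) (f : ℕ → ℕ → ℕ → ℕ) (n : ℕ) : (ℕ → ℕ) → (ℕ → ℕ) → Prop :=
  Relation.ReflTransGen (Stp S f n)

/-- A chain: all partial products stay in the domain. -/
def Ch (S : ℕ → Finset G) (f : ℕ → ℕ → ℕ → ℕ) (n : ℕ) (x : ℕ → ℕ) : List G → Prop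
  | [] => Dm S f n x
  | (s :: l) => s ∈ S n ∧ Ch S f n x l ∧ Dm S f n ((s :: l).prod • x)

section

variable {S : ℕ → Finset G} {f : ℕ → ℕ → ℕ → ℕ} {n : ℕ} {x : ℕ → ℕ}

theorem Ch.base : ∀ {l : List G}, Ch S f n x l → Dm S f n x
  | [], h => h
  | (_ :: _), h => Ch.base h.2.1

theorem Ch.last : ∀ {l : List G}, Ch S f n x l → Dm S f n (l.prod • x)
  | [], h => by rw [List.prod_nil, one_smul]; exact h
  | (_ :: _), h => h.2.2

theorem Ch.mem : ∀ {l : List G}, Ch S f n x l → ∀ s ∈ l, s ∈ S n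
  | [], _, s, hs => absurd hs (by simp)
  | (t :: l), h, s, hs => by
    rcases List.mem_cons.1 hs with rfl | hs
    · exact h.1
    · exact Ch.mem h.2.1 s hs

theorem Ch.suffix : ∀ {u v : List G}, Ch S f n x (u ++ v) → Ch S f n x v
  | [], _, h => h
  | (_ :: _), _, h => Ch.suffix (by exact h.2.1)

theorem Ch.replace {v v' : List G} (hv' : Ch S f n x v') (he : TEq n (v.prod • x) (v'.prod • x)) :
    ∀ {u : List G}, Ch S f n x (u ++ v) →
      Ch S f n x (u ++ v') ∧ TEq n ((u ++ v).prod • x) ((u ++ v').prod • x)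
  | [], _ => ⟨hv', he⟩
  | (s :: u), h => by
    obtain ⟨h1, h2, h3⟩ := h
    obtain ⟨h4, h5⟩ := Ch.replace hv' he (u := u) h2
    have h6 : TEq n ((s :: (u ++ v)).prod • x) ((s :: (u ++ v')).prod • x) := by
      rw [List.prod_cons, List.prod_cons, mul_smul, mul_smul]
      exact h5.smul s
    exact ⟨⟨h1, h4, h6.dm h3⟩, h6⟩

theorem Fs_iff (h1S : (1 : G) ∈ S n) (x y : ℕ → ℕ) :
    Fs S f n x y ↔ x = y ∨ ∃ l : List G, Ch S f n x l ∧ TEq n y (l.prod • x) := by
  constructor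
  · intro h
    induction h with
    | refl => exact Or.inl rfl
    | tail _ hstep ih =>
      rename_i u v _
      right
      obtain ⟨h1, h2, s, hs, h3⟩ := hstep
      rcases ih with rfl | ⟨l, hl, he⟩
      · refine ⟨[s], ⟨hs, h1, ?_⟩, ?_⟩
        · rw [List.prod_singleton]; exact h3.dm h2
        · rw [List.prod_singleton]; exact h3
      · have h4 : TEq n v ((s :: l).prod • x) := by
          rw [List.prod_cons, mul_smul]
          exact h3.trans (he.smul s)
        exact ⟨s :: l, ⟨hs, hl, h4.dm h2⟩, h4⟩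
  · rintro (rfl | ⟨l, hl, he⟩)
    · exact Relation.ReflTransGen.refl
    · induction l generalizing y with
      | nil =>
        have h1 : Dm S f n x := hl
        rw [List.prod_nil] at he
        have he' : TEq n x y := by
          intro k hk
          have := he k hk
          rw [this, Pi.smul_apply, one_smul]
        exact Relation.ReflTransGen.single ⟨h1, he'.dm h1, 1, h1S, he⟩
      | cons s l ih =>
        obtain ⟨h1, h2, h3⟩ := hl
        have h4 := ih (l.prod • x) h2 (TEq.refl _ _)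
        refine Relation.ReflTransGen.tail h4 ⟨h2.last, he.symm.dm h3, s, h1, ?_⟩
        rw [List.prod_cons, mul_smul] at he
        exact he

theorem Stp.symm (hS : ∀ s ∈ S n, s⁻¹ ∈ S n) {x y : ℕ → ℕ} (h : Stp S f n x y) :
    Stp S f n y x := by
  obtain ⟨h1, h2, s, hs, h3⟩ := h
  refine ⟨h2, h1, s⁻¹, hS s hs, ?_⟩
  intro k hk
  rw [Pi.smul_apply, h3 k hk, Pi.smul_apply, inv_smul_smul]

theorem Fs.equivalence (hS : ∀ s ∈ S n, s⁻¹ ∈ S n) : Equivalence (Fs S f n) where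
  refl _ := Relation.ReflTransGen.refl
  symm := by
    intro x y h
    have h0 : Std.Symm (Stp S f n) := ⟨fun _ _ h => h.symm hS⟩
    exact (Relation.ReflTransGen.stdSymm (r := Stp S f n)).symm _ _ h
  trans := Relation.ReflTransGen.trans

theorem Fs.mono (hS : S n ⊆ S (n + 1)) {x y : ℕ → ℕ} (h : Fs S f n x y) :
    Fs S f (n + 1) x y := by
  refine Relation.ReflTransGen.mono (p := Stp S f (n + 1)) ?_ _ _ h
  rintro x y ⟨h1, h2, s, hs, h3⟩
  exact ⟨h1.mono (Nat.le_succ _), h2.mono (Nat.le_succ _), s, hS hs, h3.mono (Nat.le_succ _)⟩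

/-- A short word fixing the third element fixes the whole tail. -/
theorem fix_tail (hx : Dm S f n x) {γ : G} (hγ : γ ∈ Wd (S n) (2 * x (n + 1)))
    (hz : γ • x (n + 2) = x (n + 2)) : TEq n (γ • x) x := by
  have h0 := hx n le_rfl n le_rfl le_rfl
  have key : ∀ k, n + 2 ≤ k → γ • x k = x k := by
    intro k hk
    induction k, hk using Nat.le_induction with
    | base => exact hz
    | succ k hk ih =>
      obtain ⟨j, rfl⟩ : ∃ j, k = j + 2 := ⟨k - 2, by omega⟩
      have h1 := hx j (by omega) n le_rfl (by omega)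
      have h2 : γ ∈ Wd (S n) (2 * x (j + 1)) :=
        Wd_mono (Nat.mul_le_mul_left 2 (hx.le (by omega) (by omega))) hγ
      exact (h1.2.2.1 γ h2).1 ih
  intro k hk
  rw [Pi.smul_apply]
  rcases Nat.lt_or_ge k (n + 2) with h | h
  · have h3 := h0.2.2.2 γ hγ hz
    rcases Nat.lt_or_ge k (n + 1) with h' | h'
    · have : k = n := by omega
      rw [this]; exact h3.1
    · have : k = n + 1 := by omega
      rw [this]; exact h3.2
  · exact key k h

/-- Every chain can be shortened. -/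
theorem short_chain (hS : ∀ s ∈ S n, s⁻¹ ∈ S n)
    (hf : ∀ x y z : ℕ, x < y → ∀ p : ℕ → G, p 0 = 1 →
      (∀ i < y, p (i + 1) * (p i)⁻¹ ∈ S n) →
      (∀ i ≤ y, ∀ j ≤ y, p i • z = p j • z → i = j) →
      ∃ i ≤ y, f n (p i • x) (p i • z) ≠ f n (p i • y) (p i • z))
    {l : List G} (hl : Ch S f n x l) :
    ∃ l' : List G, Ch S f n x l' ∧ l'.length ≤ x (n + 1) ∧ TEq n (l.prod • x) (l'.prod • x) := by
  classical
  have hex : ∃ t, ∃ l' : List G, Ch S f n x l' ∧ l'.length = t ∧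
      TEq n (l.prod • x) (l'.prod • x) := ⟨_, l, hl, rfl, TEq.refl _ _⟩
  obtain ⟨l', h1, h2, h3⟩ := Nat.find_spec hex
  have hmin := fun t (ht : t < Nat.find hex) => Nat.find_min hex ht
  refine ⟨l', h1, ?_, h3⟩
  by_contra hc
  push Not at hc
  set t := Nat.find hex with ht
  set y := x (n + 1) with hy
  have hdrop : ∀ i, Ch S f n x (l'.drop (t - i)) := by
    intro i
    have : Ch S f n x (l'.take (t - i) ++ l'.drop (t - i)) := by
      rw [List.take_append_drop]; exact h1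
    exact this.suffix
  have hlen : ∀ i ≤ t, (l'.drop (t - i)).length = i := by
    intro i hi
    rw [List.length_drop, h2]
    omega
  have hne : ∀ i j, i < j → j ≤ t →
      ¬ TEq n ((l'.drop (t - i)).prod • x) ((l'.drop (t - j)).prod • x) := by
    intro i j hij hj he
    have h4 : Ch S f n x (l'.take (t - j) ++ l'.drop (t - j)) := by
      rw [List.take_append_drop]; exact h1
    obtain ⟨h5, h6⟩ := Ch.replace (hdrop i) he.symm h4
    rw [List.take_append_drop] at h6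
    have h7 : (l'.take (t - j) ++ l'.drop (t - i)).length < t := by
      rw [List.length_append, hlen i (by omega), List.length_take, h2]
      omega
    exact hmin _ h7 ⟨_, h5, rfl, h3.trans h6⟩
  let p : ℕ → G := fun i => (l'.drop (t - i)).prod
  have hp0 : p 0 = 1 := by
    show (l'.drop (t - 0)).prod = 1
    rw [Nat.sub_zero, ← h2, List.drop_length, List.prod_nil]
  have hpS : ∀ i < y, p (i + 1) * (p i)⁻¹ ∈ S n := by
    intro i hi
    have h4 : t - (i + 1) < l'.length := by omega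
    have h5 : l'.drop (t - (i + 1)) = l'[t - (i + 1)] :: l'.drop (t - i) := by
      rw [List.drop_eq_getElem_cons h4]
      congr 2
      omega
    show (l'.drop (t - (i + 1))).prod * ((l'.drop (t - i)).prod)⁻¹ ∈ S n
    rw [h5, List.prod_cons, mul_inv_cancel_right]
    exact h1.mem _ (List.getElem_mem _)
  have hinj' : ∀ i j, i < j → j ≤ y → p i • x (n + 2) = p j • x (n + 2) → False := by
    intro i j hij hj h
    apply hne i j hij (by omega)
    have h4 : (p i)⁻¹ * p j ∈ Wd (S n) (2 * x (n + 1)) := by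
      have := Wd_inv_mul hS (hdrop i).mem (hdrop j).mem
      rw [hlen i (by omega), hlen j (by omega)] at this
      exact Wd_mono (by omega) this
    have h5 : ((p i)⁻¹ * p j) • x (n + 2) = x (n + 2) := by
      rw [mul_smul, ← h, inv_smul_smul]
    have h6 := (fix_tail h1.base h4 h5).smul (p i)
    rw [smul_smul, mul_inv_cancel_left] at h6
    exact h6.symm
  have hinj : ∀ i ≤ y, ∀ j ≤ y, p i • x (n + 2) = p j • x (n + 2) → i = j := by
    intro i hi j hj h
    rcases lt_trichotomy i j with h' | h' | h'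
    · exact (hinj' i j h' hj h).elim
    · exact h'
    · exact (hinj' j i h' hi h.symm).elim
  obtain ⟨i, hi, hne'⟩ := hf (x n) y (x (n + 2)) (h1.base.lt le_rfl) p hp0 hpS hinj
  exact hne' ((hdrop i).last n le_rfl n le_rfl le_rfl).2.1

/-- Tails of elements related to `x` are finite in number. -/
theorem tails_finite (h1S : (1 : G) ∈ S n) (hS : ∀ s ∈ S n, s⁻¹ ∈ S n)
    (hf : ∀ x y z : ℕ, x < y → ∀ p : ℕ → G, p 0 = 1 →
      (∀ i < y, p (i + 1) * (p i)⁻¹ ∈ S n) →
      (∀ i ≤ y, ∀ j ≤ y, p i • z = p j • z → i = j) →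
      ∃ i ≤ y, f n (p i • x) (p i • z) ≠ f n (p i • y) (p i • z)) (x : ℕ → ℕ) :
    ∃ T : Set (ℕ → ℕ), T.Finite ∧ ∀ y, Fs S f n x y → y ≠ x → ∃ u ∈ T, TEq n y u := by
  refine ⟨(fun l : List G => l.prod • x) '' {l | (∀ s ∈ l, s ∈ S n) ∧ l.length ≤ x (n + 1)},
    (lists_finite _ _).image _, ?_⟩
  intro y hy hne
  rw [Fs_iff h1S] at hy
  rcases hy with h | ⟨l, hl, he⟩
  · exact absurd h.symm hne
  · obtain ⟨l', h1, h2, h3⟩ := short_chain hS hf hl
    exact ⟨_, ⟨l', ⟨h1.mem, h2⟩, rfl⟩, he.trans h3⟩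

end

end Pool.Agent.W_MP_d5b253_lc
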