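import Mathlib

/-!
# Colourings avoiding sparse families of agreement events (Rosenfeld counting)

An event `e` consists of pairs `(a e i, b e i)`, `i ≤ len e`, of variables.  A colouring `f` avoids
`e` if `f (a e i) ≠ f (b e i)` for some `i ≤ len e`.
-/

set_option autoImplicit false

namespace Pool.Agent.W_MP_d5b253_lc

open Finset

section

variable {V I : Type*} [DecidableEq V] {K : ℕ} [NeZero K]
  (good : I → Prop) (len : I → ℕ) (a b : I → ℕ → V)

/-- Colourings of `U` (extended by `0`) avoiding all good events inside `U`. -/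
def Val (U : Finset V) : Set (V → Fin K) :=
  {f | (∀ v, v ∉ U → f v = 0) ∧ ∀ e, good e → (∀ i ≤ len e, a e i ∈ U ∧ b e i ∈ U) →
    ∃ i ≤ len e, f (a e i) ≠ f (b e i)}

theorem supp_finite (U : Finset V) : {f : V → Fin K | ∀ v, v ∉ U → f v = 0}.Finite := by
  apply Set.Finite.subset (Set.finite_range
    (fun (g : U → Fin K) => fun v => if h : v ∈ U then g ⟨v, h⟩ else 0))
  intro f hf
  refine ⟨fun v => f v, ?_⟩
  funext v
  by_cases h : v ∈ U
  · simp [h]
  · simp [h, hf v h]

theorem Val_finite (U : Finset V) : (Val (K := K) good len a b U).Finite :=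
  (supp_finite U).subset fun _ hf => hf.1

variable {good len a b}

/-- The number of extensions that satisfy a given bad event. -/
theorem bad_card {p q : ℕ → V} {N : ℕ} {U : Finset V} {v : V} (hv : v ∉ U)
    (hp : ∀ i ≤ N, ∀ j ≤ N, p i = p j → i = j) (hpq : ∀ i ≤ N, ∀ j ≤ N, p i ≠ q j)
    (hpU : ∀ i ≤ N, p i ∈ insert v U) (hvp : ∃ j ≤ N, p j = v)
    (B : Set (V → Fin K))
    (hB1 : ∀ f ∈ B, ∀ u, u ∉ insert v U → f u = 0)
    (hB2 : ∀ f ∈ B, Function.update f v 0 ∈ Val (K := K) good len a b U)
    (hB3 : ∀ f ∈ B, ∀ i ≤ N, f (p i) = f (q i)) :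
    ∃ W ⊆ U, W.card = N ∧ B.ncard ≤ (Val (K := K) good len a b (U \ W)).ncard := by
  classical
  let W' : Finset V := (range (N + 1)).image p
  have hW' : W'.card = N + 1 := by
    rw [card_image_of_injOn, card_range]
    intro i hi j hj h
    rw [coe_range, Set.mem_Iio] at hi hj
    exact hp i (by omega) j (by omega) h
  have memW' : ∀ u, u ∈ W' ↔ ∃ i ≤ N, p i = u := by
    intro u
    simp only [W', mem_image, mem_range]
    constructor
    · rintro ⟨i, hi, h⟩; exact ⟨i, by omega, h⟩
    · rintro ⟨i, hi, h⟩; exact ⟨i, by omega, h⟩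
  have hvW' : v ∈ W' := (memW' v).2 hvp
  refine ⟨W'.erase v, ?_, ?_, ?_⟩
  · intro u hu
    rw [mem_erase, memW'] at hu
    obtain ⟨h1, i, hi, rfl⟩ := hu
    have := hpU i hi
    rw [mem_insert] at this
    exact this.resolve_left h1
  · rw [card_erase_of_mem hvW', hW']; rfl
  · refine Set.ncard_le_ncard_of_injOn (fun f => fun u => if u ∈ W' then 0 else f u) ?_ ?_
      (Val_finite _ _ _ _ _)
    · intro f hf
      constructor
      · intro u hu
        by_cases h : u ∈ W'
        · simp [h]
        · simp only [h, if_false]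
          apply hB1 f hf
          intro h2
          apply hu
          rw [mem_insert] at h2
          rw [mem_sdiff, mem_erase]
          refine ⟨h2.resolve_left ?_, fun h3 => h h3.2⟩
          rintro rfl
          exact h hvW'
      · intro e he h
        have h' : ∀ i ≤ len e, a e i ∈ U ∧ b e i ∈ U := fun i hi =>
          ⟨(mem_sdiff.1 (h i hi).1).1, (mem_sdiff.1 (h i hi).2).1⟩
        obtain ⟨i, hi, hne⟩ := (hB2 f hf).2 e he h'
        refine ⟨i, hi, ?_⟩
        have key : ∀ u, u ∈ U \ W'.erase v → (if u ∈ W' then (0 : Fin K) else f u) =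
            Function.update f v 0 u := by
          intro u hu
          rw [mem_sdiff, mem_erase] at hu
          have h1 : u ≠ v := by rintro rfl; exact hv hu.1
          have h2 : u ∉ W' := fun h3 => hu.2 ⟨h1, h3⟩
          simp [h2, h1]
        show (if a e i ∈ W' then (0 : Fin K) else f (a e i)) ≠
          (if b e i ∈ W' then (0 : Fin K) else f (b e i))
        rw [key _ (h i hi).1, key _ (h i hi).2]
        exact hne
    · intro f hf g hg hfg
      have h1 : ∀ u, u ∉ W' → f u = g u := by
        intro u hu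
        have := congrFun hfg u
        simpa [hu] using this
      funext u
      by_cases hu : u ∈ W'
      · obtain ⟨i, hi, rfl⟩ := (memW' u).1 hu
        rw [hB3 f hf i hi, hB3 g hg i hi]
        apply h1
        rw [memW']
        rintro ⟨j, hj, h⟩
        exact hpq j hj i hi h
      · exact h1 u hu

theorem step_count {β : ℝ} (hβ : 0 < β)
    (ha : ∀ e, good e → ∀ i ≤ len e, ∀ j ≤ len e, a e i = a e j → i = j)
    (hb : ∀ e, good e → ∀ i ≤ len e, ∀ j ≤ len e, b e i = b e j → i = j)
    (hab : ∀ e, good e → ∀ i ≤ len e, ∀ j ≤ len e, a e i ≠ b e j)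
    (hsum : ∀ v, ∀ s : Finset I, (∀ e ∈ s, good e ∧ ∃ i ≤ len e, a e i = v ∨ b e i = v) →
      ∑ e ∈ s, (β ^ len e)⁻¹ ≤ K - β) :
    ∀ n : ℕ, ∀ U : Finset V, U.card = n → ∀ v, v ∉ U →
      β * (Val (K := K) good len a b U).ncard ≤ (Val (K := K) good len a b (insert v U)).ncard := by
  classical
  intro n
  induction n using Nat.strong_induction_on with
  | _ n ih =>
  intro U hU v hv
  have shrink : ∀ W : Finset V, W ⊆ U →
      β ^ W.card * (Val (K := K) good len a b (U \ W)).ncard ≤
        (Val (K := K) good len a b U).ncard := by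
    intro W
    induction W using Finset.induction_on with
    | empty => intro _; simp
    | insert w W hw ihW =>
      intro hWU
      have hwU : w ∈ U := hWU (mem_insert_self _ _)
      have h1 := ihW ((subset_insert _ _).trans hWU)
      have h2 : insert w (U \ insert w W) = U \ W := by
        ext u
        simp only [mem_insert, mem_sdiff, not_or]
        constructor
        · rintro (rfl | h)
          · exact ⟨hwU, hw⟩
          · exact ⟨h.1, h.2.2⟩
        · intro h
          by_cases hu : u = w
          · exact Or.inl hu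
          · exact Or.inr ⟨h.1, hu, h.2⟩
      have h3 : (U \ insert w W).card < n := by
        rw [← hU]
        apply card_lt_card
        refine ⟨sdiff_subset, fun h => ?_⟩
        exact (mem_sdiff.1 (h hwU)).2 (mem_insert_self _ _)
      have h4 := ih _ h3 (U \ insert w W) rfl w (by simp)
      rw [h2] at h4
      rw [card_insert_of_notMem hw, pow_succ, mul_assoc]
      exact (mul_le_mul_of_nonneg_left h4 (pow_nonneg hβ.le _)).trans h1
  -- extensions of colourings of `U`
  let P : Set (V → Fin K) := {f | (∀ u, u ∉ insert v U → f u = 0) ∧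
    Function.update f v 0 ∈ Val (K := K) good len a b U}
  have hPfin : P.Finite := (supp_finite (insert v U)).subset fun _ hf => hf.1
  have hP : (Val (K := K) good len a b U).ncard * K ≤ P.ncard := by
    have h1 : (Val (K := K) good len a b U ×ˢ (Set.univ : Set (Fin K))).ncard =
        (Val (K := K) good len a b U).ncard * K := by
      rw [Set.ncard_prod, Set.ncard_univ, Nat.card_eq_fintype_card, Fintype.card_fin]
    rw [← h1]
    refine Set.ncard_le_ncard_of_injOn (fun x => Function.update x.1 v x.2) ?_ ?_ hPfin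
    · rintro ⟨f, c⟩ ⟨hf, -⟩
      have hfv : f v = 0 := hf.1 v hv
      constructor
      · intro u hu
        rw [mem_insert, not_or] at hu
        simp only [Function.update_of_ne hu.1]
        exact hf.1 u hu.2
      · have : Function.update (Function.update f v c) v 0 = f := by
          rw [Function.update_idem, ← hfv, Function.update_eq_self]
        simp only [this]
        exact hf
    · rintro ⟨f, c⟩ ⟨hf, -⟩ ⟨g, d⟩ ⟨hg, -⟩ h
      have hfv : f v = 0 := hf.1 v hv
      have hgv : g v = 0 := hg.1 v hv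
      have h1 := congrFun h v
      simp only [Function.update_self] at h1
      have h2 : f = g := by
        funext u
        by_cases hu : u = v
        · rw [hu, hfv, hgv]
        · have := congrFun h u
          simpa [Function.update_of_ne hu] using this
      rw [h1, h2]
  -- bad extensions
  let P' : Set (V → Fin K) := P \ Val (K := K) good len a b (insert v U)
  have hP'fin : P'.Finite := hPfin.subset Set.sdiff_subset
  have hbad : ∀ f ∈ P', ∃ e, good e ∧ (∀ i ≤ len e, a e i ∈ insert v U ∧ b e i ∈ insert v U) ∧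
      (∃ i ≤ len e, a e i = v ∨ b e i = v) ∧ ∀ i ≤ len e, f (a e i) = f (b e i) := by
    rintro f ⟨⟨hf1, hf2⟩, hf3⟩
    have : ∃ e, good e ∧ (∀ i ≤ len e, a e i ∈ insert v U ∧ b e i ∈ insert v U) ∧
        ∀ i ≤ len e, f (a e i) = f (b e i) := by
      by_contra hc
      push Not at hc
      exact hf3 ⟨hf1, hc⟩
    obtain ⟨e, he, h1, h2⟩ := this
    refine ⟨e, he, h1, ?_, h2⟩
    by_contra hc
    push Not at hc
    have h3 : ∀ i ≤ len e, a e i ∈ U ∧ b e i ∈ U := by
      intro i hi
      exact ⟨(mem_insert.1 (h1 i hi).1).resolve_left (hc i hi).1,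
        (mem_insert.1 (h1 i hi).2).resolve_left (hc i hi).2⟩
    obtain ⟨i, hi, hne⟩ := hf2.2 e he h3
    rw [Function.update_of_ne (hc i hi).1, Function.update_of_ne (hc i hi).2] at hne
    exact hne (h2 i hi)
  rcases isEmpty_or_nonempty I with hI | hI
  · have hP' : P ⊆ Val (K := K) good len a b (insert v U) := by
      intro f hf
      by_contra hc
      obtain ⟨e, _⟩ := hbad f ⟨hf, hc⟩
      exact hI.elim e
    have h1 := Set.ncard_le_ncard hP' (Val_finite _ _ _ _ _)
    have h2 : (Val (K := K) good len a b U).ncard * K ≤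
        (Val (K := K) good len a b (insert v U)).ncard := hP.trans h1
    have h3 : ((Val (K := K) good len a b U).ncard : ℝ) * K ≤
        (Val (K := K) good len a b (insert v U)).ncard := by exact_mod_cast h2
    have h4 := hsum v ∅ (by simp)
    rw [Finset.sum_empty] at h4
    have h5 : (0 : ℝ) ≤ (Val (K := K) good len a b U).ncard := Nat.cast_nonneg _
    nlinarith
  choose! E hE1 hE2 hE3 hE4 using hbad
  let s : Finset I := hP'fin.toFinset.image E
  have hs : ∀ e ∈ s, good e ∧ (∀ i ≤ len e, a e i ∈ insert v U ∧ b e i ∈ insert v U) ∧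
      ∃ i ≤ len e, a e i = v ∨ b e i = v := by
    intro e he
    simp only [s, mem_image, Set.Finite.mem_toFinset] at he
    obtain ⟨f, hf, rfl⟩ := he
    exact ⟨hE1 f hf, hE2 f hf, hE3 f hf⟩
  let Bad : I → Set (V → Fin K) := fun e => {f | f ∈ P ∧ ∀ i ≤ len e, f (a e i) = f (b e i)}
  have hBadfin : ∀ e, (Bad e).Finite := fun e => hPfin.subset fun f hf => hf.1
  have hBad : ∀ e ∈ s, ((Bad e).ncard : ℝ) ≤ (β ^ len e)⁻¹ * (Val (K := K) good len a b U).ncard := by
    intro e he
    obtain ⟨h1, h2, j, hj, h3⟩ := hs e he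
    have : ∃ W ⊆ U, W.card = len e ∧
        (Bad e).ncard ≤ (Val (K := K) good len a b (U \ W)).ncard := by
      rcases h3 with h3 | h3
      · exact bad_card (p := a e) (q := b e) hv (ha e h1) (hab e h1) (fun i hi => (h2 i hi).1)
          ⟨j, hj, h3⟩ (Bad e) (fun f hf => hf.1.1) (fun f hf => hf.1.2) (fun f hf => hf.2)
      · exact bad_card (p := b e) (q := a e) hv (hb e h1)
          (fun i hi j hj h => hab e h1 j hj i hi h.symm) (fun i hi => (h2 i hi).2)
          ⟨j, hj, h3⟩ (Bad e) (fun f hf => hf.1.1) (fun f hf => hf.1.2)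
          (fun f hf i hi => (hf.2 i hi).symm)
    obtain ⟨W, hWU, hWc, hle⟩ := this
    have h4 := shrink W hWU
    rw [hWc] at h4
    have h5 : ((Bad e).ncard : ℝ) ≤ (Val (K := K) good len a b (U \ W)).ncard := by
      exact_mod_cast hle
    refine h5.trans ?_
    rw [inv_mul_eq_div, le_div_iff₀ (pow_pos hβ _), mul_comm]
    exact h4
  have hcover : P ⊆ Val (K := K) good len a b (insert v U) ∪ ⋃ e ∈ s, Bad e := by
    intro f hf
    by_cases h : f ∈ Val (K := K) good len a b (insert v U)
    · exact Or.inl h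
    · right
      have hf' : f ∈ P' := ⟨hf, h⟩
      rw [Set.mem_iUnion₂]
      refine ⟨E f, ?_, hf, hE4 f hf'⟩
      simp only [s, mem_image, Set.Finite.mem_toFinset]
      exact ⟨f, hf', rfl⟩
  have hfinU : (⋃ e ∈ s, Bad e).Finite := Set.Finite.biUnion s.finite_toSet fun e _ => hBadfin e
  have h6 : (P.ncard : ℝ) ≤ (Val (K := K) good len a b (insert v U)).ncard +
      ∑ e ∈ s, ((Bad e).ncard : ℝ) := by
    have h7 : P.ncard ≤ (Val (K := K) good len a b (insert v U)).ncard + (⋃ e ∈ s, Bad e).ncard :=
      (Set.ncard_le_ncard hcover ((Val_finite _ _ _ _ _).union hfinU)).trans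
        (Set.ncard_union_le _ _)
    have h8 : (⋃ e ∈ s, Bad e).ncard ≤ ∑ e ∈ s, (Bad e).ncard := by
      have : ∀ t : Finset I, (⋃ e ∈ t, Bad e).ncard ≤ ∑ e ∈ t, (Bad e).ncard := by
        intro t
        induction t using Finset.induction_on with
        | empty => simp
        | insert e t het iht =>
          rw [Finset.set_biUnion_insert, Finset.sum_insert het]
          exact (Set.ncard_union_le _ _).trans (Nat.add_le_add_left iht _)
      exact this s
    have h9 : P.ncard ≤ (Val (K := K) good len a b (insert v U)).ncard +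
        ∑ e ∈ s, (Bad e).ncard := h7.trans (Nat.add_le_add_left h8 _)
    exact_mod_cast h9
  have h10 : ∑ e ∈ s, ((Bad e).ncard : ℝ) ≤ (K - β) * (Val (K := K) good len a b U).ncard := by
    refine (Finset.sum_le_sum hBad).trans ?_
    rw [← Finset.sum_mul]
    apply mul_le_mul_of_nonneg_right _ (Nat.cast_nonneg _)
    exact hsum v s fun e he => ⟨(hs e he).1, (hs e he).2.2⟩
  have h11 : ((Val (K := K) good len a b U).ncard : ℝ) * K ≤ P.ncard := by exact_mod_cast hP
  nlinarith

/-- Existence of a colouring avoiding all good events. -/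
theorem exists_coloring {β : ℝ} (hβ : 0 < β)
    (ha : ∀ e, good e → ∀ i ≤ len e, ∀ j ≤ len e, a e i = a e j → i = j)
    (hb : ∀ e, good e → ∀ i ≤ len e, ∀ j ≤ len e, b e i = b e j → i = j)
    (hab : ∀ e, good e → ∀ i ≤ len e, ∀ j ≤ len e, a e i ≠ b e j)
    (hsum : ∀ v, ∀ s : Finset I, (∀ e ∈ s, good e ∧ ∃ i ≤ len e, a e i = v ∨ b e i = v) →
      ∑ e ∈ s, (β ^ len e)⁻¹ ≤ K - β) :
    ∃ f : V → Fin K, ∀ e, good e → ∃ i ≤ len e, f (a e i) ≠ f (b e i) := by
  classical
  have hne : ∀ U : Finset V, (Val (K := K) good len a b U).Nonempty := by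
    intro U
    induction U using Finset.induction_on with
    | empty =>
      refine ⟨fun _ => 0, fun _ _ => rfl, fun e he h => ?_⟩
      exact absurd (h 0 (Nat.zero_le _)).1 (by simp)
    | insert v U hv ih =>
      have h1 := step_count (K := K) hβ ha hb hab hsum _ U rfl v hv
      have h2 : 0 < (Val (K := K) good len a b U).ncard :=
        (Set.ncard_pos (Val_finite _ _ _ _ _)).2 ih
      have h3 : (0 : ℝ) < (Val (K := K) good len a b (insert v U)).ncard := by
        have : (0 : ℝ) < (Val (K := K) good len a b U).ncard := by exact_mod_cast h2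
        exact (mul_pos hβ this).trans_le h1
      have h4 : 0 < (Val (K := K) good len a b (insert v U)).ncard := by exact_mod_cast h3
      exact (Set.ncard_pos (Val_finite _ _ _ _ _)).1 h4
  let C : {e : I // good e} → Set (V → Fin K) := fun e =>
    {f | ∃ i ≤ len e.1, f (a e.1 i) ≠ f (b e.1 i)}
  have hC : ∀ e, IsClosed (C e) := by
    intro e
    have : C e = ⋃ i ∈ Finset.range (len e.1 + 1), {f : V → Fin K | f (a e.1 i) ≠ f (b e.1 i)} := by
      ext f
      simp only [C, Set.mem_ofPred_eq, Set.mem_iUnion, Finset.mem_range, exists_prop]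
      constructor
      · rintro ⟨i, hi, h⟩; exact ⟨i, by omega, h⟩
      · rintro ⟨i, hi, h⟩; exact ⟨i, by omega, h⟩
    rw [this]
    apply isClosed_biUnion_finset
    intro i _
    have h1 : Continuous fun f : V → Fin K => (f (a e.1 i), f (b e.1 i)) := by fun_prop
    exact (isClosed_discrete {p : Fin K × Fin K | p.1 ≠ p.2}).preimage h1
  have hfin : ∀ s : Finset {e : I // good e}, (⋂ e ∈ s, C e).Nonempty := by
    intro s
    let U : Finset V := s.biUnion fun e =>
      (Finset.range (len e.1 + 1)).image (a e.1) ∪ (Finset.range (len e.1 + 1)).image (b e.1)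
    obtain ⟨f, hf⟩ := hne U
    refine ⟨f, ?_⟩
    rw [Set.mem_iInter₂]
    intro e he
    apply hf.2 e.1 e.2
    intro i hi
    simp only [U, Finset.mem_biUnion, Finset.mem_union, Finset.mem_image, Finset.mem_range]
    exact ⟨⟨e, he, Or.inl ⟨i, by omega, rfl⟩⟩, ⟨e, he, Or.inr ⟨i, by omega, rfl⟩⟩⟩
  obtain ⟨f, hf⟩ := CompactSpace.iInter_nonempty hC hfin
  refine ⟨f, fun e he => ?_⟩
  exact Set.mem_iInter.1 hf ⟨e, he⟩

end

end Pool.Agent.W_MP_d5b253_lc
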