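import Mathlib

/-!
# MP_d5b253_lc : definitions for the countable-partial-injections case
-/

set_option autoImplicit false

namespace Pool.Agent.W_MP_d5b253_lc

open Set Filter

/-- The space of infinite subsets of `ℕ`, exactly as in the frozen statement. -/
abbrev Om : Type := {x : ℕ → Bool // {n | x n = true}.Infinite}

/-- The underlying set of natural numbers. -/
def el (x : Om) : Set ℕ := {n | x.1 n = true}

/-- `x ⊆* dom p` and `p[x] =* y`, for a partial injection `p` of `ℕ`. -/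
def AlmostMaps (p : ℕ ≃. ℕ) (x y : Set ℕ) : Prop :=
  {z | z ∈ x ∧ ∀ z' ∈ y, p z ≠ some z'}.Finite ∧
    {z' | z' ∈ y ∧ ∀ z ∈ x, p z ≠ some z'}.Finite

/-- A set of infinite subsets of `ℕ` is Ramsey co-null (form used in the frozen statement). -/
def RamseyConull (B : Set Om) : Prop :=
  ∀ s : Finset ℕ, ∀ A : Set ℕ, A.Infinite → (∀ a ∈ A, ∀ m ∈ s, m < a) →
    ∃ A' : Set ℕ, A' ⊆ A ∧ A'.Infinite ∧
      ∀ x : Om, ((↑s : Set ℕ) ⊆ el x ∧ el x ⊆ (↑s : Set ℕ) ∪ A') → x ∈ B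

/-! ## generators and words -/

/-- The generators: `(n, true)` is `f n`, `(n, false)` is its inverse. -/
def gen (f : ℕ → (ℕ ≃. ℕ)) (i : ℕ × Bool) : ℕ → Option ℕ :=
  fun z => if i.2 = true then f i.1 z else (f i.1).symm z

/-- Index of the inverse generator. -/
def ginv (i : ℕ × Bool) : ℕ × Bool := (i.1, !i.2)

/-- Action of words (the head of the list is applied first). -/
def act (f : ℕ → (ℕ ≃. ℕ)) : List (ℕ × Bool) → ℕ → Option ℕ
  | [], z => some z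
  | i :: l, z => (gen f i z).bind (act f l)

theorem gen_inv (f : ℕ → (ℕ ≃. ℕ)) (i : ℕ × Bool) (z z' : ℕ) :
    gen f i z = some z' ↔ gen f (ginv i) z' = some z := by
  obtain ⟨n, e⟩ := i
  cases e with
  | true => simp [gen, ginv, PEquiv.eq_some_iff]
  | false => simp [gen, ginv, PEquiv.eq_some_iff]

/-! ## the conditions -/

/-- Agreement of the colourings `a`, `b` and the fixed point dichotomy for short words. -/
def Cond (f : ℕ → (ℕ ≃. ℕ)) (c : ℕ → ℕ → ℕ → ℕ) (j a b : ℕ) (Z : Set ℕ) : Prop :=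
  (∀ z ∈ Z, c j a z = c j b z) ∧
    ∀ w : List (ℕ × Bool), w.length ≤ b + 3 → (∀ i ∈ w, i.1 ≤ j) →
      (∀ z ∈ Z, act f w z = some z) ∨ (∀ z ∈ Z, act f w z ≠ some z)

/-- One step `Z → s[Z]` between sets satisfying `Cond`. -/
def Step (f : ℕ → (ℕ ≃. ℕ)) (c : ℕ → ℕ → ℕ → ℕ) (j a b : ℕ) (Z Z' : Set ℕ) : Prop :=
  ∃ i : ℕ × Bool, i.1 ≤ j ∧ (∀ z ∈ Z, ∃ z', gen f i z = some z') ∧
    Z' = {z' | ∃ z ∈ Z, gen f i z = some z'} ∧ Cond f c j a b Z ∧ Cond f c j a b Z'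

/-- Reachability. -/
def Conn (f : ℕ → (ℕ ≃. ℕ)) (c : ℕ → ℕ → ℕ → ℕ) (j a b : ℕ) (Z Z' : Set ℕ) : Prop :=
  Cond f c j a b Z ∧ Relation.ReflTransGen (Step f c j a b) Z Z'

/-- `k < a < b` are the first three elements of `blk '' x` that are `≥ j`. -/
def Lab (blk : ℕ → ℕ) (j k a b : ℕ) (x : Set ℕ) : Prop :=
  j ≤ k ∧ k < a ∧ a < b ∧ k ∈ blk '' x ∧ a ∈ blk '' x ∧ b ∈ blk '' x ∧
    ∀ n ∈ blk '' x, j ≤ n → n ≤ b → (n = k ∨ n = a ∨ n = b)

/-- The part of `x` with label `> b`. -/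
def tail (blk : ℕ → ℕ) (b : ℕ) (x : Set ℕ) : Set ℕ := {z | z ∈ x ∧ b < blk z}

/-- The finite relations. -/
def F (f : ℕ → (ℕ ≃. ℕ)) (c : ℕ → ℕ → ℕ → ℕ) (blk : ℕ → ℕ) (j : ℕ) (x y : Set ℕ) : Prop :=
  x = y ∨ ∃ k a b, Lab blk j k a b x ∧ Lab blk j k a b y ∧
    Conn f c j a b (tail blk b x) (tail blk b y)

/-- `x` is good at stage `j`. -/
def Good (f : ℕ → (ℕ ≃. ℕ)) (c : ℕ → ℕ → ℕ → ℕ) (blk : ℕ → ℕ) (j : ℕ) (x : Set ℕ) : Prop :=
  ∃ k a b, Lab blk j k a b x ∧ Cond f c j a b (tail blk b x)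

/-- There is no long simple path along which two of the colourings agree. -/
def NoAgree (f : ℕ → (ℕ ≃. ℕ)) (c : ℕ → ℕ → ℕ → ℕ) : Prop :=
  ∀ j a b, a < b → ∀ (p : ℕ → ℕ) (w : ℕ → ℕ × Bool),
    (∀ t, t < b + 3 → (w t).1 ≤ j ∧ gen f (w t) (p t) = some (p (t + 1))) →
    (∀ t t', t ≤ b + 3 → t' ≤ b + 3 → p t = p t' → t = t') →
    (∀ t, t ≤ b + 3 → c j a (p t) = c j b (p t)) → False

end Pool.Agent.W_MP_d5b253_lc
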