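import Pool.Agent.W_MP_d5b253_lc.Asm

/-!
# From partial injections to arbitrary functions
-/

set_option autoImplicit false

namespace Pool.Agent.W_MP_d5b253_lc

open Set Filter

/-- The partial injection `z ↦ u z` defined where `v (u z) = z`. -/
def pinj (u v : ℕ → ℕ) : ℕ ≃. ℕ where
  toFun z := if v (u z) = z then some (u z) else none
  invFun y := if u (v y) = y then some (v y) else none
  inv := by
    intro a b
    constructor
    · intro h
      by_cases h1 : u (v b) = b
      · simp only [h1, if_true, Option.mem_def, Option.some_inj] at h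
        subst h
        simp [h1]
      · simp [h1] at h
    · intro h
      by_cases h1 : v (u a) = a
      · simp only [h1, if_true, Option.mem_def, Option.some_inj] at h
        subst h
        simp [h1]
      · simp [h1] at h

theorem pinj_some {u v : ℕ → ℕ} {z : ℕ} (h : v (u z) = z) : pinj u v z = some (u z) := by
  show (if v (u z) = z then some (u z) else none) = some (u z)
  rw [if_pos h]

/-- Sets on which every composition is almost the identity or has almost disjoint image. -/
def B0 (h : ℕ → ℕ → ℕ) : Set Om :=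
  {x | ∀ n, {z | z ∈ el x ∧ h n z ≠ z}.Finite ∨ ((h n) '' (el x) ∩ el x).Finite}

theorem measurable_el (z : ℕ) : Measurable (fun x : Om => z ∈ el x) := by
  have h : Measurable (fun x : Om => x.1 z) := (measurable_pi_apply z).comp measurable_subtype_coe
  exact measurableSet_setOfPred.1 (h (measurableSet_singleton true))

theorem finite_iff_exists (P : ℕ → Prop) : {z | P z}.Finite ↔ ∃ N, ∀ z, N ≤ z → ¬ P z := by
  constructor
  · intro h
    obtain ⟨N, hN⟩ := h.bddAbove
    exact ⟨N + 1, fun z hz hP => absurd (hN hP) (by omega)⟩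
  · rintro ⟨N, hN⟩
    apply (Set.finite_Iio N).subset
    intro z hz
    by_contra h
    exact hN z (by simpa using h) hz

theorem measurable_B0 (h : ℕ → ℕ → ℕ) : MeasurableSet (B0 h) := by
  have e : B0 h = {x : Om | ∀ n, (∃ N, ∀ z, N ≤ z → ¬ (z ∈ el x ∧ h n z ≠ z)) ∨
      (∃ N, ∀ z, N ≤ z → ¬ ((∃ w, w ∈ el x ∧ h n w = z) ∧ z ∈ el x))} := by
    ext x
    simp only [B0, Set.mem_ofPred_eq, ← finite_iff_exists]
    rfl
  rw [e, measurableSet_setOfPred]
  refine Measurable.forall fun n => Measurable.or ?_ ?_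
  · refine Measurable.exists fun N => Measurable.forall fun z => Measurable.imp measurable_const ?_
    exact ((measurable_el z).and measurable_const).not
  · refine Measurable.exists fun N => Measurable.forall fun z => Measurable.imp measurable_const ?_
    refine Measurable.not (Measurable.and ?_ (measurable_el z))
    exact Measurable.exists fun w => (measurable_el w).and measurable_const

theorem exists_B0 (h : ℕ → ℕ → ℕ) (A : Set ℕ) (hA : A.Infinite) :
    ∃ D : Set ℕ, D ⊆ A ∧ D.Infinite ∧
      ∀ n, {z | z ∈ D ∧ h n z ≠ z}.Finite ∨ ((h n) '' D ∩ D).Finite := by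
  classical
  have hne : (𝓟 A ⊓ (cofinite : Filter ℕ)).NeBot := by
    rw [inf_comm, cofinite_inf_principal_neBot_iff]
    exact hA
  set U : Ultrafilter ℕ := Ultrafilter.of (𝓟 A ⊓ (cofinite : Filter ℕ)) with hU
  have hle : (U : Filter ℕ) ≤ 𝓟 A ⊓ (cofinite : Filter ℕ) := Ultrafilter.of_le _
  have hUA : ∀ᶠ a in (U : Filter ℕ), a ∈ A := (hle.trans inf_le_left) (mem_principal_self A)
  have hUc : (U : Filter ℕ) ≤ atTop := by
    rw [← Nat.cofinite_eq_atTop]; exact hle.trans inf_le_right
  have c1 : ∀ n, ∀ᶠ y in (U : Filter ℕ), (h n y = y ↔ ∀ᶠ y in (U : Filter ℕ), h n y = y) := by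
    intro n
    by_cases h1 : ∀ᶠ z in (U : Filter ℕ), h n z = z
    · filter_upwards [h1] with y hy
      exact ⟨fun _ => h1, fun _ => hy⟩
    · have h' := h1
      rw [← Ultrafilter.eventually_not] at h'
      filter_upwards [h'] with y hy
      exact ⟨fun h3 => absurd h3 hy, fun h3 => absurd h3 h1⟩
  have c2 : ∀ n v, ∀ᶠ y in (U : Filter ℕ), (h n y = v ↔ ∀ᶠ y in (U : Filter ℕ), h n y = v) := by
    intro n v
    by_cases h1 : ∀ᶠ z in (U : Filter ℕ), h n z = v
    · filter_upwards [h1] with y hy
      exact ⟨fun _ => h1, fun _ => hy⟩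
    · have h' := h1
      rw [← Ultrafilter.eventually_not] at h'
      filter_upwards [h'] with y hy
      exact ⟨fun h3 => absurd h3 hy, fun h3 => absurd h3 h1⟩
  obtain ⟨d, hd1, hd2⟩ := exists_seq_of_forall_finset_exists (fun z => z ∈ A)
    (fun z y => z < y ∧ ∀ n ≤ z, h n z < y ∧
      (h n y = y ↔ ∀ᶠ y in (U : Filter ℕ), h n y = y) ∧
      (∀ v ≤ z, (h n y = v ↔ ∀ᶠ y in (U : Filter ℕ), h n y = v))) (by
    intro t ht
    have h1 : ∀ᶠ y in (U : Filter ℕ), ∀ z ∈ t, z < y ∧ ∀ n ≤ z, h n z < y ∧
      (h n y = y ↔ ∀ᶠ y in (U : Filter ℕ), h n y = y) ∧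
      (∀ v ≤ z, (h n y = v ↔ ∀ᶠ y in (U : Filter ℕ), h n y = v)) := by
      rw [eventually_all_finset]
      intro z _
      have e1 : ∀ᶠ y in (U : Filter ℕ), z < y := hUc (eventually_gt_atTop z)
      have e2 : ∀ᶠ y in (U : Filter ℕ), ∀ n ∈ Finset.range (z + 1), h n z < y ∧
          (h n y = y ↔ ∀ᶠ y in (U : Filter ℕ), h n y = y) ∧
          (∀ v ∈ Finset.range (z + 1), (h n y = v ↔ ∀ᶠ y in (U : Filter ℕ), h n y = v)) := by
        rw [eventually_all_finset]
        intro n _
        have e3 : ∀ᶠ y in (U : Filter ℕ), h n z < y := hUc (eventually_gt_atTop _)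
        refine e3.and ((c1 n).and ?_)
        rw [eventually_all_finset]
        intro v _
        exact c2 n v
      filter_upwards [e1, e2] with y h1 h2
      refine ⟨h1, fun n hn => ?_⟩
      obtain ⟨h3, h4, h5⟩ := h2 n (Finset.mem_range.2 (by omega))
      exact ⟨h3, h4, fun v hv => h5 v (Finset.mem_range.2 (by omega))⟩
    obtain ⟨y, h2, h3⟩ := (hUA.and h1).exists
    exact ⟨y, h2, h3⟩)
  have hmono : StrictMono d := fun m n h => (hd2 m n h).1
  have hge : ∀ m, m ≤ d m := hmono.id_le
  refine ⟨Set.range d, ?_, Set.infinite_range_of_injective hmono.injective, ?_⟩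
  · rintro _ ⟨n, rfl⟩; exact hd1 n
  intro n
  by_cases k1 : ∀ᶠ y in (U : Filter ℕ), h n y = y
  · left
    apply ((Set.finite_Iic n).image d).subset
    rintro _ ⟨⟨m, rfl⟩, hm⟩
    refine ⟨m, ?_, rfl⟩
    by_contra hmn
    simp only [Set.mem_Iic, not_le] at hmn
    have h1 := ((hd2 (m - 1) m (by omega)).2 n (by have := hge (m - 1); omega)).2.1
    exact hm (h1.2 k1)
  · right
    by_cases k2 : ∃ v, ∀ᶠ y in (U : Filter ℕ), h n y = v
    · obtain ⟨v, hv⟩ := k2
      apply (((Set.finite_Iic (n + v)).image (fun m => h n (d m))).union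
        (Set.finite_singleton v)).subset
      rintro _ ⟨⟨_, ⟨m, rfl⟩, rfl⟩, _⟩
      by_cases hmn : m ≤ n + v
      · left; exact ⟨m, hmn, rfl⟩
      · right
        have h1 := ((hd2 (m - 1) m (by omega)).2 n (by have := hge (m - 1); omega)).2.2 v
          (by have := hge (m - 1); omega)
        exact h1.2 hv
    · apply (((Set.finite_Iic n).image (fun m => h n (d m))).union (Set.finite_Iio n)).subset
      rintro _ ⟨⟨_, ⟨m, rfl⟩, rfl⟩, ⟨i, hi⟩⟩
      by_cases hmn : m ≤ n
      · left; exact ⟨m, hmn, rfl⟩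
      · by_cases hdi : d i < n
        · right; rw [← hi]; exact hdi
        · exfalso
          push Not at k2
          rcases Nat.lt_trichotomy i m with h1 | h1 | h1
          · have h2 := ((hd2 i m h1).2 n (by omega)).2.2 (d i) le_rfl
            have h3 := h2.1 hi.symm
            obtain ⟨y, hy1, hy2⟩ := (h3.and (k2 (d i))).exists
            exact hy2 hy1
          · subst h1
            have h2 := ((hd2 (i - 1) i (by omega)).2 n (by have := hge (i - 1); omega)).2.1
            exact k1 (h2.1 hi.symm)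
          · have h2 := ((hd2 m i h1).2 n (by have := hge m; omega)).1
            rw [hi] at h2
            exact lt_irrefl _ h2

theorem conull_B0 (h : ℕ → ℕ → ℕ) : RamseyConull (B0 h) := by
  intro s A hA _
  obtain ⟨D, h1, h2, h3⟩ := exists_B0 h A hA
  refine ⟨D, h1, h2, ?_⟩
  rintro x ⟨_, hx⟩ n
  rcases h3 n with h4 | h4
  · left
    apply (h4.union s.finite_toSet).subset
    rintro z ⟨hz, hz'⟩
    rcases hx hz with h | h
    · right; exact h
    · left; exact ⟨h, hz'⟩
  · right
    apply (h4.union ((s.finite_toSet.image (h n)).union s.finite_toSet)).subset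
    rintro _ ⟨⟨z, hz, rfl⟩, hz'⟩
    rcases hx hz with h | h
    · right; left; exact ⟨z, h, rfl⟩
    · rcases hx hz' with h' | h'
      · right; right; exact h'
      · left; exact ⟨⟨z, h, rfl⟩, h'⟩

/-- The general theorem: arbitrary functions, modulo finite sets. -/
theorem main_fun (g : ℕ → ℕ → ℕ) (E : Om → Om → Prop) (hE : Equivalence E)
    (hEm : MeasurableSet {p : Om × Om | E p.1 p.2})
    (hEf : ∀ x y, E x y → ∃ k, (symmDiff (g k '' el x) (el y)).Finite) :
    ∃ B : Set Om, MeasurableSet B ∧ RamseyConull B ∧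
      ∃ R : ℕ → Om → Om → Prop,
        (∀ n, Equivalence (R n)) ∧
        (∀ n, MeasurableSet {p : Om × Om | R n p.1 p.2}) ∧
        (∀ n x, {y | R n x y}.Finite) ∧
        (∀ n x y, R n x y → R (n + 1) x y) ∧
        (∀ x ∈ B, ∀ y ∈ B, (E x y ↔ ∃ n, R n x y)) := by
  classical
  set h : ℕ → ℕ → ℕ := fun n z => g n.unpair.2 (g n.unpair.1 z) with hh
  set P : ℕ → (ℕ ≃. ℕ) := fun n =>
    Nat.casesOn n (PEquiv.refl ℕ) (fun m => pinj (g m.unpair.1) (g m.unpair.2)) with hP
  set E' : Om → Om → Prop := fun x y => x = y ∨ (x ∈ B0 h ∧ y ∈ B0 h ∧ E x y) with hE'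
  have hE'e : Equivalence E' := by
    refine ⟨fun x => Or.inl rfl, ?_, ?_⟩
    · rintro x y (rfl | ⟨h1, h2, h3⟩)
      · exact Or.inl rfl
      · exact Or.inr ⟨h2, h1, hE.symm h3⟩
    · rintro x y z (rfl | ⟨h1, h2, h3⟩) h4
      · exact h4
      · rcases h4 with rfl | ⟨h4, h5, h6⟩
        · exact Or.inr ⟨h1, h2, h3⟩
        · exact Or.inr ⟨h1, h5, hE.trans h3 h6⟩
  have hdiag : MeasurableSet {p : Om × Om | p.1 = p.2} := by
    have e : {p : Om × Om | p.1 = p.2} = {p : Om × Om | ∀ n, (n ∈ el p.1 ↔ n ∈ el p.2)} := by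
      ext p
      simp only [Set.mem_ofPred_eq]
      constructor
      · intro hp n; rw [hp]
      · intro hp
        apply Subtype.ext
        funext n
        have := hp n
        simp only [el, Set.mem_ofPred_eq] at this
        exact Bool.eq_iff_iff.2 this
    rw [e, measurableSet_setOfPred]
    exact Measurable.forall fun n =>
      ((measurable_el n).comp measurable_fst).iff ((measurable_el n).comp measurable_snd)
  have hE'm : MeasurableSet {p : Om × Om | E' p.1 p.2} := by
    refine MeasurableSet.union hdiag (MeasurableSet.inter (measurable_fst (measurable_B0 h))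
      (MeasurableSet.inter (measurable_snd (measurable_B0 h)) hEm))
  have hE'f : ∀ x y, E' x y → ∃ n, AlmostMaps (P n) (el x) (el y) := by
    rintro x y (rfl | ⟨hx, hy, hxy⟩)
    · refine ⟨0, ?_, ?_⟩
      · convert Set.finite_empty
        ext z
        simp only [Set.mem_ofPred_eq, Set.mem_empty_iff_false, iff_false, not_and, not_forall]
        intro hz
        exact ⟨z, hz, by simp [hP]⟩
      · convert Set.finite_empty
        ext z
        simp only [Set.mem_ofPred_eq, Set.mem_empty_iff_false, iff_false, not_and, not_forall]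
        intro hz
        exact ⟨z, hz, by simp [hP]⟩
    · obtain ⟨k, hk⟩ := hEf x y hxy
      obtain ⟨j, hj⟩ := hEf y x (hE.symm hxy)
      have hk1 : (g k '' el x \ el y).Finite := hk.subset (by
        intro z hz; exact Or.inl hz)
      have hk2 : (el y \ g k '' el x).Finite := hk.subset (by
        intro z hz; exact Or.inr hz)
      have hj2 : (el x \ g j '' el y).Finite := hj.subset (by
        intro z hz; exact Or.inr hz)
      set m := Nat.pair k j with hm
      have hhm : ∀ z, h m z = g j (g k z) := by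
        intro z; simp [hh, hm]
      have hfix : {z | z ∈ el x ∧ g j (g k z) ≠ z}.Finite := by
        rcases hx m with h1 | h1
        · simpa only [hhm] using h1
        · exfalso
          apply x.2
          show (el x).Finite
          apply (h1.union (hj2.union (hk2.image (g j)))).subset
          intro z hz
          by_cases h2 : z ∈ g j '' el y
          · obtain ⟨w, hw, rfl⟩ := h2
            by_cases h3 : w ∈ g k '' el x
            · obtain ⟨v, hv, rfl⟩ := h3
              left
              refine ⟨⟨v, hv, hhm v⟩, hz⟩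
            · right; right
              exact ⟨w, ⟨hw, h3⟩, rfl⟩
          · right; left; exact ⟨hz, h2⟩
      refine ⟨m + 1, ?_, ?_⟩
      · apply (hfix.union (hk1.image (g j))).subset
        rintro z ⟨hz, hz'⟩
        by_cases h2 : g j (g k z) = z
        · right
          refine ⟨g k z, ⟨⟨z, hz, rfl⟩, ?_⟩, h2⟩
          intro h3
          apply hz' _ h3
          have h4 : P (m + 1) = pinj (g k) (g j) := by simp [hP, hm]
          rw [h4]
          exact pinj_some h2
        · left; exact ⟨hz, h2⟩
      · apply (hk2.union (hfix.image (g k))).subset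
        rintro z' ⟨hz, hz'⟩
        by_cases h2 : z' ∈ g k '' el x
        · obtain ⟨z, hz3, rfl⟩ := h2
          right
          refine ⟨z, ⟨hz3, ?_⟩, rfl⟩
          intro h3
          apply hz' z hz3
          have h4 : P (m + 1) = pinj (g k) (g j) := by simp [hP, hm]
          rw [h4]
          exact pinj_some h3
        · left; exact ⟨hz, h2⟩
  obtain ⟨B1, hB1m, hB1c, R, r1, r2, r3, r4, r5⟩ := main P E' hE'e hE'm hE'f
  refine ⟨B0 h ∩ B1, (measurable_B0 h).inter hB1m, ?_, R, r1, r2, r3, r4, ?_⟩
  · intro s A hA hsA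
    obtain ⟨A1, h1, h2, h3⟩ := conull_B0 h s A hA hsA
    obtain ⟨A2, h4, h5, h6⟩ := hB1c s A1 h2 (fun a ha => hsA a (h1 ha))
    refine ⟨A2, h4.trans h1, h5, fun x hx => ⟨h3 x ⟨hx.1, ?_⟩, h6 x hx⟩⟩
    exact hx.2.trans (Set.union_subset_union_right _ h4)
  · intro x hx y hy
    rw [← r5 x hx.2 y hy.2]
    constructor
    · intro hxy; exact Or.inr ⟨hx.1, hy.1, hxy⟩
    · rintro (rfl | ⟨_, _, hxy⟩)
      · exact hE.refl _
      · exact hxy

end Pool.Agent.W_MP_d5b253_lc
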