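import Pool.Agent.W_MP_d5b253_lc.Color

/-!
The graph of good sequences has finite components.
-/

set_option autoImplicit false

open Finset

namespace Pool.Agent.W_MP_d5b253_lc

/-- Good sequences for the letters `≤ m`. -/
def Good (φ : ℕ → ℕ → ℕ) (m : ℕ) (Z : ℕ → ℕ) : Prop :=
  StrictMono Z ∧ m ≤ Z 0 ∧ gg φ m (Z 0) ≤ Z 1 ∧ gg φ m (Z 1) ≤ Z 2 ∧
    (∀ w ∈ wordsLe (Z 0) (Z 0), ∀ w' ∈ wordsLe (Z 0) (Z 0), ∀ j, 1 ≤ j →
      (ev φ w (Z 1) = ev φ w' (Z 1) ↔ ev φ w (Z j) = ev φ w' (Z j))) ∧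
    chi φ m (Z 0) (Z 1) = chi φ m (Z 1) (Z 2)

/-- The graph of good sequences. -/
def gr (φ : ℕ → ℕ → ℕ) (m : ℕ) : SimpleGraph (ℕ → ℕ) where
  Adj Z Z' := Z ≠ Z' ∧ Good φ m Z ∧ Good φ m Z' ∧ (∃ s ≤ m, ∀ j, φ s (Z j) = Z' j) ∧
    ∃ r ≤ m, ∀ j, φ r (Z' j) = Z j
  symm := ⟨fun _ _ h => ⟨h.1.symm, h.2.2.1, h.2.1, h.2.2.2.2, h.2.2.2.1⟩⟩
  loopless := ⟨fun _ h => h.1 rfl⟩

theorem take_map_range (s : ℕ → ℕ) (L k : ℕ) (hk : k ≤ L) :
    ((List.range L).map s).take k = (List.range k).map s := by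
  rw [← List.map_take, List.take_range, min_eq_left hk]

theorem pos_range (φ : ℕ → ℕ → ℕ) (s : ℕ → ℕ) (L k x : ℕ) (hk : k + 1 ≤ L) :
    pos φ ((List.range L).map s) (k + 1) x = φ (s k) (pos φ ((List.range L).map s) k x) := by
  unfold pos
  rw [take_map_range s L (k + 1) hk, take_map_range s L k (by omega), List.range_succ,
    List.map_append, ev_append]
  rfl

theorem pos_of_steps (φ : ℕ → ℕ → ℕ) (s : ℕ → ℕ) (L : ℕ) (c : ℕ → ℕ)
    (h : ∀ k < L, φ (s k) (c k) = c (k + 1)) :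
    ∀ k ≤ L, pos φ ((List.range L).map s) k (c 0) = c k := by
  intro k
  induction k with
  | zero => intro _; simp
  | succ k ih =>
    intro hk
    rw [pos_range φ s L k _ hk, ih (by omega), h k (by omega)]

/-- No long simple path of good sequences. -/
theorem no_long_path (φ : ℕ → ℕ → ℕ) (m : ℕ) (Zs : ℕ → ℕ → ℕ)
    (hgood : ∀ k ≤ Zs 0 0, Good φ m (Zs k))
    (hs : ∀ k < Zs 0 0, ∃ s ≤ m, ∀ j, φ s (Zs k j) = Zs (k + 1) j)
    (hr : ∀ k < Zs 0 0, ∃ r ≤ m, ∀ j, φ r (Zs (k + 1) j) = Zs k j)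
    (hinj : ∀ k ≤ Zs 0 0, ∀ k' ≤ Zs 0 0, Zs k = Zs k' → k = k') : False := by
  classical
  have hs' : ∀ k, ∃ s, k < Zs 0 0 → s ≤ m ∧ ∀ j, φ s (Zs k j) = Zs (k + 1) j := by
    intro k
    by_cases hk : k < Zs 0 0
    · obtain ⟨s, h1, h2⟩ := hs k hk
      exact ⟨s, fun _ => ⟨h1, h2⟩⟩
    · exact ⟨0, fun h => absurd h hk⟩
  choose s hs'' using hs'
  set a := Zs 0 0 with ha
  have hpos : ∀ j, ∀ k ≤ a, pos φ ((List.range a).map s) k (Zs 0 j) = Zs k j := by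
    intro j
    exact pos_of_steps φ s a (fun k => Zs k j) (fun k hk => (hs'' k hk).2 j)
  have hw : (List.range a).map s ∈ words m a := by
    rw [mem_words]
    refine ⟨by simp, ?_⟩
    intro t ht
    rw [List.mem_map] at ht
    obtain ⟨k, hk, rfl⟩ := ht
    exact (hs'' k (List.mem_range.1 hk)).1
  have h0 := hgood 0 (by omega)
  obtain ⟨hmono, hm, hg1, hg2, hty, _⟩ := h0
  rw [← ha] at hm hg1 hty
  have htake : ∀ k ≤ a, ((List.range a).map s).take k ∈ wordsLe a a := by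
    intro k hk
    rw [mem_wordsLe]
    refine ⟨by simp, ?_⟩
    intro t ht
    have h1 := List.mem_of_mem_take ht
    exact (((mem_words _ _ _).1 hw).2 t h1).trans hm
  -- the type condition transported
  have htype : ∀ k ≤ a, ∀ k' ≤ a, Zs k 1 = Zs k' 1 → ∀ j, 1 ≤ j → Zs k j = Zs k' j := by
    intro k hk k' hk' h j hj
    have h1 := hty _ (htake k hk) _ (htake k' hk') j hj
    have h2 : ev φ (((List.range a).map s).take k) (Zs 0 1) = Zs k 1 := hpos 1 k hk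
    have h3 : ev φ (((List.range a).map s).take k') (Zs 0 1) = Zs k' 1 := hpos 1 k' hk'
    have h4 : ev φ (((List.range a).map s).take k) (Zs 0 j) = Zs k j := hpos j k hk
    have h5 : ev φ (((List.range a).map s).take k') (Zs 0 j) = Zs k' j := hpos j k' hk'
    rw [h2, h3, h4, h5] at h1
    exact h1.1 h
  have hpa : ∀ k ≤ a, pos φ ((List.range a).map s) k a = Zs k 0 := hpos 0
  obtain ⟨k, hk, hne⟩ := chi_spec φ m a (Zs 0 1) (Zs 0 2) _ hw
    (by
      intro k hk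
      obtain ⟨r, hr1, hr2⟩ := hr k hk
      refine ⟨r, hr1, ?_, ?_, ?_⟩
      · rw [hpa (k + 1) (by omega), hpa k (by omega)]; exact hr2 0
      · rw [hpos 1 (k + 1) (by omega), hpos 1 k (by omega)]; exact hr2 1
      · rw [hpos 2 (k + 1) (by omega), hpos 2 k (by omega)]; exact hr2 2)
    hg1 hg2
    (by
      intro k hk
      rw [hpa k hk, hpos 1 k hk, hpos 2 k hk]
      have := (hgood k hk).1
      exact ⟨this (by norm_num), this (by norm_num)⟩)
    (by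
      intro k hk k' hk' h1 h2
      rw [hpa k hk, hpa k' hk'] at h1
      rw [hpos 1 k hk, hpos 1 k' hk'] at h2
      apply hinj k hk k' hk'
      funext j
      cases j with
      | zero => exact h1
      | succ j => exact htype k hk k' hk' h2 (j + 1) (by omega))
    (by
      intro k hk k' hk' h
      rw [hpos 1 k hk, hpos 1 k' hk'] at h
      rw [hpos 2 k hk, hpos 2 k' hk']
      exact htype k hk k' hk' h 2 (by norm_num))
  apply hne
  rw [hpa k hk, hpos 1 k hk, hpos 2 k hk]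
  exact (hgood k hk).2.2.2.2.2

theorem adj_of_reach_good (φ : ℕ → ℕ → ℕ) (m : ℕ) (Z : ℕ → ℕ) (hZ : Good φ m Z)
    (Z' : ℕ → ℕ) (h : (gr φ m).Reachable Z Z') : Good φ m Z' := by
  obtain ⟨p⟩ := h
  induction p with
  | nil => exact hZ
  | cons hadj _ ih => exact ih hadj.2.2.1

/-- Every good sequence reachable from `Z` is the image of `Z` under a short word. -/
theorem reach_word (φ : ℕ → ℕ → ℕ) (m : ℕ) (Z : ℕ → ℕ) (hZ : Good φ m Z) (Z' : ℕ → ℕ)
    (h : (gr φ m).Reachable Z Z') :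
    ∃ w ∈ wordsLe m (Z 0), ∀ j, ev φ w (Z j) = Z' j := by
  obtain ⟨p, hp⟩ := h.exists_isPath
  have hadj : ∀ k < p.length, (gr φ m).Adj (p.getVert k) (p.getVert (k + 1)) :=
    fun k hk => p.adj_getVert_succ hk
  have h0 : p.getVert 0 = Z := p.getVert_zero
  by_cases hL : Z 0 ≤ p.length
  · exfalso
    have h00 : p.getVert 0 0 = Z 0 := by rw [h0]
    apply no_long_path φ m (fun k => p.getVert k)
    · intro k hk
      rw [h00] at hk
      rcases Nat.eq_zero_or_pos k with rfl | hk0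
      · rw [h0]; exact hZ
      · have h1 := hadj (k - 1) (by omega)
        rw [show k - 1 + 1 = k by omega] at h1
        exact h1.2.2.1
    · intro k hk
      rw [h00] at hk
      exact (hadj k (by omega)).2.2.2.1
    · intro k hk
      rw [h00] at hk
      exact (hadj k (by omega)).2.2.2.2
    · intro k hk k' hk' heq
      rw [h00] at hk hk'
      exact hp.getVert_injOn (by simp; omega) (by simp; omega) heq
  · push Not at hL
    have hs' : ∀ k, ∃ s, k < p.length → s ≤ m ∧ ∀ j, φ s (p.getVert k j) =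
        p.getVert (k + 1) j := by
      intro k
      by_cases hk : k < p.length
      · obtain ⟨s, h1, h2⟩ := (hadj k hk).2.2.2.1
        exact ⟨s, fun _ => ⟨h1, h2⟩⟩
      · exact ⟨0, fun h => absurd h hk⟩
    choose s hs using hs'
    refine ⟨(List.range p.length).map s, ?_, ?_⟩
    · rw [mem_wordsLe]
      refine ⟨by simp; omega, ?_⟩
      intro t ht
      rw [List.mem_map] at ht
      obtain ⟨k, hk, rfl⟩ := ht
      exact (hs k (List.mem_range.1 hk)).1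
    · intro j
      have h1 := pos_of_steps φ s p.length (fun k => p.getVert k j)
        (fun k hk => (hs k hk).2 j) p.length le_rfl
      rw [h0, p.getVert_length] at h1
      unfold pos at h1
      rwa [take_map_range s p.length p.length le_rfl] at h1

/-- The relation of lying in the same component of good sequences. -/
def Rel (φ : ℕ → ℕ → ℕ) (m : ℕ) (Z Z' : ℕ → ℕ) : Prop :=
  Good φ m Z ∧ Good φ m Z' ∧ (gr φ m).Reachable Z Z'

theorem Rel.symm {φ : ℕ → ℕ → ℕ} {m : ℕ} {Z Z' : ℕ → ℕ} (h : Rel φ m Z Z') : Rel φ m Z' Z :=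
  ⟨h.2.1, h.1, h.2.2.symm⟩

theorem Rel.trans {φ : ℕ → ℕ → ℕ} {m : ℕ} {Z Z' Z'' : ℕ → ℕ} (h : Rel φ m Z Z')
    (h' : Rel φ m Z' Z'') : Rel φ m Z Z'' :=
  ⟨h.1, h'.2.1, h.2.2.trans h'.2.2⟩

theorem rel_finite (φ : ℕ → ℕ → ℕ) (m : ℕ) (Z : ℕ → ℕ) : {Z' | Rel φ m Z Z'}.Finite := by
  apply Set.Finite.subset
    ((wordsLe m (Z 0)).finite_toSet.image (fun w => fun j => ev φ w (Z j)))
  rintro Z' ⟨h1, _, h3⟩
  obtain ⟨w, hw, h4⟩ := reach_word φ m Z h1 Z' h3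
  exact ⟨w, hw, funext h4⟩

theorem rel_of_step (φ : ℕ → ℕ → ℕ) (m : ℕ) (Z Z' : ℕ → ℕ) (hZ : Good φ m Z)
    (hZ' : Good φ m Z') (hs : ∃ s ≤ m, ∀ j, φ s (Z j) = Z' j)
    (hr : ∃ r ≤ m, ∀ j, φ r (Z' j) = Z j) : Rel φ m Z Z' := by
  refine ⟨hZ, hZ', ?_⟩
  by_cases h : Z = Z'
  · rw [h]
  · exact SimpleGraph.Adj.reachable ⟨h, hZ, hZ', hs, hr⟩

/-- A word whose intermediate positions are good. -/
def WOK (φ : ℕ → ℕ → ℕ) (m : ℕ) : List ℕ → (ℕ → ℕ) → Prop
  | [], Z => Good φ m Z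
  | s :: w, Z => Good φ m Z ∧ s ≤ m ∧ (∃ r ≤ m, ∀ j, φ r (φ s (Z j)) = Z j) ∧
      WOK φ m w (fun j => φ s (Z j))

theorem WOK.good {φ : ℕ → ℕ → ℕ} {m : ℕ} {w : List ℕ} {Z : ℕ → ℕ} (h : WOK φ m w Z) :
    Good φ m Z := by
  cases w with
  | nil => exact h
  | cons s w => exact h.1

theorem rel_of_WOK (φ : ℕ → ℕ → ℕ) (m : ℕ) (w : List ℕ) :
    ∀ Z, WOK φ m w Z → Rel φ m Z (fun j => ev φ w (Z j)) := by
  induction w with
  | nil => intro Z h; exact ⟨h, h, SimpleGraph.Reachable.refl _⟩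
  | cons s w ih =>
    intro Z h
    obtain ⟨h1, h2, ⟨r, hr, h3⟩, h4⟩ := h
    have h5 := ih _ h4
    have h6 : Rel φ m Z (fun j => φ s (Z j)) :=
      rel_of_step φ m _ _ h1 h4.good ⟨s, h2, fun _ => rfl⟩ ⟨r, hr, h3⟩
    exact h6.trans h5

theorem rel_iff_word (φ : ℕ → ℕ → ℕ) (m : ℕ) (Z Z' : ℕ → ℕ) :
    Rel φ m Z Z' ↔ ∃ w, WOK φ m w Z ∧ ∀ j, ev φ w (Z j) = Z' j := by
  constructor
  · rintro ⟨h1, h2, ⟨p⟩⟩
    induction p with
    | nil => exact ⟨[], h1, fun _ => rfl⟩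
    | cons hadj p ih =>
      rename_i u v t
      obtain ⟨_, _, h3, ⟨s, hs, h4⟩, ⟨r, hr, h5⟩⟩ := hadj
      obtain ⟨w, hw1, hw2⟩ := ih h3 h2
      have h6 : (fun j => φ s (u j)) = v := funext h4
      refine ⟨s :: w, ⟨h1, hs, ⟨r, hr, ?_⟩, ?_⟩, ?_⟩
      · intro j
        rw [h4, h5]
      · rw [h6]; exact hw1
      · intro j
        rw [ev_cons, h4]
        exact hw2 j
  · rintro ⟨w, hw1, hw2⟩
    have h := rel_of_WOK φ m w Z hw1
    have h2 : (fun j => ev φ w (Z j)) = Z' := funext hw2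
    rwa [h2] at h

end Pool.Agent.W_MP_d5b253_lc
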