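import Pool.Agent.W_MP_d5b253_lc.Ramsey

/-!
# The main theorem for actions of a countable group on `ℕ`
-/

set_option autoImplicit false

namespace Pool.Agent.W_MP_d5b253_lc

open Filter

variable {G : Type*} [Group G] [MulAction G ℕ]

theorem ncard_below (Y : Inf) (N : ℕ) :
    {n | Y.1 n = true ∧ n < N}.ncard = Nat.count (fun n => Y.1 n = true) N := by
  classical
  rw [Nat.count_eq_card_filter_range, ← Set.ncard_coe_finset]
  congr 1
  ext n
  simp [and_comm]

/-- Sets with the same counting function as `g X` are eventually enumerated like `g X`. -/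
theorem align {X Y : Inf} {g : G} {n : ℕ} (hD : ∀ k ≥ n, g • en X k < g • en X (k + 1))
    (hc : ∃ N₀, ∀ N ≥ N₀, {n | X.1 n = true ∧ g • n < N}.ncard =
      {n | Y.1 n = true ∧ n < N}.ncard) : ∃ n', ∀ k ≥ n', en Y k = g • en X k := by
  classical
  obtain ⟨N₀, hN₀⟩ := hc
  set u : ℕ → ℕ := fun k => g • en X k with hu
  have hmono : ∀ k l, n ≤ k → k < l → u k < u l := by
    intro k l hk hl
    induction l, hl using Nat.le_induction with
    | base => exact hD k hk
    | succ l hl ih => exact ih.trans (hD l (by omega))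
  have hgrow : ∀ t, t ≤ u (n + t) := by
    intro t
    induction t with
    | zero => exact Nat.zero_le _
    | succ t ih =>
      have h1 : u (n + t) < u (n + t + 1) := hD (n + t) (by omega)
      have h2 : n + (t + 1) = n + t + 1 := by omega
      rw [h2]
      omega
  let M := (Finset.range n).sup u
  have hM : ∀ i < n, u i ≤ M := fun i hi => Finset.le_sup (Finset.mem_range.2 hi)
  have hbig : ∀ k, n + M + N₀ + 1 ≤ k → M < u k ∧ N₀ ≤ u k := by
    intro k hk
    have h1 := hgrow (k - n)
    have h2 : n + (k - n) = k := by omega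
    rw [h2] at h1
    omega
  have hlt : ∀ k, n + M + N₀ + 1 ≤ k → ∀ i, u i < u k ↔ i < k := by
    intro k hk i
    constructor
    · intro h
      by_contra hc
      rcases (not_lt.1 hc).lt_or_eq with h1 | h1
      · have := hmono k i (by omega) h1
        omega
      · rw [h1] at h
        exact lt_irrefl _ h
    · intro h
      rcases Nat.lt_or_ge i n with h1 | h1
      · exact (hM i h1).trans_lt (hbig k hk).1
      · exact hmono i k h1 h
  have hinj : Function.Injective (en X) := (en_strictMono X).injective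
  have hcount : ∀ k, n + M + N₀ + 1 ≤ k → {n | X.1 n = true ∧ g • n < u k}.ncard = k := by
    intro k hk
    have : {n | X.1 n = true ∧ g • n < u k} = en X '' ((Finset.range k : Finset ℕ) : Set ℕ) := by
      ext m
      simp only [Set.mem_image, Finset.coe_range, Set.mem_Iio]
      constructor
      · rintro ⟨h1, h2⟩
        obtain ⟨i, rfl⟩ := en_surj X h1
        exact ⟨i, (hlt k hk i).1 h2, rfl⟩
      · rintro ⟨i, hi, rfl⟩
        exact ⟨en_mem X i, (hlt k hk i).2 hi⟩
    rw [this, Set.ncard_image_of_injective _ hinj, Set.ncard_coe_finset, Finset.card_range]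
  have hcount' : ∀ k, n + M + N₀ + 1 ≤ k →
      {n | X.1 n = true ∧ g • n < u k + 1}.ncard = k + 1 := by
    intro k hk
    have : {n | X.1 n = true ∧ g • n < u k + 1} =
        en X '' ((Finset.range (k + 1) : Finset ℕ) : Set ℕ) := by
      ext m
      simp only [Set.mem_image, Finset.coe_range, Set.mem_Iio]
      constructor
      · rintro ⟨h1, h2⟩
        obtain ⟨i, rfl⟩ := en_surj X h1
        refine ⟨i, ?_, rfl⟩
        rcases (Nat.lt_succ_iff.1 h2).lt_or_eq with h3 | h3
        · have := (hlt k hk i).1 h3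
          omega
        · have h4 : en X i = en X k := MulAction.injective g h3
          have := hinj h4
          omega
      · rintro ⟨i, hi, rfl⟩
        refine ⟨en_mem X i, ?_⟩
        rcases (Nat.lt_succ_iff.1 hi).lt_or_eq with h3 | h3
        · have := (hlt k hk i).2 h3
          show u i < u k + 1
          omega
        · rw [h3]
          exact Nat.lt_succ_self _
    rw [this, Set.ncard_image_of_injective _ hinj, Set.ncard_coe_finset, Finset.card_range]
  refine ⟨n + M + N₀ + 1, fun k hk => ?_⟩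
  have h1 := hN₀ (u k) (hbig k hk).2
  have h2 := hN₀ (u k + 1) ((hbig k hk).2.trans (Nat.le_succ _))
  rw [hcount k hk, ncard_below] at h1
  rw [hcount' k hk, ncard_below, Nat.count_succ, ← h1] at h2
  have h3 : Y.1 (u k) = true := by
    by_contra hc
    rw [if_neg hc] at h2
    omega
  exact (en_iff Y k (u k)).2 ⟨h3, h1.symm⟩

theorem measurableSet_fixes (g : G) (N : ℕ) :
    MeasurableSet {X : Inf | ∀ n ≥ N, X.1 n = true → g • n = n} := by
  have : {X : Inf | ∀ n ≥ N, X.1 n = true → g • n = n} =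
      ⋂ n : ℕ, ({X : Inf | X.1 n = true}ᶜ ∪ {_X : Inf | N ≤ n → g • n = n}) := by
    ext X
    simp only [Set.mem_iInter, Set.mem_union, Set.mem_compl_iff]
    constructor
    · intro h n
      by_cases h1 : X.1 n = true
      · right; exact fun hn => h n hn h1
      · left; exact h1
    · intro h n hn h1
      rcases h n with h2 | h2
      · exact absurd h1 h2
      · exact h2 hn
  rw [this]
  exact MeasurableSet.iInter fun n => (measurableSet_coord n).compl.union (MeasurableSet.const _)

theorem measurableSet_Tame [Countable G] : MeasurableSet {X : Inf | Tame G X} := by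
  have : {X : Inf | Tame G X} = ⋃ N : ℕ, ⋂ g : G,
      ((⋃ M : ℕ, {X : Inf | ∀ n ≥ M, X.1 n = true → g • n = n})ᶜ ∪
        {X : Inf | ∀ n ≥ N, X.1 n = true → g • n = n}) := by
    ext X
    simp only [Set.mem_iUnion, Set.mem_iInter, Set.mem_union, Set.mem_compl_iff]
    have key : ∀ g : G, {n | X.1 n = true ∧ g • n ≠ n}.Finite ↔
        ∃ M, X ∈ {X : Inf | ∀ n ≥ M, X.1 n = true → g • n = n} := by
      intro g
      constructor
      · intro h
        obtain ⟨M, hM⟩ := h.bddAbove
        refine ⟨M + 1, fun n hn h1 => ?_⟩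
        by_contra hc
        have := hM ⟨h1, hc⟩
        omega
      · rintro ⟨M, hM⟩
        apply (Set.finite_Iio M).subset
        rintro n ⟨h1, h2⟩
        by_contra hc
        exact h2 (hM n (not_lt.1 hc) h1)
    constructor
    · rintro ⟨N, hN⟩
      refine ⟨N, fun g => ?_⟩
      by_cases h : {n | X.1 n = true ∧ g • n ≠ n}.Finite
      · right; exact hN g h
      · left; rw [← key]; exact h
    · rintro ⟨N, hN⟩
      refine ⟨N, fun g hg => ?_⟩
      rcases hN g with h | h
      · rw [← key] at h; exact absurd hg h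
      · exact h
  rw [this]
  refine MeasurableSet.iUnion fun N => MeasurableSet.iInter fun g => ?_
  exact (MeasurableSet.iUnion fun M => measurableSet_fixes g M).compl.union
    (measurableSet_fixes g N)

theorem exists_exhaustion (G : Type*) [Group G] [Countable G] :
    ∃ S : ℕ → Finset G, (∀ n, (1 : G) ∈ S n) ∧ (∀ n, ∀ s ∈ S n, s⁻¹ ∈ S n) ∧
      (∀ n, S n ⊆ S (n + 1)) ∧ ∀ g : G, ∃ n, g ∈ S n := by
  classical
  obtain ⟨e, he⟩ := exists_surjective_nat G
  refine ⟨fun n => insert 1 ((Finset.range (n + 1)).image e ∪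
    (Finset.range (n + 1)).image (fun i => (e i)⁻¹)), ?_, ?_, ?_, ?_⟩
  · intro n; exact Finset.mem_insert_self _ _
  · intro n s hs
    simp only [Finset.mem_insert, Finset.mem_union, Finset.mem_image, Finset.mem_range] at hs ⊢
    rcases hs with rfl | ⟨i, hi, rfl⟩ | ⟨i, hi, rfl⟩
    · left; simp
    · right; right; exact ⟨i, hi, rfl⟩
    · right; left; exact ⟨i, hi, by simp⟩
  · intro n s hs
    simp only [Finset.mem_insert, Finset.mem_union, Finset.mem_image, Finset.mem_range] at hs ⊢
    rcases hs with rfl | ⟨i, hi, rfl⟩ | ⟨i, hi, rfl⟩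
    · left; rfl
    · right; left; exact ⟨i, by omega, rfl⟩
    · right; right; exact ⟨i, by omega, rfl⟩
  · intro g
    obtain ⟨i, rfl⟩ := he g
    refine ⟨i, ?_⟩
    simp only [Finset.mem_insert, Finset.mem_union, Finset.mem_image, Finset.mem_range]
    right; left; exact ⟨i, by omega, rfl⟩

theorem main [Countable G] (E : Inf → Inf → Prop) (hE : Equivalence E)
    (hm : MeasurableSet {p : Inf × Inf | E p.1 p.2})
    (hG : ∀ x y, E x y → x ≠ y → Tame G x ∧ ∃ g : G, ∃ N₀, ∀ N ≥ N₀,
      {n | x.1 n = true ∧ g • n < N}.ncard = {n | y.1 n = true ∧ n < N}.ncard) :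
    ∃ B : Set Inf, MeasurableSet B ∧
      (∀ s : Finset ℕ, ∀ A : Set ℕ, A.Infinite → (∀ a ∈ A, ∀ m ∈ s, m < a) →
        ∃ A' : Set ℕ, A' ⊆ A ∧ A'.Infinite ∧
          ∀ x : Inf, ((↑s : Set ℕ) ⊆ {n | x.1 n = true} ∧
            {n | x.1 n = true} ⊆ (↑s : Set ℕ) ∪ A') → x ∈ B) ∧
      ∃ F : ℕ → Inf → Inf → Prop,
        (∀ n, Equivalence (F n)) ∧
        (∀ n, MeasurableSet {p : Inf × Inf | F n p.1 p.2}) ∧
        (∀ n, ∀ x : Inf, {y : Inf | F n x y}.Finite) ∧
        (∀ n, ∀ x y : Inf, F n x y → F (n + 1) x y) ∧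
        (∀ x ∈ B, ∀ y ∈ B, (E x y ↔ ∃ n, F n x y)) := by
  classical
  obtain ⟨S, hS1, hS2, hS3, hS4⟩ := exists_exhaustion G
  choose K f0 hf0 using fun n => coloring_lemma (S n) ⟨1, hS1 n⟩
  let f : ℕ → ℕ → ℕ → ℕ := fun m x z => (f0 m x z : ℕ)
  have hK : ∀ m x z, f m x z < K m := fun m x z => (f0 m x z).2
  have hf : ∀ n, ∀ x y z : ℕ, x < y → ∀ p : ℕ → G, p 0 = 1 →
      (∀ i < y, p (i + 1) * (p i)⁻¹ ∈ S n) →
      (∀ i ≤ y, ∀ j ≤ y, p i • z = p j • z → i = j) →
      ∃ i ≤ y, f n (p i • x) (p i • z) ≠ f n (p i • y) (p i • z) := by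
    intro n x y z hxy p hp0 hp hinj
    obtain ⟨i, hi, hne⟩ := hf0 n x y z hxy p hp0 hp hinj
    exact ⟨i, hi, fun h => hne (Fin.ext h)⟩
  have hSmono : ∀ n n', n ≤ n' → S n ⊆ S n' := fun n n' h => monotone_nat_of_le_succ hS3 h
  refine ⟨{X | Tame G X → ∀ h : G, ∃ n, Dm S f n (h • en X)}, ?_, ?_,
    fun n X Y => E X Y ∧ Fs S f n (en X) (en Y), ?_, ?_, ?_, ?_, ?_⟩
  · have : {X : Inf | Tame G X → ∀ h : G, ∃ n, Dm S f n (h • en X)} =
        {X : Inf | Tame G X}ᶜ ∪ ⋂ h : G, ⋃ n : ℕ, (fun X : Inf => h • en X) ⁻¹'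
          {x | Dm S f n x} := by
      ext X
      simp only [Set.mem_union, Set.mem_compl_iff, Set.mem_iInter, Set.mem_iUnion,
        Set.mem_preimage]
      exact imp_iff_not_or
    rw [this]
    refine measurableSet_Tame.compl.union (MeasurableSet.iInter fun h => MeasurableSet.iUnion
      fun n => ?_)
    exact ((measurable_smul_seq h).comp measurable_en) (measurableSet_Dm S f n)
  · intro s A hA _
    obtain ⟨A', h1, h2, h3⟩ := ramsey (G := G) S f K hK s A hA
    exact ⟨A', h1, h2, fun x hx hT => h3 x hx.2 hT⟩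
  · intro n
    have h1 := Fs.equivalence (G := G) (S := S) (f := f) (n := n) (hS2 n)
    exact ⟨fun X => ⟨hE.refl X, h1.refl _⟩, fun h => ⟨hE.symm h.1, h1.symm h.2⟩,
      fun h h' => ⟨hE.trans h.1 h'.1, h1.trans h.2 h'.2⟩⟩
  · intro n
    have h1 : MeasurableSet {p : Inf × Inf | Fs S f n (en p.1) (en p.2)} := by
      have h2 : Measurable fun p : Inf × Inf => (en p.1, en p.2) :=
        (measurable_en.comp measurable_fst).prodMk (measurable_en.comp measurable_snd)
      exact h2 (measurableSet_Fs S f n (hS1 n))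
    exact hm.inter h1
  · intro n X
    obtain ⟨T, hT1, hT2⟩ := tails_finite (hS1 n) (hS2 n) (hf n) (en X)
    have h1 : (⋃ u ∈ T, {Y : Inf | TEq n (en Y) u}).Finite :=
      hT1.biUnion fun u _ => fiber_finite n u
    apply ((Set.finite_singleton X).union h1).subset
    rintro Y ⟨-, hY⟩
    by_cases h : en Y = en X
    · left; exact en_injective h
    · right
      obtain ⟨u, hu1, hu2⟩ := hT2 (en Y) hY h
      rw [Set.mem_iUnion₂]
      exact ⟨u, hu1, hu2⟩
  · intro n X Y h
    exact ⟨h.1, Fs.mono (hS3 n) h.2⟩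
  · intro X hX Y hY
    refine ⟨fun h => ?_, fun ⟨n, hn⟩ => hn.1⟩
    by_cases hXY : X = Y
    · subst hXY
      exact ⟨0, h, Relation.ReflTransGen.refl⟩
    · obtain ⟨hTX, g, hg⟩ := hG X Y h hXY
      obtain ⟨hTY, -⟩ := hG Y X (hE.symm h) (fun h' => hXY h'.symm)
      obtain ⟨n1, hn1⟩ := hX hTX 1
      obtain ⟨n2, hn2⟩ := hY hTY 1
      obtain ⟨n3, hn3⟩ := hX hTX g
      obtain ⟨n4, hn4⟩ := hS4 g
      obtain ⟨n5, hn5⟩ := align (fun k hk => hn3.lt hk) hg
      rw [one_smul] at hn1 hn2
      let n := n1 + n2 + n4 + n5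
      refine ⟨n, h, Relation.ReflTransGen.single ⟨hn1.mono (by omega), hn2.mono (by omega), g,
        hSmono n4 n (by omega) hn4, fun k hk => hn5 k (by omega)⟩⟩

end Pool.Agent.W_MP_d5b253_lc
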