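import Pool.Agent.W_MP_d5b253_lc.Nice

/-!
Matching of related nice sequences, and the anchored tails.
-/

set_option autoImplicit false

open Finset

namespace Pool.Agent.W_MP_d5b253_lc

theorem Sep.symm {φ : ℕ → ℕ → ℕ} {ε a b : ℕ} (h : Sep φ ε a b) : Sep φ ε b a := by
  obtain ⟨j, h⟩ := h
  exact ⟨j, h.symm⟩

theorem Sep.split {φ : ℕ → ℕ → ℕ} {ε a c : ℕ} (h : Sep φ ε a c) (b : ℕ) :
    Sep φ ε a b ∨ Sep φ ε b c := by
  obtain ⟨j, h⟩ := h
  by_cases hb : b < ab φ (2 * j + ε)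
  · rcases h with ⟨h1, h2⟩ | ⟨h1, h2⟩
    · exact Or.inr ⟨j, Or.inl ⟨hb, h2⟩⟩
    · exact Or.inl ⟨j, Or.inr ⟨hb, h2⟩⟩
  · push Not at hb
    rcases h with ⟨h1, h2⟩ | ⟨h1, h2⟩
    · exact Or.inl ⟨j, Or.inl ⟨h1, hb⟩⟩
    · exact Or.inr ⟨j, Or.inr ⟨h1, hb⟩⟩

theorem step_bound (φ : ℕ → ℕ → ℕ) (k l n z : ℕ) (hk : k ≤ n) (hl : l ≤ n) :
    φ l (φ k z) < grow φ n (grow φ n z) :=
  step_lt_grow φ n l _ _ hl (step_lt_grow φ n k _ _ hk le_rfl).le

/-- The matching lemma, first part. -/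
theorem theta_fix (φ : ℕ → ℕ → ℕ) (x : ℕ → ℕ) (hx : StrictMono x) (hn : EvNice φ x) (k l : ℕ)
    (hfin : (Set.range x \ (fun z => φ l (φ k z)) '' Set.range x).Finite) :
    ∃ I, ∀ i, I ≤ i → (φ l (φ k (x i)) = x i ∧ φ k (x i) < φ k (x (i + 1)) ∧ k ≤ x i ∧ l ≤ x i) := by
  obtain ⟨i0, hi0⟩ := hn
  have hxid : ∀ i, i ≤ x i := fun i => hx.id_le i
  obtain ⟨I0, hI0⟩ : ∃ I0, i0 ≤ I0 ∧ k ≤ I0 ∧ l ≤ I0 := ⟨i0 + k + l, by omega, by omega, by omega⟩
  -- the finite exceptional set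
  obtain ⟨M1, hM1⟩ := hfin.bddAbove
  -- bound of the early values
  have hM2 : ∃ M2, ∀ j ≤ I0, φ l (φ k (x j)) < M2 := by
    refine ⟨(range (I0 + 1)).sup (fun j => φ l (φ k (x j))) + 1, ?_⟩
    intro j hj
    have := Finset.le_sup (f := fun j => φ l (φ k (x j))) (Finset.mem_range.2 (by omega : j < I0 + 1))
    exact Nat.lt_succ_of_le this
  obtain ⟨M2, hM2⟩ := hM2
  have hlate : ∀ j, I0 < j → ∀ i, j < i → φ l (φ k (x j)) < x i := by
    intro j hj i hji
    have h1 := (hi0 j (by omega)).2.2.2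
    have h2 := step_bound φ k l (x j) (x j) (by have := hxid j; omega) (by have := hxid j; omega)
    have h3 : x (j + 1) ≤ x i := hx.monotone (by omega)
    omega
  have hnotbefore : ∀ i, M2 ≤ i → ∀ j, j < i → φ l (φ k (x j)) ≠ x i := by
    intro i hi j hji heq
    rcases Nat.lt_or_ge I0 j with h | h
    · have := hlate j h i hji; omega
    · have h1 := hM2 j h
      have h2 := hxid i
      omega
  have hex : ∀ i, M1 < i → ∃ j, φ l (φ k (x j)) = x i := by
    intro i hi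
    by_contra hcon
    have h1 : x i ∈ Set.range x \ (fun z => φ l (φ k z)) '' Set.range x := by
      refine ⟨⟨i, rfl⟩, ?_⟩
      rintro ⟨_, ⟨j, rfl⟩, h⟩
      exact hcon ⟨j, h⟩
    have h2 := hM1 h1
    have h3 := hxid i
    omega
  have hmain : ∀ i, I0 ≤ i → M2 ≤ i → M1 < i → φ l (φ k (x i)) = x i := by
    intro i h1 h2 h3
    obtain ⟨j, hj⟩ := hex i h3
    rcases lt_trichotomy j i with h | h | h
    · exact absurd hj (hnotbefore i h2 j h)
    · rwa [h] at hj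
    · exfalso
      have hN2 := (hi0 i (by omega)).2.1 k (by have := hxid i; omega) l
        (by have := hxid i; omega)
      have hall : ∀ j', i < j' → φ l (φ k (x j')) = x i := fun j' hj' => (hN2 j h j' hj').1 hj
      obtain ⟨j1, hj1⟩ := hex (i + 1) (by omega)
      have hlt : x i < x (i + 1) := hx (by omega)
      rcases Nat.lt_or_ge j1 (i + 1) with h4 | h4
      · exact hnotbefore (i + 1) (by omega) j1 h4 hj1
      · have := hall j1 (by omega)
        omega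
  refine ⟨I0 + M1 + M2 + 1, ?_⟩
  intro i hi
  have h1 := hmain i (by omega) (by omega) (by omega)
  have h2 := hmain (i + 1) (by omega) (by omega) (by omega)
  have hki : k ≤ x i := by have := hxid i; omega
  have hli : l ≤ x i := by have := hxid i; omega
  refine ⟨h1, ?_, hki, hli⟩
  by_contra hcon
  push Not at hcon
  have h3 := (hi0 i (by omega)).2.2.2
  have h4 : φ k (x i) < grow φ (x i) (x i) := step_lt_grow φ (x i) k _ _ hki le_rfl
  have h5 : φ l (φ k (x (i + 1))) < grow φ (x i) (grow φ (x i) (x i)) :=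
    step_lt_grow φ (x i) l _ _ hli (by omega)
  omega

/-- If a strictly increasing sequence has cofinite range then it is eventually a shift. -/
theorem eventually_shift (σ : ℕ → ℕ) (hσ : StrictMono σ) (hfin : (Set.range σ)ᶜ.Finite) :
    ∃ n0, ∀ n, σ (n0 + n) = σ n0 + n := by
  obtain ⟨M, hM⟩ := hfin.bddAbove
  refine ⟨M, ?_⟩
  intro n
  induction n with
  | zero => rfl
  | succ n ih =>
    have h1 : σ (M + n) < σ (M + n + 1) := hσ (by omega)
    have h2 : σ (M + n) + 1 ∈ Set.range σ := by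
      by_contra hcon
      have h3 := hM hcon
      have h4 : M + n ≤ σ (M + n) := hσ.id_le _
      omega
    obtain ⟨p, hp⟩ := h2
    have h3 : M + n < p := by
      rw [← hσ.lt_iff_lt, hp]; omega
    have h4 : σ (M + n + 1) ≤ σ p := hσ.monotone (by omega)
    rw [← add_assoc]
    omega

/-- **The matching lemma.** -/
theorem matching (φ : ℕ → ℕ → ℕ) (x y : ℕ → ℕ) (hx : StrictMono x) (hy : StrictMono y)
    (hn : EvNice φ x) (k l : ℕ) (h1 : (symmDiff (φ k '' Set.range x) (Set.range y)).Finite)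
    (h2 : (symmDiff (φ l '' Set.range y) (Set.range x)).Finite) :
    ∃ i j, ∀ n, φ k (x (i + n)) = y (j + n) ∧ φ l (y (j + n)) = x (i + n) := by
  have hfin : (Set.range x \ (fun z => φ l (φ k z)) '' Set.range x).Finite := by
    have h3 : (Set.range y \ φ k '' Set.range x).Finite :=
      h1.subset (fun z hz => Or.inr hz)
    have h4 : (Set.range x \ φ l '' Set.range y).Finite :=
      h2.subset (fun z hz => Or.inr hz)
    apply ((h3.image (φ l)).union h4).subset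
    rintro z ⟨hz, hz'⟩
    by_cases hzy : z ∈ φ l '' Set.range y
    · left
      obtain ⟨u, hu, rfl⟩ := hzy
      refine ⟨u, ⟨hu, ?_⟩, rfl⟩
      rintro ⟨v, hv, rfl⟩
      exact hz' ⟨v, hv, rfl⟩
    · exact Or.inr ⟨hz, hzy⟩
  obtain ⟨I, hI⟩ := theta_fix φ x hx hn k l hfin
  -- the image sequence is eventually inside `range y`
  have hmono : StrictMono (fun n => φ k (x (I + n))) := by
    apply strictMono_nat_of_lt_succ
    intro n
    exact (hI (I + n) (by omega)).2.1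
  have h3 : (φ k '' Set.range x \ Set.range y).Finite := h1.subset (fun z hz => Or.inl hz)
  obtain ⟨M, hM⟩ := h3.bddAbove
  have hin : ∀ n, ∃ j, y j = φ k (x (I + (M + 1) + n)) := by
    intro n
    by_contra hcon
    have h4 : φ k (x (I + (M + 1) + n)) ∈ φ k '' Set.range x \ Set.range y :=
      ⟨⟨_, ⟨_, rfl⟩, rfl⟩, fun ⟨j, hj⟩ => hcon ⟨j, hj⟩⟩
    have h5 := hM h4
    have h6 : M + 1 + n ≤ φ k (x (I + (M + 1 + n))) := hmono.id_le (M + 1 + n)
    rw [← add_assoc] at h6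
    omega
  choose σ hσ using hin
  have hσmono : StrictMono σ := by
    apply strictMono_nat_of_lt_succ
    intro n
    rw [← hy.lt_iff_lt, hσ, hσ]
    rw [show I + (M + 1) + n = I + (M + 1 + n) by ring,
      show I + (M + 1) + (n + 1) = I + (M + 1 + (n + 1)) by ring]
    exact hmono (show M + 1 + n < M + 1 + (n + 1) by omega)
  have hcof : (Set.range σ)ᶜ.Finite := by
    have h4 : (Set.range y \ φ k '' Set.range x).Finite := h1.subset (fun z hz => Or.inr hz)
    have h5 : (φ k '' (x '' Set.Iio (I + (M + 1)))).Finite :=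
      ((Set.finite_Iio _).image x).image _
    apply Set.Finite.of_finite_image (f := y) _ (hy.injective.injOn)
    apply (h4.union h5).subset
    rintro _ ⟨j, hj, rfl⟩
    by_cases hyj : y j ∈ φ k '' Set.range x
    · right
      obtain ⟨_, ⟨p, rfl⟩, hp⟩ := hyj
      refine ⟨x p, ⟨p, ?_, rfl⟩, hp⟩
      by_contra hcon
      simp only [Set.mem_Iio, not_lt] at hcon
      obtain ⟨n, rfl⟩ := Nat.exists_eq_add_of_le hcon
      apply hj
      refine ⟨n, ?_⟩
      apply hy.injective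
      rw [hσ, hp]
    · exact Or.inl ⟨⟨j, rfl⟩, hyj⟩
  obtain ⟨n0, hn0⟩ := eventually_shift σ hσmono hcof
  refine ⟨I + (M + 1) + n0, σ n0, ?_⟩
  intro n
  have h4 : φ k (x (I + (M + 1) + n0 + n)) = y (σ n0 + n) := by
    rw [← hn0 n, hσ, add_assoc (I + (M + 1)) n0 n]
  refine ⟨h4, ?_⟩
  rw [← h4]
  exact (hI (I + (M + 1) + n0 + n) (by omega)).1

/-- The parity condition. -/
def CC (φ : ℕ → ℕ → ℕ) (ε : ℕ) (x : ℕ → ℕ) : Prop :=
  ∀ k l, ∃ I, ∀ i, I ≤ i → φ l (φ k (x i)) = x i → ¬ Sep φ ε (x i) (φ k (x i))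

theorem block_of (φ : ℕ → ℕ → ℕ) (z : ℕ) : ∃ l, ab φ l ≤ z ∧ z < ab φ (l + 1) := by
  have hex : ∃ l, z < ab φ (l + 1) := ⟨z, by have := le_ab φ (z + 1); omega⟩
  classical
  obtain ⟨l, hl⟩ : ∃ l, l = Nat.find hex := ⟨_, rfl⟩
  refine ⟨l, ?_, by rw [hl]; exact Nat.find_spec hex⟩
  cases l with
  | zero => simp [ab]
  | succ l' =>
    have h3 := Nat.find_min hex (m := l') (by omega)
    omega

/-- Only two boundaries can be crossed in one step. -/
theorem cross_idx (φ : ℕ → ℕ → ℕ) (k l z lam idx : ℕ) (hk : k + 1 ≤ lam) (hl : l + 1 ≤ lam)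
    (h1 : ab φ lam ≤ z) (h2 : z < ab φ (lam + 1)) (hfix : φ l (φ k z) = z)
    (hs : (z < ab φ idx ∧ ab φ idx ≤ φ k z) ∨ (φ k z < ab φ idx ∧ ab φ idx ≤ z)) :
    (idx = lam + 1 ∧ ab φ idx ≤ φ k z) ∨ (idx = lam ∧ φ k z < ab φ idx) := by
  rcases hs with ⟨h3, h4⟩ | ⟨h3, h4⟩
  · left
    refine ⟨?_, h4⟩
    have h5 : lam < idx := by
      by_contra hcon
      have := (ab_strictMono φ).monotone (show idx ≤ lam by omega)
      omega
    have h6 : idx < lam + 2 := by
      rw [← (ab_strictMono φ).lt_iff_lt]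
      have h7 : ab φ (lam + 2) = grow φ (lam + 1) (grow φ (lam + 1) (ab φ (lam + 1))) + 1 := rfl
      have h8 : φ k z < grow φ (lam + 1) (ab φ (lam + 1)) :=
        step_lt_grow φ (lam + 1) k _ _ (by omega) h2.le
      have h9 := lt_grow φ (lam + 1) (grow φ (lam + 1) (ab φ (lam + 1)))
      omega
    omega
  · right
    refine ⟨?_, h3⟩
    have h5 : idx ≤ lam := by
      by_contra hcon
      have := (ab_strictMono φ).monotone (show lam + 1 ≤ idx by omega)
      omega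
    by_contra hcon
    obtain ⟨p, rfl⟩ : ∃ p, lam = p + 1 := ⟨lam - 1, by omega⟩
    have h6 : ab φ idx ≤ ab φ p := (ab_strictMono φ).monotone (by omega)
    have h7 : ab φ (p + 1) = grow φ p (grow φ p (ab φ p)) + 1 := rfl
    have h8 : φ l (φ k z) < grow φ p (ab φ p) := step_lt_grow φ p l _ _ (by omega) (by omega)
    have h9 := lt_grow φ p (grow φ p (ab φ p))
    omega

/-- The gap lemma. -/
theorem gap (φ : ℕ → ℕ → ℕ) (k l k' l' m z : ℕ) (hk : k ≤ m) (hl : l ≤ m) (hk' : k' ≤ m)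
    (hl' : l' ≤ m) (hz : ab φ (m + 1) ≤ z) (hfix : φ l (φ k z) = z) (hfix' : φ l' (φ k' z) = z)
    (hs : Sep φ 0 z (φ k z)) (hs' : Sep φ 1 z (φ k' z)) : False := by
  obtain ⟨lam, h1, h2⟩ := block_of φ z
  have hlam : m + 1 ≤ lam := by
    have : m + 1 < lam + 1 := by
      rw [← (ab_strictMono φ).lt_iff_lt]; omega
    omega
  obtain ⟨j, hj⟩ := hs
  obtain ⟨j', hj'⟩ := hs'
  have h3 := cross_idx φ k l z lam _ (by omega) (by omega) h1 h2 hfix hj
  have h4 := cross_idx φ k' l' z lam _ (by omega) (by omega) h1 h2 hfix' hj'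
  have h7 : ab φ (lam + 1) = grow φ lam (grow φ lam (ab φ lam)) + 1 := rfl
  rcases h3 with ⟨h3, h5⟩ | ⟨h3, h5⟩ <;> rcases h4 with ⟨h4, h6⟩ | ⟨h4, h6⟩
  · omega
  · -- k goes up, k' goes down
    rw [h4] at h6
    rw [h3] at h5
    have h8 : φ l' (φ k' z) < grow φ lam (ab φ lam) := step_lt_grow φ lam l' _ _ (by omega) h6.le
    have h9 : φ k z < grow φ lam (grow φ lam (ab φ lam)) :=
      step_lt_grow φ lam k _ _ (by omega) (by omega)
    omega
  · rw [h4] at h6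
    rw [h3] at h5
    have h8 : φ l (φ k z) < grow φ lam (ab φ lam) := step_lt_grow φ lam l _ _ (by omega) h5.le
    have h9 : φ k' z < grow φ lam (grow φ lam (ab φ lam)) :=
      step_lt_grow φ lam k' _ _ (by omega) (by omega)
    omega
  · omega

/-- One of the two parities works. -/
theorem CC_dichotomy (φ : ℕ → ℕ → ℕ) (x : ℕ → ℕ) (hx : StrictMono x) (hn : EvNice φ x)
    (h : ¬ CC φ 0 x) : CC φ 1 x := by
  unfold CC at h
  push Not at h
  obtain ⟨k, l, h⟩ := h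
  obtain ⟨i0, hi0⟩ := hn
  have hxid : ∀ i, i ≤ x i := fun i => hx.id_le i
  obtain ⟨i, hi, h1, h2⟩ := h (i0 + k + l + 1)
  have hall : ∀ j, i0 + k + l < j → Cr φ k l (x j) := by
    intro j hj
    have h3 := (hi0 (i0 + k + l) (by omega)).2.2.1 k
      (by have := hxid (i0 + k + l); omega) l (by have := hxid (i0 + k + l); omega) i (by omega)
      j hj
    exact h3.1 ⟨h1, h2⟩
  intro k' l'
  refine ⟨i0 + k + l + 1 + ab φ (k + l + k' + l' + 1), ?_⟩
  intro j hj hfix' hs'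
  obtain ⟨h4, h5⟩ := hall j (by omega)
  exact gap φ k l k' l' (k + l + k' + l') (x j) (by omega) (by omega) (by omega) (by omega)
    (by have := hxid j; omega) h4 hfix' h5 hs'

theorem CC_invariant (φ : ℕ → ℕ → ℕ) (hcomp : ∀ k l, ∃ m, ∀ z, φ m z = φ k (φ l z))
    (x y : ℕ → ℕ) (k l i j ε : ℕ)
    (hm : ∀ n, φ k (x (i + n)) = y (j + n) ∧ φ l (y (j + n)) = x (i + n))
    (h : CC φ ε x) : CC φ ε y := by
  intro k' l'
  obtain ⟨k'', hk''⟩ := hcomp k' k
  obtain ⟨l'', hl''⟩ := hcomp l l'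
  obtain ⟨I1, hI1⟩ := h k'' l''
  obtain ⟨I2, hI2⟩ := h k l
  refine ⟨j + I1 + I2, ?_⟩
  intro j' hj' hfix hsep
  obtain ⟨n, rfl⟩ : ∃ n, j' = j + n := ⟨j' - j, by omega⟩
  obtain ⟨h1, h2⟩ := hm n
  have h3 : φ l'' (φ k'' (x (i + n))) = x (i + n) := by
    rw [hk'', hl'', h1, hfix, h2]
  have h4 := hI1 (i + n) (by omega) h3
  have h5 := hI2 (i + n) (by omega) (by rw [h1, h2])
  rw [hk'', h1] at h4
  rw [h1] at h5
  rcases hsep.split (x (i + n)) with h6 | h6
  · exact h5 h6.symm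
  · exact h4 h6

open Classical in
/-- The parity used for a sequence. -/
noncomputable def eps (φ : ℕ → ℕ → ℕ) (x : ℕ → ℕ) : ℕ := if CC φ 0 x then 0 else 1

theorem CC_eps (φ : ℕ → ℕ → ℕ) (x : ℕ → ℕ) (hx : StrictMono x) (hn : EvNice φ x) :
    CC φ (eps φ x) x := by
  unfold eps
  split_ifs with h
  · exact h
  · exact CC_dichotomy φ x hx hn h

/-- First index whose value passes a bound. -/
noncomputable def anch (x : ℕ → ℕ) (b : ℕ) : ℕ := sInf {i | b ≤ x i}

theorem anch_spec (x : ℕ → ℕ) (hx : StrictMono x) (b : ℕ) :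
    b ≤ x (anch x b) ∧ ∀ i, b ≤ x i → anch x b ≤ i := by
  have hne : {i | b ≤ x i}.Nonempty := ⟨b, hx.id_le b⟩
  exact ⟨Nat.sInf_mem hne, fun i hi => Nat.sInf_le hi⟩

/-- The anchored tail. -/
noncomputable def TT (φ : ℕ → ℕ → ℕ) (n : ℕ) (x : ℕ → ℕ) : ℕ → ℕ :=
  fun t => x (anch x (ab φ (2 * n + eps φ x)) + 1 + t)

/-- **Related nice sequences have eventually related anchored tails.** -/
theorem eventually_rel (φ : ℕ → ℕ → ℕ) (hcomp : ∀ k l, ∃ m, ∀ z, φ m z = φ k (φ l z))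
    (x y : ℕ → ℕ) (hx : StrictMono x) (hy : StrictMono y) (hnx : EvNice φ x) (hny : EvNice φ y)
    (k l : ℕ) (h1 : (symmDiff (φ k '' Set.range x) (Set.range y)).Finite)
    (h2 : (symmDiff (φ l '' Set.range y) (Set.range x)).Finite) :
    ∃ N, ∀ n, N ≤ n → Rel φ n (TT φ n x) (TT φ n y) := by
  obtain ⟨i, j, hm⟩ := matching φ x y hx hy hnx k l h1 h2
  have heps : eps φ x = eps φ y := by
    unfold eps
    have h3 : CC φ 0 x ↔ CC φ 0 y :=
      ⟨CC_invariant φ hcomp x y k l i j 0 hm,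
        CC_invariant φ hcomp y x l k j i 0 (fun n => ⟨(hm n).2, (hm n).1⟩)⟩
    by_cases h : CC φ 0 x
    · rw [if_pos h, if_pos (h3.1 h)]
    · rw [if_neg h, if_neg (fun h' => h (h3.2 h'))]
  obtain ⟨I, hI⟩ := CC_eps φ x hx hnx k l
  obtain ⟨i0, hi0⟩ := hnx
  obtain ⟨j0, hj0⟩ := hny
  have hxid : ∀ i, i ≤ x i := fun i => hx.id_le i
  have hyid : ∀ i, i ≤ y i := fun i => hy.id_le i
  set t0 := I + i0 + j0 with ht0
  refine ⟨k + l + x (i + t0) + y (j + t0) + 1, ?_⟩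
  intro n hn
  set ε := eps φ x with hε
  have hab : 2 * n + ε ≤ ab φ (2 * n + ε) := le_ab φ _
  obtain ⟨hx1, hx2⟩ := anch_spec x hx (ab φ (2 * n + ε))
  obtain ⟨hy1, hy2⟩ := anch_spec y hy (ab φ (2 * n + ε))
  have hix : i + t0 < anch x (ab φ (2 * n + ε)) := by
    rw [← hx.lt_iff_lt]; omega
  have hjy : j + t0 < anch y (ab φ (2 * n + ε)) := by
    rw [← hy.lt_iff_lt]; omega
  obtain ⟨t1, ht1⟩ : ∃ t1, anch x (ab φ (2 * n + ε)) = i + t1 :=
    ⟨anch x (ab φ (2 * n + ε)) - i, by omega⟩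
  obtain ⟨t2, ht2⟩ : ∃ t2, anch y (ab φ (2 * n + ε)) = j + t2 :=
    ⟨anch y (ab φ (2 * n + ε)) - j, by omega⟩
  have hnosep : ∀ t, t0 ≤ t → (ab φ (2 * n + ε) ≤ x (i + t) ↔ ab φ (2 * n + ε) ≤ y (j + t)) := by
    intro t ht
    have h3 := hI (i + t) (by omega) (by rw [(hm t).1, (hm t).2])
    rw [(hm t).1] at h3
    constructor
    · intro h4
      by_contra h5
      exact h3 ⟨n, Or.inr ⟨by omega, h4⟩⟩
    · intro h4
      by_contra h5
      exact h3 ⟨n, Or.inl ⟨by omega, h4⟩⟩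
  have ht12 : t1 = t2 := by
    apply le_antisymm
    · have h3 := (hnosep t2 (by omega)).2 (by rw [← ht2]; exact hy1)
      have := hx2 _ h3
      omega
    · have h3 := (hnosep t1 (by omega)).1 (by rw [← ht1]; exact hx1)
      have := hy2 _ h3
      omega
  have hTx : TT φ n x = fun t => x (i + t1 + 1 + t) := by
    unfold TT; rw [← hε, ht1]
  have hTy : TT φ n y = fun t => y (j + t1 + 1 + t) := by
    unfold TT; rw [← heps, ht2, ht12]
  rw [hTx, hTy]
  apply rel_of_step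
  · apply (hi0 (i + t1) (by omega)).1
    rw [← ht1]; omega
  · apply (hj0 (j + t1) (by omega)).1
    rw [ht12, ← ht2]; omega
  · refine ⟨k, by omega, ?_⟩
    intro t
    have := (hm (t1 + 1 + t)).1
    rw [show i + t1 + 1 + t = i + (t1 + 1 + t) by ring,
      show j + t1 + 1 + t = j + (t1 + 1 + t) by ring]
    exact this
  · refine ⟨l, by omega, ?_⟩
    intro t
    have := (hm (t1 + 1 + t)).2
    rw [show i + t1 + 1 + t = i + (t1 + 1 + t) by ring,
      show j + t1 + 1 + t = j + (t1 + 1 + t) by ring]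
    exact this

end Pool.Agent.W_MP_d5b253_lc
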