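import Pool.Agent.W_MP_d5b253_lc.Ramsey

/-!
The nice sequences form a Ramsey co-null set.
-/

set_option autoImplicit false

open Finset

namespace Pool.Agent.W_MP_d5b253_lc

/-- Boundaries used to anchor the tails. -/
def ab (φ : ℕ → ℕ → ℕ) : ℕ → ℕ
  | 0 => 0
  | l + 1 => grow φ l (grow φ l (ab φ l)) + 1

theorem ab_strictMono (φ : ℕ → ℕ → ℕ) : StrictMono (ab φ) := by
  apply strictMono_nat_of_lt_succ
  intro l
  rw [ab]
  have h1 := lt_grow φ l (ab φ l)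
  have h2 := lt_grow φ l (grow φ l (ab φ l))
  omega

theorem le_ab (φ : ℕ → ℕ → ℕ) (l : ℕ) : l ≤ ab φ l := (ab_strictMono φ).id_le l

/-- Separated by a boundary of parity `ε`. -/
def Sep (φ : ℕ → ℕ → ℕ) (ε z z' : ℕ) : Prop :=
  ∃ j, (z < ab φ (2 * j + ε) ∧ ab φ (2 * j + ε) ≤ z') ∨
    (z' < ab φ (2 * j + ε) ∧ ab φ (2 * j + ε) ≤ z)

/-- The pair of maps `(k, l)` carries `z` back to itself and crosses an even boundary. -/
def Cr (φ : ℕ → ℕ → ℕ) (k l z : ℕ) : Prop := φ l (φ k z) = z ∧ Sep φ 0 z (φ k z)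

/-- Niceness of a sequence at the index `i`. -/
def Nice (φ : ℕ → ℕ → ℕ) (x : ℕ → ℕ) (i : ℕ) : Prop :=
  (∀ m ≤ x i, Good φ m (fun k => x (i + 1 + k))) ∧
  (∀ k ≤ x i, ∀ l ≤ x i, ∀ j, i < j → ∀ j', i < j' →
    (φ l (φ k (x j)) = x i ↔ φ l (φ k (x j')) = x i)) ∧
  (∀ k ≤ x i, ∀ l ≤ x i, ∀ j, i < j → ∀ j', i < j' →
    (Cr φ k l (x j) ↔ Cr φ k l (x j'))) ∧
  grow φ (x i) (grow φ (x i) (x i)) ≤ x (i + 1)

/-- Eventually nice sequences. -/
def EvNice (φ : ℕ → ℕ → ℕ) (x : ℕ → ℕ) : Prop := ∃ i0, ∀ i, i0 ≤ i → Nice φ x i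

theorem endHomSet (R : ℕ → Set (ℕ → ℕ)) (hR : ∀ a, (R a).Finite)
    (hr : ∀ a, ∀ r ∈ R a, (Set.range r).Finite) (g : ℕ → ℕ) (A : Set ℕ) (hA : A.Infinite) :
    ∃ D ⊆ A, D.Infinite ∧ (∀ a ∈ D, ∀ b ∈ D, a < b → g a ≤ b) ∧
      ∀ a ∈ D, ∀ b ∈ D, ∀ b' ∈ D, a < b → a < b' → ∀ r ∈ R a, r b = r b' := by
  obtain ⟨e, h1, h2, h3, h4⟩ := endHom R hR hr g A hA
  refine ⟨Set.range e, ?_, Set.infinite_range_of_injective h1.injective, ?_, ?_⟩
  · rintro _ ⟨i, rfl⟩; exact h2 i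
  · rintro _ ⟨i, rfl⟩ _ ⟨j, rfl⟩ hij
    exact h3 i j (h1.lt_iff_lt.1 hij)
  · rintro _ ⟨i, rfl⟩ _ ⟨j, rfl⟩ _ ⟨j', rfl⟩ hij hij' r hrR
    exact h4 i j j' (h1.lt_iff_lt.1 hij) (h1.lt_iff_lt.1 hij') r hrR

open Classical in
/-- indicator -/
noncomputable def ind (p : ℕ → Prop) : ℕ → ℕ := fun b => if p b then 1 else 0

theorem ind_range (p : ℕ → Prop) : (Set.range (ind p)).Finite := by
  apply Set.Finite.subset (Set.finite_Iic 1)
  rintro _ ⟨b, rfl⟩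
  simp only [ind, Set.mem_Iic]
  split_ifs <;> omega

theorem ind_eq_iff (p : ℕ → Prop) (b b' : ℕ) (h : ind p b = ind p b') : p b ↔ p b' := by
  unfold ind at h
  by_cases h1 : p b <;> by_cases h2 : p b' <;> simp_all

/-- The first family of colourings. -/
noncomputable def R1 (φ : ℕ → ℕ → ℕ) (a : ℕ) : Set (ℕ → ℕ) :=
  (fun m => chi φ m a) '' (Set.Iic a) ∪
  (fun p : List ℕ × List ℕ => ind (fun b => ev φ p.1 b = ev φ p.2 b)) ''
    ((wordsLe a a : Set (List ℕ)) ×ˢ (wordsLe a a : Set (List ℕ))) ∪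
  (fun p : ℕ × ℕ => ind (fun b => φ p.2 (φ p.1 b) = a)) '' (Set.Iic a ×ˢ Set.Iic a) ∪
  (fun p : ℕ × ℕ => ind (fun b => Cr φ p.1 p.2 b)) '' (Set.Iic a ×ˢ Set.Iic a)

theorem chi_range (φ : ℕ → ℕ → ℕ) (m a : ℕ) : (Set.range (chi φ m a)).Finite := by
  apply Set.Finite.subset (Set.finite_Iio ((KK m) ^ 2))
  rintro _ ⟨b, rfl⟩
  exact chi_lt φ m a b

theorem R1_finite (φ : ℕ → ℕ → ℕ) (a : ℕ) : (R1 φ a).Finite := by
  unfold R1
  refine ((Set.Finite.union ?_ ?_).union ?_).union ?_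
  · exact (Set.finite_Iic a).image _
  · exact ((Finset.finite_toSet _).prod (Finset.finite_toSet _)).image _
  · exact ((Set.finite_Iic a).prod (Set.finite_Iic a)).image _
  · exact ((Set.finite_Iic a).prod (Set.finite_Iic a)).image _

theorem R1_range (φ : ℕ → ℕ → ℕ) (a : ℕ) : ∀ r ∈ R1 φ a, (Set.range r).Finite := by
  intro r hr
  rcases hr with ((⟨m, _, rfl⟩ | ⟨p, _, rfl⟩) | ⟨p, _, rfl⟩) | ⟨p, _, rfl⟩
  · exact chi_range φ m a
  · exact ind_range _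
  · exact ind_range _
  · exact ind_range _

/-- The growth required. -/
noncomputable def g1 (φ : ℕ → ℕ → ℕ) (a : ℕ) : ℕ :=
  ∑ m ∈ range (a + 1), gg φ m a + grow φ a (grow φ a a)

theorem gg_le_g1 (φ : ℕ → ℕ → ℕ) (m a : ℕ) (h : m ≤ a) : gg φ m a ≤ g1 φ a := by
  unfold g1
  have h1 : gg φ m a ≤ ∑ m ∈ range (a + 1), gg φ m a :=
    Finset.single_le_sum (f := fun m => gg φ m a) (fun _ _ => Nat.zero_le _)
      (Finset.mem_range.2 (by omega))
  omega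

/-- **Co-nullity.** -/
theorem exists_nice (φ : ℕ → ℕ → ℕ) (A : Set ℕ) (hA : A.Infinite) :
    ∃ D ⊆ A, D.Infinite ∧ ∀ x : ℕ → ℕ, StrictMono x → ∀ i0, (∀ i, i0 ≤ i → x i ∈ D) →
      ∀ i, i0 ≤ i → Nice φ x i := by
  obtain ⟨D1, hD1A, hD1, hg1, he1⟩ := endHomSet (R1 φ) (R1_finite φ) (R1_range φ) (g1 φ) A hA
  have hnb : ∀ b, ∃ b', b' ∈ D1 ∧ b < b' := by
    intro b
    obtain ⟨b', h1, h2⟩ := hD1.exists_gt b
    exact ⟨b', h1, h2⟩
  choose nb hnb1 hnb2 using hnb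
  obtain ⟨D2, hD2, hD2inf, _, he2⟩ := endHomSet
    (fun a => (fun m => fun b => chi φ m b (nb b)) '' (Set.Iic a))
    (fun a => (Set.finite_Iic a).image _)
    (by
      rintro a _ ⟨m, _, rfl⟩
      apply Set.Finite.subset (Set.finite_Iio ((KK m) ^ 2))
      rintro _ ⟨b, rfl⟩
      exact chi_lt φ m b (nb b))
    (fun _ => 0) D1 hD1
  refine ⟨D2, hD2.trans hD1A, hD2inf, ?_⟩
  intro x hx i0 hxD i hi
  have hD : ∀ j, i0 ≤ j → x j ∈ D1 := fun j hj => hD2 (hxD j hj)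
  -- the colours of pairs
  have hchi : ∀ m j j', i0 ≤ j → j < j' → m ≤ x j → chi φ m (x j) (x j') =
      chi φ m (x j) (nb (x j)) := by
    intro m j j' hj hjj' hm
    apply he1 (x j) (hD j hj) (x j') (hD j' (by omega)) (nb (x j)) (hnb1 _) (hx hjj') (hnb2 _)
    unfold R1
    exact Or.inl (Or.inl (Or.inl ⟨m, hm, rfl⟩))
  have hchi2 : ∀ m p j j', i0 ≤ p → p < j → p < j' → m ≤ x p →
      chi φ m (x j) (nb (x j)) = chi φ m (x j') (nb (x j')) := by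
    intro m p j j' hp hj hj' hm
    exact he2 (x p) (hxD p hp) (x j) (hxD j (by omega)) (x j') (hxD j' (by omega)) (hx hj)
      (hx hj') _ ⟨m, hm, rfl⟩
  have hgr : ∀ j j', i0 ≤ j → j < j' → g1 φ (x j) ≤ x j' := by
    intro j j' hj hjj'
    exact hg1 _ (hD j hj) _ (hD j' (by omega)) (hx hjj')
  refine ⟨?_, ?_, ?_, ?_⟩
  · intro m hm
    have hlt1 : x i < x (i + 1) := hx (by omega)
    have hlt2 : x (i + 1) < x (i + 2) := hx (by omega)
    refine ⟨?_, ?_, ?_, ?_, ?_, ?_⟩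
    · intro p q hpq
      exact hx (by omega)
    · simp only [add_zero]; omega
    · simp only [add_zero]
      exact (gg_le_g1 φ m _ (by omega)).trans (hgr (i + 1) (i + 1 + 1) (by omega) (by omega))
    · exact (gg_le_g1 φ m _ (by show m ≤ x (i + 2); omega)).trans
        (hgr (i + 2) (i + 1 + 2) (by omega) (by omega))
    · intro w hw w' hw' j hj
      simp only [add_zero] at hw hw'
      have h1 := he1 (x (i + 1)) (hD _ (by omega)) (x (i + 1 + 1)) (hD _ (by omega))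
        (x (i + 1 + j)) (hD _ (by omega)) (hx (by omega)) (hx (by omega))
        (ind (fun b => ev φ w b = ev φ w' b)) (by
          unfold R1
          exact Or.inl (Or.inl (Or.inr ⟨(w, w'), ⟨hw, hw'⟩, rfl⟩)))
      exact ind_eq_iff _ _ _ h1
    · show chi φ m (x (i + 1)) (x (i + 2)) = chi φ m (x (i + 2)) (x (i + 3))
      rw [hchi m (i + 1) (i + 2) (by omega) (by omega) (by omega),
        hchi m (i + 2) (i + 3) (by omega) (by omega) (by omega)]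
      exact hchi2 m i (i + 1) (i + 2) hi (by omega) (by omega) hm
  · intro k hk l hl j hj j' hj'
    have h1 := he1 (x i) (hD _ hi) (x j) (hD _ (by omega)) (x j') (hD _ (by omega)) (hx hj)
      (hx hj') (ind (fun b => φ l (φ k b) = x i)) (by
        unfold R1
        exact Or.inl (Or.inr ⟨(k, l), ⟨hk, hl⟩, rfl⟩))
    exact ind_eq_iff _ _ _ h1
  · intro k hk l hl j hj j' hj'
    have h1 := he1 (x i) (hD _ hi) (x j) (hD _ (by omega)) (x j') (hD _ (by omega)) (hx hj)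
      (hx hj') (ind (fun b => Cr φ k l b)) (by
        unfold R1
        exact Or.inr ⟨(k, l), ⟨hk, hl⟩, rfl⟩)
    exact ind_eq_iff _ _ _ h1
  · have h1 := hgr i (i + 1) hi (by omega)
    unfold g1 at h1
    omega

end Pool.Agent.W_MP_d5b253_lc
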