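import Pool.Agent.W_MP_d5b253_lc.Graph

/-!
End-homogeneous sets.
-/

set_option autoImplicit false

open Finset

namespace Pool.Agent.W_MP_d5b253_lc

theorem pigeon1 (S : Set ℕ) (hS : S.Infinite) (r : ℕ → ℕ) (hr : (Set.range r).Finite) :
    ∃ S' ⊆ S, S'.Infinite ∧ ∀ b ∈ S', ∀ b' ∈ S', r b = r b' := by
  by_contra hcon
  push Not at hcon
  apply hS
  have h1 : S ⊆ ⋃ v ∈ Set.range r, {b ∈ S | r b = v} := by
    intro b hb
    simp only [Set.mem_iUnion]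
    exact ⟨r b, ⟨b, rfl⟩, hb, rfl⟩
  apply Set.Finite.subset _ h1
  apply hr.biUnion
  intro v _
  by_contra hinf
  obtain ⟨b, hb, b', hb', hne⟩ := hcon {b ∈ S | r b = v} (fun b hb => hb.1) hinf
  exact hne (hb.2.trans hb'.2.symm)

theorem pigeon (S : Set ℕ) (hS : S.Infinite) (T : Set (ℕ → ℕ)) (hT : T.Finite)
    (hr : ∀ r ∈ T, (Set.range r).Finite) :
    ∃ S' ⊆ S, S'.Infinite ∧ ∀ r ∈ T, ∀ b ∈ S', ∀ b' ∈ S', r b = r b' := by
  induction T, hT using Set.Finite.induction_on with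
  | empty => exact ⟨S, subset_rfl, hS, by simp⟩
  | @insert r T _ _ ih =>
    obtain ⟨S1, h1, h2, h3⟩ := ih (fun r' hr' => hr r' (Set.mem_insert_of_mem _ hr'))
    obtain ⟨S2, h4, h5, h6⟩ := pigeon1 S1 h2 r (hr r (Set.mem_insert _ _))
    refine ⟨S2, h4.trans h1, h5, ?_⟩
    intro r' hr' b hb b' hb'
    rcases Set.mem_insert_iff.1 hr' with rfl | h7
    · exact h6 b hb b' hb'
    · exact h3 r' h7 b (h4 hb) b' (h4 hb')

/-- **End-homogeneous sets.** -/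
theorem endHom (R : ℕ → Set (ℕ → ℕ)) (hR : ∀ a, (R a).Finite)
    (hr : ∀ a, ∀ r ∈ R a, (Set.range r).Finite) (g : ℕ → ℕ) (A : Set ℕ) (hA : A.Infinite) :
    ∃ e : ℕ → ℕ, StrictMono e ∧ (∀ i, e i ∈ A) ∧ (∀ i j, i < j → g (e i) ≤ e j) ∧
      ∀ i j j', i < j → i < j' → ∀ r ∈ R (e i), r (e j) = r (e j') := by
  have hstep : ∀ S : {S : Set ℕ // S.Infinite}, ∃ a, a ∈ S.1 ∧ ∃ S' : {S : Set ℕ // S.Infinite},
      S'.1 ⊆ S.1 ∧ (∀ b ∈ S'.1, a < b ∧ g a ≤ b) ∧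
      ∀ r ∈ R a, ∀ b ∈ S'.1, ∀ b' ∈ S'.1, r b = r b' := by
    rintro ⟨S, hS⟩
    obtain ⟨a, ha⟩ := hS.nonempty
    have h1 : (S \ Set.Iic (a + g a)).Infinite := hS.sdiff (Set.finite_Iic _)
    obtain ⟨S', h2, h3, h4⟩ := pigeon _ h1 (R a) (hR a) (hr a)
    refine ⟨a, ha, ⟨S', h3⟩, h2.trans Set.sdiff_subset, ?_, h4⟩
    intro b hb
    have h5 := (h2 hb).2
    simp only [Set.mem_Iic, not_le] at h5
    constructor <;> omega
  choose f1 h1 f2 h2 h3 h4 using hstep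
  let seq : ℕ → {S : Set ℕ // S.Infinite} := fun n => Nat.rec ⟨A, hA⟩ (fun _ S => f2 S) n
  have hseq : ∀ n, seq (n + 1) = f2 (seq n) := fun n => rfl
  have hsub : ∀ n d, (seq (n + d)).1 ⊆ (seq n).1 := by
    intro n d
    induction d with
    | zero => exact subset_rfl
    | succ d ih =>
      rw [← add_assoc, hseq]
      exact (h2 _).trans ih
  have hmem : ∀ i j, i < j → f1 (seq j) ∈ (f2 (seq i)).1 := by
    intro i j hij
    obtain ⟨d, rfl⟩ : ∃ d, j = i + 1 + d := ⟨j - (i + 1), by omega⟩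
    have h5 := hsub (i + 1) d (h1 (seq (i + 1 + d)))
    rwa [hseq] at h5
  refine ⟨fun n => f1 (seq n), ?_, ?_, ?_, ?_⟩
  · intro i j hij
    exact (h3 _ _ (hmem i j hij)).1
  · intro i
    have h5 := hsub 0 i
    rw [zero_add] at h5
    exact h5 (h1 (seq i))
  · intro i j hij
    exact (h3 _ _ (hmem i j hij)).2
  · intro i j j' hij hij' r hrR
    exact h4 _ r hrR _ (hmem i j hij) _ (hmem i j' hij')

end Pool.Agent.W_MP_d5b253_lc
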