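import Mathlib

/-!
A finite local lemma proved by Rosenfeld's counting argument.
-/

set_option autoImplicit false

open Finset

namespace Pool.Agent.W_MP_d5b253_lc

section

variable {V ι : Type*} [Fintype V] [DecidableEq V] {K : ℕ}

open Classical in
/-- The colourings avoiding all events supported inside `A`. -/
noncomputable def good (E : Finset ι) (e : ι → Finset V) (Bad : ι → (V → Fin K) → Prop)
    (A : Finset V) : Finset (V → Fin K) :=
  Finset.univ.filter (fun f => ∀ i ∈ E, e i ⊆ A → ¬ Bad i f)

theorem mem_good (E : Finset ι) (e : ι → Finset V) (Bad : ι → (V → Fin K) → Prop)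
    (A : Finset V) (f : V → Fin K) :
    f ∈ good E e Bad A ↔ ∀ i ∈ E, e i ⊆ A → ¬ Bad i f := by
  classical
  simp [good]

open Classical in
theorem card_bad_le (E : Finset ι) (e d : ι → Finset V) (Bad : ι → (V → Fin K) → Prop)
    (hsupp : ∀ i ∈ E, ∀ f f' : V → Fin K, (∀ v ∈ e i, f v = f' v) → Bad i f → Bad i f')
    (hdet : ∀ i ∈ E, ∀ f f' : V → Fin K, (∀ v, v ∉ d i → f v = f' v) →
      Bad i f → Bad i f' → f = f')
    (A : Finset V) (i : ι) (hi : i ∈ E) :
    ((good E e Bad (A \ d i)).filter (fun f => Bad i f)).card * K ^ (d i).card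
      ≤ (good E e Bad (A \ d i)).card := by
  have h1 : Fintype.card ({x // x ∈ d i} → Fin K) = K ^ (d i).card := by
    simp
  rw [← h1, ← Finset.card_univ, ← Finset.card_product]
  apply Finset.card_le_card_of_injOn
    (fun p : (V → Fin K) × ({x // x ∈ d i} → Fin K) =>
      fun v => if h : v ∈ d i then p.2 ⟨v, h⟩ else p.1 v)
  · rintro ⟨f, g⟩ hfg
    simp only [Finset.coe_product, Finset.coe_filter, Finset.coe_univ, Set.mem_prod,
      Set.mem_ofPred_eq, Set.mem_univ, and_true] at hfg
    rw [Finset.mem_coe, mem_good]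
    intro j hj hjA hbad
    have h2 := (mem_good E e Bad _ f).1 hfg.1 j hj hjA
    apply h2
    apply hsupp j hj _ _ _ hbad
    intro v hv
    have hv2 : v ∉ d i := by
      have := hjA hv
      rw [Finset.mem_sdiff] at this
      exact this.2
    simp [hv2]
  · rintro ⟨f, g⟩ hfg ⟨f', g'⟩ hfg' heq
    simp only [Finset.coe_product, Finset.coe_filter, Finset.coe_univ, Set.mem_prod,
      Set.mem_ofPred_eq, Set.mem_univ, and_true] at hfg hfg'
    simp only at heq
    have hg : g = g' := by
      funext ⟨v, hv⟩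
      have := congrFun heq v
      simpa [hv] using this
    have hf : f = f' := by
      apply hdet i hi _ _ _ hfg.2 hfg'.2
      intro v hv
      have := congrFun heq v
      simpa [hv] using this
    rw [hf, hg]

open Classical in
theorem good_step (hK : 0 < K) (E : Finset ι) (e d : ι → Finset V)
    (Bad : ι → (V → Fin K) → Prop)
    (hsupp : ∀ i ∈ E, ∀ f f' : V → Fin K, (∀ v ∈ e i, f v = f' v) → Bad i f → Bad i f')
    (hdet : ∀ i ∈ E, ∀ f f' : V → Fin K, (∀ v, v ∉ d i → f v = f' v) →
      Bad i f → Bad i f' → f = f')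
    (hsum : ∀ v, ∑ i ∈ E with v ∈ e i, ((2 : ℝ) / K) ^ (d i).card ≤ 1 / 2) :
    ∀ (n : ℕ) (A : Finset V), A.card = n → ∀ v ∉ A,
      ((good E e Bad A).card : ℝ) ≤ 2 * ((good E e Bad (insert v A)).card : ℝ) := by
  intro n
  induction n using Nat.strong_induction_on with
  | _ n ih =>
  intro A hA v hv
  -- removing a subset
  have hrem : ∀ D : Finset V, D ⊆ A →
      ((good E e Bad (A \ D)).card : ℝ) ≤ 2 ^ D.card * ((good E e Bad A).card : ℝ) := by
    intro D
    induction D using Finset.induction_on with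
    | empty => intro _; simp
    | insert x D hx ihD =>
      intro hD
      have hxA : x ∈ A := hD (Finset.mem_insert_self x D)
      have hDA : D ⊆ A := fun y hy => hD (Finset.mem_insert_of_mem hy)
      have h1 := ihD hDA
      have h2 : insert x (A \ insert x D) = A \ D := by
        ext y
        simp only [Finset.mem_insert, Finset.mem_sdiff]
        constructor
        · rintro (rfl | ⟨h, h'⟩)
          · exact ⟨hxA, hx⟩
          · exact ⟨h, fun h'' => h' (Or.inr h'')⟩
        · rintro ⟨h, h'⟩
          by_cases hyx : y = x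
          · exact Or.inl hyx
          · exact Or.inr ⟨h, fun h'' => h''.elim hyx h'⟩
      have h3 : (A \ insert x D).card < n := by
        rw [← hA]
        apply Finset.card_lt_card
        rw [Finset.ssubset_iff_of_subset Finset.sdiff_subset]
        exact ⟨x, hxA, by simp⟩
      have h4 := ih _ h3 (A \ insert x D) rfl x (by simp)
      rw [h2] at h4
      rw [Finset.card_insert_of_notMem hx, pow_succ]
      nlinarith
  set N : ℝ := ((good E e Bad A).card : ℝ) with hN
  have hN0 : 0 ≤ N := by positivity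
  have hKr : (0 : ℝ) < K := by exact_mod_cast hK
  -- each bad event is rare
  have hev : ∀ i ∈ E, (((good E e Bad A).filter (fun f => Bad i f)).card : ℝ)
      ≤ ((2 : ℝ) / K) ^ (d i).card * N := by
    intro i hi
    have h1 : (((good E e Bad A).filter (fun f => Bad i f)).card : ℝ) ≤
        (((good E e Bad (A \ d i)).filter (fun f => Bad i f)).card : ℝ) := by
      norm_cast
      apply Finset.card_le_card
      apply Finset.filter_subset_filter
      intro f hf
      rw [mem_good] at hf ⊢
      intro j hj hjA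
      exact hf j hj (hjA.trans Finset.sdiff_subset)
    have h2 := card_bad_le E e d Bad hsupp hdet A i hi
    have h2' : (((good E e Bad (A \ d i)).filter (fun f => Bad i f)).card : ℝ) * (K : ℝ) ^ (d i).card
        ≤ ((good E e Bad (A \ d i)).card : ℝ) := by exact_mod_cast h2
    have h3 := hrem (A ∩ d i) Finset.inter_subset_left
    have h4 : A \ (A ∩ d i) = A \ d i := by
      ext y; simp
    rw [h4] at h3
    have h5 : (2 : ℝ) ^ (A ∩ d i).card ≤ 2 ^ (d i).card := by
      apply pow_le_pow_right₀ (by norm_num)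
      exact Finset.card_le_card Finset.inter_subset_right
    have h6 : (((good E e Bad (A \ d i)).filter (fun f => Bad i f)).card : ℝ) * (K : ℝ) ^ (d i).card
        ≤ 2 ^ (d i).card * N := by
      refine h2'.trans (h3.trans ?_)
      exact mul_le_mul_of_nonneg_right h5 hN0
    refine h1.trans ?_
    rw [div_pow, div_mul_eq_mul_div, le_div_iff₀ (by positivity)]
    exact h6
  have hsub : good E e Bad A ⊆ good E e Bad (insert v A) ∪
      (E.filter (fun i => v ∈ e i)).biUnion (fun i => (good E e Bad A).filter (fun f => Bad i f)) := by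
    intro f hf
    by_cases hf2 : f ∈ good E e Bad (insert v A)
    · exact Finset.mem_union_left _ hf2
    · apply Finset.mem_union_right
      rw [mem_good] at hf2
      push Not at hf2
      obtain ⟨i, hi, hiA, hbad⟩ := hf2
      rw [Finset.mem_biUnion]
      refine ⟨i, ?_, ?_⟩
      · rw [Finset.mem_filter]
        refine ⟨hi, ?_⟩
        by_contra hvi
        have h1 : e i ⊆ A := by
          intro y hy
          have := hiA hy
          rw [Finset.mem_insert] at this
          rcases this with rfl | h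
          · exact absurd hy hvi
          · exact h
        exact (mem_good E e Bad A f).1 hf i hi h1 hbad
      · rw [Finset.mem_filter]
        exact ⟨hf, hbad⟩
  have hcard : N ≤ ((good E e Bad (insert v A)).card : ℝ) +
      ∑ i ∈ E with v ∈ e i, (((good E e Bad A).filter (fun f => Bad i f)).card : ℝ) := by
    have h1 := (Finset.card_le_card hsub).trans (Finset.card_union_le _ _)
    have h2 := Finset.card_biUnion_le (s := E.filter (fun i => v ∈ e i))
      (t := fun i => (good E e Bad A).filter (fun f => Bad i f))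
    have h3 := h1.trans (Nat.add_le_add_left h2 _)
    rw [hN]
    exact_mod_cast h3
  have hsum2 : ∑ i ∈ E with v ∈ e i, (((good E e Bad A).filter (fun f => Bad i f)).card : ℝ)
      ≤ 1 / 2 * N := by
    calc ∑ i ∈ E with v ∈ e i, (((good E e Bad A).filter (fun f => Bad i f)).card : ℝ)
        ≤ ∑ i ∈ E with v ∈ e i, ((2 : ℝ) / K) ^ (d i).card * N := by
          apply Finset.sum_le_sum
          intro i hi
          exact hev i (Finset.mem_filter.1 hi).1
      _ = (∑ i ∈ E with v ∈ e i, ((2 : ℝ) / K) ^ (d i).card) * N := by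
          rw [Finset.sum_mul]
      _ ≤ 1 / 2 * N := mul_le_mul_of_nonneg_right (hsum v) hN0
  linarith

open Classical in
/-- **Finite local lemma** (Rosenfeld's counting form). -/
theorem rosenfeld (hK : 0 < K) (E : Finset ι) (e d : ι → Finset V)
    (Bad : ι → (V → Fin K) → Prop) (hne : ∀ i ∈ E, (e i).Nonempty)
    (hsupp : ∀ i ∈ E, ∀ f f' : V → Fin K, (∀ v ∈ e i, f v = f' v) → Bad i f → Bad i f')
    (hdet : ∀ i ∈ E, ∀ f f' : V → Fin K, (∀ v, v ∉ d i → f v = f' v) →
      Bad i f → Bad i f' → f = f')
    (hsum : ∀ v, ∑ i ∈ E with v ∈ e i, ((2 : ℝ) / K) ^ (d i).card ≤ 1 / 2) :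
    ∃ f : V → Fin K, ∀ i ∈ E, ¬ Bad i f := by
  have key : ∀ A : Finset V, 0 < (good E e Bad A).card := by
    intro A
    induction A using Finset.induction_on with
    | empty =>
      rw [Finset.card_pos]
      refine ⟨fun _ => ⟨0, hK⟩, ?_⟩
      rw [mem_good]
      intro i hi hA
      exact absurd (Finset.subset_empty.1 hA) (hne i hi).ne_empty
    | insert v A hv ih =>
      have h := good_step hK E e d Bad hsupp hdet hsum A.card A rfl v hv
      have h2 : (0 : ℝ) < ((good E e Bad A).card : ℝ) := by exact_mod_cast ih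
      have h3 : (0 : ℝ) < ((good E e Bad (insert v A)).card : ℝ) := by linarith
      exact_mod_cast h3
  obtain ⟨f, hf⟩ := Finset.card_pos.1 (key Finset.univ)
  rw [mem_good] at hf
  exact ⟨f, fun i hi => hf i hi (Finset.subset_univ _)⟩

end

open Classical in
/-- The local lemma for colourings of an arbitrary type with finitely many relevant points. -/
theorem rosenfeld' {α ι : Type*} [DecidableEq α] {K : ℕ} (hK : 0 < K) (Vs : Finset α)
    (E : Finset ι) (e d : ι → Finset α)
    (Bad : ι → (α → Fin K) → Prop) (heV : ∀ i ∈ E, e i ⊆ Vs) (hde : ∀ i ∈ E, d i ⊆ e i)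
    (hne : ∀ i ∈ E, (e i).Nonempty)
    (hsupp : ∀ i ∈ E, ∀ f f' : α → Fin K, (∀ v ∈ e i, f v = f' v) → Bad i f → Bad i f')
    (hdet : ∀ i ∈ E, ∀ f f' : α → Fin K, (∀ v ∈ e i, v ∉ d i → f v = f' v) →
      Bad i f → Bad i f' → ∀ v ∈ d i, f v = f' v)
    (hsum : ∀ v ∈ Vs, ∑ i ∈ E with v ∈ e i, ((2 : ℝ) / K) ^ (d i).card ≤ 1 / 2) :
    ∃ f : α → Fin K, ∀ i ∈ E, ¬ Bad i f := by
  let ex : ({x // x ∈ Vs} → Fin K) → (α → Fin K) :=
    fun g x => if h : x ∈ Vs then g ⟨x, h⟩ else ⟨0, hK⟩
  have hex : ∀ g (x : α) (h : x ∈ Vs), ex g x = g ⟨x, h⟩ := by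
    intro g x h
    simp [ex, h]
  suffices hmain : ∃ g : {x // x ∈ Vs} → Fin K, ∀ i ∈ E, ¬ Bad i (ex g) by
    obtain ⟨g, hg⟩ := hmain
    exact ⟨ex g, hg⟩
  refine rosenfeld (V := {x // x ∈ Vs}) hK E (fun i => (e i).subtype (· ∈ Vs))
    (fun i => (d i).subtype (· ∈ Vs)) (fun i g => Bad i (ex g)) ?_ ?_ ?_ ?_
  · intro i hi
    obtain ⟨x, hx⟩ := hne i hi
    exact ⟨⟨x, heV i hi hx⟩, by simpa using hx⟩
  · intro i hi g g' hgg' hbad
    apply hsupp i hi _ _ _ hbad
    intro v hv
    rw [hex g v (heV i hi hv), hex g' v (heV i hi hv)]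
    apply hgg'
    simpa using hv
  · intro i hi g g' hgg' hb hb'
    have h1 : ∀ v ∈ e i, v ∉ d i → ex g v = ex g' v := by
      intro v hv hvd
      rw [hex g v (heV i hi hv), hex g' v (heV i hi hv)]
      apply hgg'
      simpa using hvd
    have h2 := hdet i hi _ _ h1 hb hb'
    funext ⟨x, hx⟩
    by_cases hxd : x ∈ d i
    · have := h2 x hxd
      rwa [hex g x hx, hex g' x hx] at this
    · apply hgg'
      simpa using hxd
  · rintro ⟨v, hv⟩
    have h1 : ∀ i ∈ E, ((d i).subtype (· ∈ Vs)).card = (d i).card := by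
      intro i hi
      rw [Finset.card_subtype]
      congr 1
      apply Finset.filter_true_of_mem
      intro x hx
      exact heV i hi (hde i hi hx)
    refine le_trans (le_of_eq ?_) (hsum v hv)
    have h2 : E.filter (fun i => (⟨v, hv⟩ : {x // x ∈ Vs}) ∈ (e i).subtype (· ∈ Vs)) =
        E.filter (fun i => v ∈ e i) := by
      apply Finset.filter_congr
      intro i _
      simp
    rw [h2]
    apply Finset.sum_congr rfl
    intro i hi
    rw [h1 i (Finset.mem_filter.1 hi).1]

end Pool.Agent.W_MP_d5b253_lc
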