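import Pool.Agent.W_MP_d5b253_lc.Core

/-!
# The space of infinite sets of natural numbers and its enumeration map
-/

set_option autoImplicit false

namespace Pool.Agent.W_MP_d5b253_lc

/-- the space `[ℕ]^ℕ` -/
abbrev Inf : Type := {x : ℕ → Bool // {n | x n = true}.Infinite}

/-- increasing enumeration -/
noncomputable def en (X : Inf) (k : ℕ) : ℕ := Nat.nth (fun n => X.1 n = true) k

theorem en_mem (X : Inf) (k : ℕ) : X.1 (en X k) = true :=
  Nat.nth_mem_of_infinite X.2 k

theorem en_strictMono (X : Inf) : StrictMono (en X) := Nat.nth_strictMono X.2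

theorem en_surj (X : Inf) {j : ℕ} (hj : X.1 j = true) : ∃ k, en X k = j := by
  classical
  refine ⟨Nat.count (fun n => X.1 n = true) j, ?_⟩
  exact Nat.nth_count hj

theorem en_iff (X : Inf) (k j : ℕ) :
    en X k = j ↔ X.1 j = true ∧ Nat.count (fun n => X.1 n = true) j = k := by
  constructor
  · rintro rfl
    exact ⟨en_mem X k, Nat.count_nth_of_infinite X.2 k⟩
  · rintro ⟨h1, h2⟩
    unfold en
    rw [← h2]
    exact Nat.nth_count h1

theorem en_injective : Function.Injective en := by
  intro X Y h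
  apply Subtype.ext
  funext j
  have h1 : ∀ Z : Inf, Z.1 j = true ↔ ∃ k, en Z k = j := fun Z =>
    ⟨fun h => en_surj Z h, by rintro ⟨k, rfl⟩; exact en_mem Z k⟩
  have h2 : X.1 j = true ↔ Y.1 j = true := by rw [h1, h1, h]
  rcases hX : X.1 j with _ | _ <;> rcases hY : Y.1 j with _ | _ <;> simp_all

theorem measurable_coord (j : ℕ) : Measurable fun X : Inf => X.1 j :=
  (measurable_pi_apply j).comp measurable_subtype_coe

theorem measurableSet_coord (j : ℕ) : MeasurableSet {X : Inf | X.1 j = true} :=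
  (measurable_coord j) (MeasurableSet.of_discrete (s := {true}))

theorem measurable_count (j : ℕ) :
    Measurable fun X : Inf => Nat.count (fun n => X.1 n = true) j := by
  induction j with
  | zero => simp
  | succ j ih =>
    simp only [Nat.count_succ]
    exact ih.add (Measurable.ite (measurableSet_coord j) measurable_const measurable_const)

theorem measurable_en : Measurable en := by
  rw [measurable_pi_iff]
  intro k
  apply measurable_to_countable'
  intro j
  have : (fun X : Inf => en X k) ⁻¹' {j} = {X : Inf | X.1 j = true} ∩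
      (fun X : Inf => Nat.count (fun n => X.1 n = true) j) ⁻¹' {k} := by
    ext X
    exact en_iff X k j
  rw [this]
  exact (measurableSet_coord j).inter ((measurable_count j) (MeasurableSet.of_discrete))

/-- Two infinite sets with enumerations having the same tail agree above the first point of the
tail. -/
theorem fiber_finite (n : ℕ) (u : ℕ → ℕ) : {Y : Inf | TEq n (en Y) u}.Finite := by
  have h1 : ∀ Y : Inf, TEq n (en Y) u → ∀ j, u n ≤ j → (Y.1 j = true ↔ ∃ k ≥ n, u k = j) := by
    intro Y hY j hj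
    constructor
    · intro h
      obtain ⟨k, hk⟩ := en_surj Y h
      have hn : n ≤ k := by
        by_contra hc
        have h2 := en_strictMono Y (not_le.1 hc)
        have h3 := hY n le_rfl
        omega
      exact ⟨k, hn, by rw [← hY k hn]; exact hk⟩
    · rintro ⟨k, hk, rfl⟩
      rw [← hY k hk]
      exact en_mem Y k
  apply Set.Finite.of_finite_image (f := fun Y : Inf => fun j : Fin (u n) => Y.1 j)
  · exact Set.toFinite _
  · intro Y hY Z hZ h
    apply Subtype.ext
    funext j
    rcases Nat.lt_or_ge j (u n) with hj | hj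
    · exact congrFun h ⟨j, hj⟩
    · have h2 : Y.1 j = true ↔ Z.1 j = true := by rw [h1 Y hY j hj, h1 Z hZ j hj]
      rcases hX : Y.1 j with _ | _ <;> rcases hY : Z.1 j with _ | _ <;> simp_all

section

variable {G : Type*} [Group G] [MulAction G ℕ]

theorem measurable_smul_seq (g : G) : Measurable fun x : ℕ → ℕ => g • x := by
  rw [measurable_pi_iff]
  intro k
  exact (measurable_from_top (f := fun n : ℕ => g • n)).comp (measurable_pi_apply k)

theorem measurableSet_Dm (S : ℕ → Finset G) (f : ℕ → ℕ → ℕ → ℕ) (n : ℕ) :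
    MeasurableSet {x : ℕ → ℕ | Dm S f n x} := by
  have : {x : ℕ → ℕ | Dm S f n x} = ⋂ k : ℕ, ⋂ m : ℕ, {x : ℕ → ℕ | n ≤ k → n ≤ m → m ≤ k →
      Gd (S m) (f m) (x k) (x (k + 1)) (x (k + 2)) (x (k + 3))} := by
    ext x
    simp only [Set.mem_iInter]
    exact ⟨fun h k m hk hm hmk => h k hk m hm hmk, fun h k hk m hm hmk => h k m hk hm hmk⟩
  rw [this]
  refine MeasurableSet.iInter fun k => MeasurableSet.iInter fun m => ?_
  have hm : Measurable fun x : ℕ → ℕ => (x k, x (k + 1), x (k + 2), x (k + 3)) := by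
    fun_prop
  exact hm (MeasurableSet.of_discrete (s := {t : ℕ × ℕ × ℕ × ℕ | n ≤ k → n ≤ m → m ≤ k →
      Gd (S m) (f m) t.1 t.2.1 t.2.2.1 t.2.2.2}))

theorem measurableSet_Ch (S : ℕ → Finset G) (f : ℕ → ℕ → ℕ → ℕ) (n : ℕ) :
    ∀ l : List G, MeasurableSet {x : ℕ → ℕ | Ch S f n x l}
  | [] => measurableSet_Dm S f n
  | (s :: l) => by
    have : {x : ℕ → ℕ | Ch S f n x (s :: l)} = {x | s ∈ S n} ∩ ({x | Ch S f n x l} ∩
        (fun x => (s :: l).prod • x) ⁻¹' {x | Dm S f n x}) := by
      ext x; rfl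
    rw [this]
    exact (MeasurableSet.const _).inter ((measurableSet_Ch S f n l).inter
      (measurable_smul_seq _ (measurableSet_Dm S f n)))

theorem measurableSet_TEq (n : ℕ) : MeasurableSet {p : (ℕ → ℕ) × (ℕ → ℕ) | TEq n p.1 p.2} := by
  have : {p : (ℕ → ℕ) × (ℕ → ℕ) | TEq n p.1 p.2} =
      ⋂ k : ℕ, {p : (ℕ → ℕ) × (ℕ → ℕ) | n ≤ k → p.1 k = p.2 k} := by
    ext p
    simp only [Set.mem_iInter]
    exact ⟨fun h k hk => h k hk, fun h k hk => h k hk⟩
  rw [this]
  refine MeasurableSet.iInter fun k => ?_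
  have hm : Measurable fun p : (ℕ → ℕ) × (ℕ → ℕ) => (p.1 k, p.2 k) := by fun_prop
  exact hm (MeasurableSet.of_discrete (s := {t : ℕ × ℕ | n ≤ k → t.1 = t.2}))

theorem measurableSet_Fs [Countable G] (S : ℕ → Finset G) (f : ℕ → ℕ → ℕ → ℕ) (n : ℕ)
    (h1S : (1 : G) ∈ S n) : MeasurableSet {p : (ℕ → ℕ) × (ℕ → ℕ) | Fs S f n p.1 p.2} := by
  have : {p : (ℕ → ℕ) × (ℕ → ℕ) | Fs S f n p.1 p.2} = {p | p.1 = p.2} ∪ ⋃ l : List G,
      (Prod.fst ⁻¹' {x | Ch S f n x l} ∩
        (fun p : (ℕ → ℕ) × (ℕ → ℕ) => (p.2, l.prod • p.1)) ⁻¹' {p | TEq n p.1 p.2}) := by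
    ext p
    simp only [Set.mem_union, Set.mem_iUnion]
    exact Fs_iff h1S p.1 p.2
  rw [this]
  refine (measurableSet_eq_fun measurable_fst measurable_snd).union
    (MeasurableSet.iUnion fun l => ?_)
  refine (measurable_fst (measurableSet_Ch S f n l)).inter ?_
  have hm : Measurable fun p : (ℕ → ℕ) × (ℕ → ℕ) => (p.2, l.prod • p.1) :=
    measurable_snd.prodMk ((measurable_smul_seq _).comp measurable_fst)
  exact hm (measurableSet_TEq n)

end

end Pool.Agent.W_MP_d5b253_lc
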