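import Pool.Agent.W_MP_d5b253_lc.Rosenfeld

/-!
Words in a sequence of point maps, and the stage lemma.
-/

set_option autoImplicit false

open Finset

namespace Pool.Agent.W_MP_d5b253_lc

/-- Apply the maps of a word, first letter first. -/
def ev (φ : ℕ → ℕ → ℕ) : List ℕ → ℕ → ℕ
  | [], x => x
  | s :: w, x => ev φ w (φ s x)

@[simp] theorem ev_nil (φ : ℕ → ℕ → ℕ) (x : ℕ) : ev φ [] x = x := rfl

@[simp] theorem ev_cons (φ : ℕ → ℕ → ℕ) (s : ℕ) (w : List ℕ) (x : ℕ) :
    ev φ (s :: w) x = ev φ w (φ s x) := rfl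

theorem ev_append (φ : ℕ → ℕ → ℕ) (w w' : List ℕ) (x : ℕ) :
    ev φ (w ++ w') x = ev φ w' (ev φ w x) := by
  induction w generalizing x with
  | nil => rfl
  | cons s w ih => simp [ih]

/-- Words of length `k` with letters `≤ m`. -/
def words (m : ℕ) : ℕ → Finset (List ℕ)
  | 0 => {[]}
  | k + 1 => ((range (m + 1)) ×ˢ words m k).image (fun p => p.1 :: p.2)

theorem mem_words (m k : ℕ) (w : List ℕ) :
    w ∈ words m k ↔ w.length = k ∧ ∀ s ∈ w, s ≤ m := by
  induction k generalizing w with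
  | zero =>
    simp only [words, Finset.mem_singleton]
    constructor
    · rintro rfl; simp
    · rintro ⟨h, _⟩; exact List.length_eq_zero_iff.1 h
  | succ k ih =>
    simp only [words, Finset.mem_image, Finset.mem_product, Finset.mem_range, Prod.exists]
    constructor
    · rintro ⟨s, w', ⟨hs, hw'⟩, rfl⟩
      rw [ih] at hw'
      refine ⟨by simp [hw'.1], ?_⟩
      intro t ht
      rcases List.mem_cons.1 ht with rfl | ht
      · omega
      · exact hw'.2 t ht
    · rintro ⟨h, h'⟩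
      cases w with
      | nil => simp at h
      | cons s w =>
        refine ⟨s, w, ⟨?_, ?_⟩, rfl⟩
        · have := h' s (by simp)
          omega
        · rw [ih]
          refine ⟨by simpa using h, fun t ht => h' t (by simp [ht])⟩

theorem card_words (m k : ℕ) : (words m k).card ≤ (m + 1) ^ k := by
  induction k with
  | zero => simp [words]
  | succ k ih =>
    simp only [words]
    refine Finset.card_image_le.trans ?_
    rw [Finset.card_product, Finset.card_range, pow_succ]
    calc (m + 1) * (words m k).card ≤ (m + 1) * (m + 1) ^ k := Nat.mul_le_mul_left _ ih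
      _ = (m + 1) ^ k * (m + 1) := by ring

/-- Position after `k` steps of the word `w`. -/
def pos (φ : ℕ → ℕ → ℕ) (w : List ℕ) (k x : ℕ) : ℕ := ev φ (w.take k) x

@[simp] theorem pos_zero (φ : ℕ → ℕ → ℕ) (w : List ℕ) (x : ℕ) : pos φ w 0 x = x := by
  simp [pos]

/-- The two-way condition along a word, for a pair of points. -/
def TwoWay (φ : ℕ → ℕ → ℕ) (m : ℕ) (w : List ℕ) (p q : ℕ) : Prop :=
  ∀ k < w.length, ∃ r ≤ m, φ r (pos φ w (k + 1) p) = pos φ w k p ∧
    φ r (pos φ w (k + 1) q) = pos φ w k q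

theorem twoWay_back (φ : ℕ → ℕ → ℕ) (m : ℕ) (w : List ℕ) (p q : ℕ) (h : TwoWay φ m w p q) :
    ∀ k ≤ w.length, ∃ ψ ∈ words m k, ev φ ψ (pos φ w k p) = p ∧ ev φ ψ (pos φ w k q) = q := by
  intro k
  induction k with
  | zero => intro _; exact ⟨[], by simp [words], by simp, by simp⟩
  | succ k ih =>
    intro hk
    obtain ⟨ψ, hψ, h1, h2⟩ := ih (by omega)
    obtain ⟨r, hr, h3, h4⟩ := h k (by omega)
    refine ⟨r :: ψ, ?_, ?_, ?_⟩
    · rw [mem_words] at hψ ⊢
      refine ⟨by simp [hψ.1], ?_⟩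
      intro s hs
      rcases List.mem_cons.1 hs with rfl | hs
      · exact hr
      · exact hψ.2 s hs
    · rw [ev_cons, h3, h1]
    · rw [ev_cons, h4, h2]

/-- The support of the path started at `(p, q)` with word `w` of length `a`. -/
def supp (φ : ℕ → ℕ → ℕ) (a p q : ℕ) (w : List ℕ) : Finset (ℕ × ℕ) :=
  (range (a + 1)).image (fun k => (pos φ w k p, pos φ w k q))

theorem mem_supp (φ : ℕ → ℕ → ℕ) (a p q : ℕ) (w : List ℕ) (v : ℕ × ℕ) :
    v ∈ supp φ a p q w ↔ ∃ k ≤ a, (pos φ w k p, pos φ w k q) = v := by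
  simp [supp]

/-- Words of length at most `a`. -/
def wordsLe (m a : ℕ) : Finset (List ℕ) := (range (a + 1)).biUnion (words m)

theorem mem_wordsLe (m a : ℕ) (w : List ℕ) :
    w ∈ wordsLe m a ↔ w.length ≤ a ∧ ∀ s ∈ w, s ≤ m := by
  simp only [wordsLe, Finset.mem_biUnion, Finset.mem_range, mem_words]
  constructor
  · rintro ⟨k, hk, rfl, h⟩
    exact ⟨by omega, h⟩
  · rintro ⟨h, h'⟩
    exact ⟨w.length, by omega, rfl, h'⟩

theorem card_wordsLe (m a : ℕ) : (wordsLe m a).card ≤ (a + 1) * (m + 1) ^ a := by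
  refine Finset.card_biUnion_le.trans ?_
  calc ∑ k ∈ range (a + 1), (words m k).card ≤ ∑ k ∈ range (a + 1), (m + 1) ^ a := by
        apply Finset.sum_le_sum
        intro k hk
        refine (card_words m k).trans ?_
        apply Nat.pow_le_pow_right (by omega)
        simp at hk
        omega
    _ = (a + 1) * (m + 1) ^ a := by simp

/-- Counting the paths through a given pair. -/
theorem card_paths (φ : ℕ → ℕ → ℕ) (m a : ℕ) (v : ℕ × ℕ) (b : Bool)
    (S : Finset (Bool × ℕ × ℕ × ℕ × List ℕ))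
    (hS : ∀ i ∈ S, i.1 = b ∧ i.2.1 = a ∧ i.2.2.2.2 ∈ words m a ∧
      TwoWay φ m i.2.2.2.2 i.2.2.1 i.2.2.2.1 ∧ v ∈ supp φ a i.2.2.1 i.2.2.2.1 i.2.2.2.2) :
    S.card ≤ (a + 1) * ((m + 1) ^ 2) ^ a := by
  classical
  have hsub : S ⊆ (wordsLe m a ×ˢ words m a).image
      (fun p : List ℕ × List ℕ => (b, a, ev φ p.1 v.1, ev φ p.1 v.2, p.2)) := by
    rintro ⟨b', a', p, q, w⟩ hi
    obtain ⟨h1, h2, h3, h4, h5⟩ := hS _ hi
    simp only at h1 h2 h3 h4 h5
    rw [mem_supp] at h5
    obtain ⟨k, hk, hv⟩ := h5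
    have hlen := (mem_words _ _ _).1 h3
    obtain ⟨ψ, hψ, h6, h7⟩ := twoWay_back φ m w p q h4 k (by omega)
    rw [Finset.mem_image]
    refine ⟨(ψ, w), ?_, ?_⟩
    · rw [Finset.mem_product]
      refine ⟨?_, h3⟩
      rw [mem_words] at hψ
      rw [mem_wordsLe]
      have h8 : ψ.length ≤ a := by omega
      exact ⟨h8, hψ.2⟩
    · rw [← hv]
      simp only [h6, h7, h1, h2]
  refine (Finset.card_le_card hsub).trans (Finset.card_image_le.trans ?_)
  rw [Finset.card_product]
  calc (wordsLe m a).card * (words m a).card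
      ≤ ((a + 1) * (m + 1) ^ a) * (m + 1) ^ a :=
        Nat.mul_le_mul (card_wordsLe m a) (card_words m a)
    _ = (a + 1) * ((m + 1) ^ 2) ^ a := by
        rw [← pow_mul, mul_assoc, ← pow_add]; ring_nf

/-- the number of colours -/
def qq (m : ℕ) : ℕ := 8 * (m + 1) ^ 2

def KK (m : ℕ) : ℕ := 2 * qq m ^ 2

theorem qq_pos (m : ℕ) : 0 < qq m := by unfold qq; positivity

theorem KK_pos (m : ℕ) : 0 < KK m := by
  have := qq_pos m
  unfold KK; positivity

/-- Representatives of the second coordinates. -/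
noncomputable def rep (P : Finset (ℕ × ℕ)) (y : ℕ) : ℕ × ℕ :=
  open Classical in if h : ∃ v ∈ P, v.2 = y then h.choose else (0, 0)

theorem rep_spec (P : Finset (ℕ × ℕ)) (v : ℕ × ℕ) (hv : v ∈ P) :
    rep P v.2 ∈ P ∧ (rep P v.2).2 = v.2 := by
  have h : ∃ u ∈ P, u.2 = v.2 := ⟨v, hv, rfl⟩
  unfold rep
  rw [dif_pos h]
  exact h.choose_spec

/-- The determined part of the support. -/
noncomputable def dpart (b : Bool) (P : Finset (ℕ × ℕ)) : Finset (ℕ × ℕ) :=
  if b then P else P \ (P.image Prod.snd).image (rep P)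

theorem dpart_subset (b : Bool) (P : Finset (ℕ × ℕ)) : dpart b P ⊆ P := by
  unfold dpart
  split_ifs
  · exact Finset.Subset.refl _
  · exact Finset.sdiff_subset

theorem card_dpart_false (P : Finset (ℕ × ℕ)) :
    P.card ≤ (dpart false P).card + (P.image Prod.snd).card := by
  have h1 : (dpart false P) = P \ (P.image Prod.snd).image (rep P) := by simp [dpart]
  rw [h1]
  have h2 := Finset.le_card_sdiff ((P.image Prod.snd).image (rep P)) P
  have h3 : ((P.image Prod.snd).image (rep P)).card ≤ (P.image Prod.snd).card :=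
    Finset.card_image_le
  omega

/-- Validity of an event index. -/
def Valid (φ : ℕ → ℕ → ℕ) (m N : ℕ) (b : Bool) (a p q : ℕ) (w : List ℕ) : Prop :=
  w ∈ words m a ∧ TwoWay φ m w p q ∧ a < N ∧ (∀ k ≤ a, pos φ w k p < N ∧ pos φ w k q < N) ∧
    (b = true → a + 1 ≤ 2 * (supp φ a p q w).card) ∧
    (b = false → p = a ∧ (supp φ a p q w).card = a + 1 ∧
      2 * ((supp φ a p q w).image Prod.snd).card ≤ a + 1)

theorem card_dpart (φ : ℕ → ℕ → ℕ) (m N : ℕ) (b : Bool) (a p q : ℕ) (w : List ℕ)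
    (h : Valid φ m N b a p q w) : a + 1 ≤ 2 * (dpart b (supp φ a p q w)).card := by
  obtain ⟨_, _, _, _, h1, h2⟩ := h
  cases b with
  | true => simpa [dpart] using h1 rfl
  | false =>
    obtain ⟨_, h3, h4⟩ := h2 rfl
    have := card_dpart_false (supp φ a p q w)
    omega

/-- The bad events. -/
def BadEv (φ : ℕ → ℕ → ℕ) {K : ℕ} (F : ℕ → ℕ → Fin K) (b : Bool) (a p q : ℕ) (w : List ℕ)
    (f : ℕ × ℕ → Fin K) : Prop :=
  if b then ∀ k ≤ a, f (pos φ w k p, pos φ w k q) = F (pos φ w k a) (pos φ w k p)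
  else ∀ v ∈ supp φ a p q w, ∀ v' ∈ supp φ a p q w, v.2 = v'.2 → f v = f v'

theorem weight_bound (m a : ℕ) :
    (((a + 1) * ((m + 1) ^ 2) ^ a : ℕ) : ℝ) * (1 / (qq m : ℝ)) ^ (a + 1) ≤
      1 / 8 * (1 / 2) ^ a := by
  have h1 : ((a : ℝ) + 1) ≤ 2 ^ a := by
    have : a + 1 ≤ 2 ^ a := Nat.lt_two_pow_self
    exact_mod_cast this
  unfold qq
  push_cast
  have h2 : (1 : ℝ) ≤ ((m : ℝ) + 1) ^ 2 := by
    have : (0 : ℝ) ≤ m := Nat.cast_nonneg m
    nlinarith
  generalize ((m : ℝ) + 1) ^ 2 = M at h2 ⊢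
  have hM : 0 < M := by linarith
  rw [one_div, inv_pow, mul_pow, ← div_eq_mul_inv]
  rw [div_le_iff₀ (by positivity)]
  have h3 : (8 : ℝ) ^ (a + 1) = 8 * (2 ^ a * 2 ^ a * 2 ^ a) := by
    rw [pow_succ]
    have : (8 : ℝ) = 2 * 2 * 2 := by norm_num
    nth_rewrite 1 [this]
    rw [mul_pow, mul_pow]; ring
  have h4 : (1 / 2 : ℝ) ^ a = 1 / 2 ^ a := by rw [one_div, inv_pow, one_div]
  rw [h3, h4, pow_succ]
  have h5 : (1 : ℝ) ≤ 2 ^ a := one_le_pow₀ (by norm_num)
  have h6 : (0 : ℝ) < M ^ a := by positivity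
  have h7 : 1 / 8 * (1 / 2 ^ a) * (8 * ((2 : ℝ) ^ a * 2 ^ a * 2 ^ a) * (M ^ a * M)) =
      (2 ^ a * 2 ^ a) * (M ^ a * M) := by
    field_simp
  rw [h7]
  calc ((a : ℝ) + 1) * M ^ a
      ≤ 2 ^ a * M ^ a := mul_le_mul_of_nonneg_right h1 h6.le
    _ ≤ (2 ^ a * 2 ^ a) * (M ^ a * M) := by
        have h8 : M ^ a ≤ M ^ a * M := le_mul_of_one_le_right h6.le h2
        have h9 : (2 : ℝ) ^ a ≤ 2 ^ a * 2 ^ a := le_mul_of_one_le_right (by positivity) h5
        exact mul_le_mul h9 h8 h6.le (by positivity)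

open Classical in
/-- **Stage lemma.** -/
theorem stage (φ : ℕ → ℕ → ℕ) (m N : ℕ) (F : ℕ → ℕ → Fin (KK m)) :
    ∃ f : ℕ × ℕ → Fin (KK m), ∀ b a p q w, Valid φ m N b a p q w →
      ¬ BadEv φ F b a p q w f := by
  let V' : (Bool × ℕ × ℕ × ℕ × List ℕ) → Prop :=
    fun i => Valid φ m N i.1 i.2.1 i.2.2.1 i.2.2.2.1 i.2.2.2.2
  let e : (Bool × ℕ × ℕ × ℕ × List ℕ) → Finset (ℕ × ℕ) :=
    fun i => supp φ i.2.1 i.2.2.1 i.2.2.2.1 i.2.2.2.2
  let E : Finset (Bool × ℕ × ℕ × ℕ × List ℕ) :=
    ((Finset.univ : Finset Bool) ×ˢ range N ×ˢ range N ×ˢ range N ×ˢ wordsLe m N).filter V'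
  have hE : ∀ i, i ∈ E ↔ V' i := by
    rintro ⟨b, a, p, q, w⟩
    simp only [E, Finset.mem_filter, Finset.mem_product, Finset.mem_univ, true_and,
      Finset.mem_range]
    constructor
    · exact fun h => h.2
    · intro h
      refine ⟨?_, h⟩
      obtain ⟨h1, h2, h3, h4, _⟩ := h
      simp only at h1 h2 h3 h4
      have h5 := h4 0 (by omega)
      simp only [pos_zero] at h5
      refine ⟨h3, h5.1, h5.2, ?_⟩
      rw [mem_words] at h1
      rw [mem_wordsLe]
      exact ⟨by omega, h1.2⟩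
  obtain ⟨f, hf⟩ := rosenfeld' (KK_pos m) (range N ×ˢ range N) E e (fun i => dpart i.1 (e i))
    (fun i f => BadEv φ F i.1 i.2.1 i.2.2.1 i.2.2.2.1 i.2.2.2.2 f) (by
      rintro ⟨b, a, p, q, w⟩ hi v hv
      rw [hE] at hi
      obtain ⟨h1, h2, h3, h4, _⟩ := hi
      simp only at h1 h2 h3 h4
      simp only [e] at hv
      rw [mem_supp] at hv
      obtain ⟨k, hk, rfl⟩ := hv
      have := h4 k hk
      simp [this.1, this.2]) (by
      intro i _
      exact dpart_subset _ _) (by
      rintro ⟨b, a, p, q, w⟩ hi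
      exact ⟨(pos φ w 0 p, pos φ w 0 q), by
        simp only [e]; rw [mem_supp]; exact ⟨0, by omega, rfl⟩⟩) (by
      rintro ⟨b, a, p, q, w⟩ hi f f' hff' hbad
      simp only [e] at hff'
      unfold BadEv at hbad ⊢
      cases b with
      | true =>
        simp only [if_true] at hbad ⊢
        intro k hk
        rw [← hbad k hk]
        exact (hff' _ ((mem_supp _ _ _ _ _ _).2 ⟨k, hk, rfl⟩)).symm
      | false =>
        simp only [Bool.false_eq_true, if_false] at hbad ⊢
        intro v hv v' hv' h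
        rw [← hff' v hv, ← hff' v' hv']
        exact hbad v hv v' hv' h) (by
      rintro ⟨b, a, p, q, w⟩ hi f f' hff' hb hb' v hv
      simp only [e] at hff' hv
      unfold BadEv at hb hb'
      cases b with
      | true =>
        simp only [if_true] at hb hb'
        simp only [dpart, if_true] at hv
        obtain ⟨k, hk, rfl⟩ := (mem_supp _ _ _ _ _ _).1 hv
        rw [hb k hk, hb' k hk]
      | false =>
        simp only [Bool.false_eq_true, if_false] at hb hb'
        have hvP : v ∈ supp φ a p q w := dpart_subset _ _ hv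
        obtain ⟨h1, h2⟩ := rep_spec _ v hvP
        have h3 : rep (supp φ a p q w) v.2 ∉ dpart false (supp φ a p q w) := by
          simp only [dpart, Bool.false_eq_true, if_false, Finset.mem_sdiff, not_and, not_not]
          intro _
          exact Finset.mem_image_of_mem _ (Finset.mem_image_of_mem _ hvP)
        have h4 := hff' _ h1 h3
        rw [hb v hvP _ h1 h2.symm, hb' v hvP _ h1 h2.symm, h4]) (by
      intro v _
      -- the sum
      have hq := qq_pos m
      have hqr : (0 : ℝ) < qq m := by exact_mod_cast hq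
      have hterm : ∀ i ∈ E, ((2 : ℝ) / (KK m : ℝ)) ^ (dpart i.1 (e i)).card ≤
          (1 / (qq m : ℝ)) ^ (i.2.1 + 1) := by
        intro i hi
        rw [hE] at hi
        have h1 := card_dpart φ m N _ _ _ _ _ hi
        have h2 : ((2 : ℝ) / (KK m : ℝ)) = (1 / (qq m : ℝ)) ^ 2 := by
          unfold KK
          push_cast
          field_simp
        rw [h2, ← pow_mul]
        apply pow_le_pow_of_le_one (by positivity)
        · rw [div_le_one hqr]
          exact_mod_cast hq
        · exact h1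
      have hmaps : ∀ i ∈ E.filter (fun i => v ∈ e i),
          (i.1, i.2.1) ∈ (Finset.univ : Finset Bool) ×ˢ range N := by
        rintro ⟨b, a, p, q, w⟩ hi
        rw [Finset.mem_filter, hE] at hi
        obtain ⟨⟨h1, h2, h3, h4, _⟩, _⟩ := hi
        simp only [Finset.mem_product, Finset.mem_univ, true_and, Finset.mem_range]
        exact h3
      rw [← Finset.sum_fiberwise_of_maps_to hmaps]
      calc ∑ j ∈ (Finset.univ : Finset Bool) ×ˢ range N,
            ∑ i ∈ (E.filter (fun i => v ∈ e i)).filter (fun i => (i.1, i.2.1) = j),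
              ((2 : ℝ) / (KK m : ℝ)) ^ (dpart i.1 (e i)).card
          ≤ ∑ j ∈ (Finset.univ : Finset Bool) ×ˢ range N, 1 / 8 * (1 / 2 : ℝ) ^ j.2 := by
            apply Finset.sum_le_sum
            rintro ⟨b, a⟩ _
            have hcard : (((E.filter (fun i => v ∈ e i)).filter
                (fun i => (i.1, i.2.1) = (b, a))).card : ℝ) ≤
                (((a + 1) * ((m + 1) ^ 2) ^ a : ℕ) : ℝ) := by
              norm_cast
              apply card_paths φ m a v b
              rintro ⟨b', a', p, q, w⟩ hi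
              rw [Finset.mem_filter, Finset.mem_filter, hE] at hi
              obtain ⟨⟨⟨h1, h2, h3, h4, _⟩, h5⟩, h6⟩ := hi
              simp only at h1 h2 h3 h4 h5 h6
              rw [Prod.mk.injEq] at h6
              obtain ⟨rfl, rfl⟩ := h6
              exact ⟨rfl, rfl, h1, h2, h5⟩
            calc ∑ i ∈ (E.filter (fun i => v ∈ e i)).filter (fun i => (i.1, i.2.1) = (b, a)),
                  ((2 : ℝ) / (KK m : ℝ)) ^ (dpart i.1 (e i)).card
                ≤ ∑ i ∈ (E.filter (fun i => v ∈ e i)).filter (fun i => (i.1, i.2.1) = (b, a)),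
                  (1 / (qq m : ℝ)) ^ (a + 1) := by
                  apply Finset.sum_le_sum
                  intro i hi
                  rw [Finset.mem_filter, Finset.mem_filter] at hi
                  have h1 := hterm i hi.1.1
                  have h2 : i.2.1 = a := (Prod.mk.inj hi.2).2
                  rwa [h2] at h1
              _ = (((E.filter (fun i => v ∈ e i)).filter
                  (fun i => (i.1, i.2.1) = (b, a))).card : ℝ) * (1 / (qq m : ℝ)) ^ (a + 1) := by
                  rw [Finset.sum_const, nsmul_eq_mul]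
              _ ≤ (((a + 1) * ((m + 1) ^ 2) ^ a : ℕ) : ℝ) * (1 / (qq m : ℝ)) ^ (a + 1) :=
                  mul_le_mul_of_nonneg_right hcard (by positivity)
              _ ≤ 1 / 8 * (1 / 2) ^ a := weight_bound m a
        _ ≤ 1 / 2 := by
            rw [Finset.sum_product]
            simp only [Fintype.sum_bool, ← Finset.mul_sum]
            have := sum_geometric_two_le N
            linarith)
  refine ⟨f, ?_⟩
  intro b a p q w hv
  exact hf (b, a, p, q, w) ((hE _).2 hv)

end Pool.Agent.W_MP_d5b253_lc
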